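import Pool.Agent.Lib_helper41.KSL.DefsN
import Pool.Agent.Lib_helper68.LEV.MRT

/-!
# Block CON: choice of the parameters (smooth and rough numbers).
-/

namespace Pool.Agent.KSL

open Pool.Agent.LVB Pool.Agent.LEV Complex MeasureTheory Filter Topology UpperHalfPlane ModularGroup
  ProbabilityTheory
open scoped MatrixGroups Modular ENNReal ModularForm ComplexConjugate ContDiff

theorem CON_VV_pos (z : ℕ) : 0 < VV z := by
  unfold VV
  refine Finset.prod_pos fun p hp => ?_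
  have hp2 : 2 ≤ p := (Finset.mem_filter.1 hp).2.two_le
  have : (2 : ℝ) ≤ p := by exact_mod_cast hp2
  have h1 : 1 / (p : ℝ) ≤ 1 / 2 := one_div_le_one_div_of_le (by norm_num) this
  linarith

theorem CON_primes (z : ℕ) : (z + 1).primesBelow = (Finset.Icc 1 z).filter Nat.Prime := by
  ext p
  simp only [Nat.primesBelow, Finset.mem_filter, Finset.mem_range, Finset.mem_Icc]
  constructor
  · rintro ⟨h1, h2⟩
    exact ⟨⟨h2.one_lt.le, by omega⟩, h2⟩
  · rintro ⟨⟨_, h1⟩, h2⟩
    exact ⟨by omega, h2⟩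

theorem CON_smooth_iff (z a : ℕ) : smooth z a ↔ a ∈ (z + 1).smoothNumbers := by
  rw [Nat.mem_smoothNumbers']
  unfold smooth
  constructor
  · rintro ⟨h0, h⟩ p hp hpa
    have := h p hp hpa
    omega
  · intro h
    refine ⟨?_, fun p hp hpa => ?_⟩
    · rintro rfl
      obtain ⟨p, hp1, hp2⟩ := Nat.exists_infinite_primes (z + 1)
      have := h p hp2 (dvd_zero p)
      omega
    · have := h p hp hpa
      omega

/-- the reciprocals of smooth numbers -/
theorem CON_hasSum (z : ℕ) :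
    HasSum (fun m : (z + 1).smoothNumbers => 1 / ((m : ℕ) : ℝ)) (VV z)⁻¹ := by
  let g : ℕ →* ℝ :=
    { toFun := fun n => 1 / (n : ℝ)
      map_one' := by simp
      map_mul' := fun a b => by simp [mul_comm] }
  have hg : ∀ {p : ℕ}, p.Prime → ‖g p‖ < 1 := by
    intro p hp
    have : (2 : ℝ) ≤ p := by exact_mod_cast hp.two_le
    show ‖1 / (p : ℝ)‖ < 1
    rw [Real.norm_of_nonneg (by positivity), div_lt_one (by linarith)]
    linarith
  have h := (EulerProduct.summable_and_hasSum_smoothNumbers_prod_primesBelow_geometric (f := g)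
    hg (z + 1)).2
  rw [CON_primes, Finset.prod_inv_distrib] at h
  exact h

/-- the upper bound for finite sums -/
theorem CON_sum_le (z : ℕ) {B : Finset ℕ} (hB : ∀ b ∈ B, smooth z b) :
    ∑ b ∈ B, 1 / (b : ℝ) ≤ (VV z)⁻¹ := by
  have h := CON_hasSum z
  have h2 : ∑ b ∈ B, 1 / (b : ℝ) =
      ∑ b ∈ B.subtype (fun b => b ∈ (z + 1).smoothNumbers), 1 / ((b : ℕ) : ℝ) := by
    rw [Finset.sum_subtype_of_mem (f := fun b : ℕ => 1 / (b : ℝ))
      (fun b hb => (CON_smooth_iff z b).1 (hB b hb))]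
  rw [h2]
  exact sum_le_hasSum _ (fun b _ => by positivity) h

theorem CON_div_sum (z : ℕ) {A : Finset ℕ} (hA : ∀ a ∈ A, smooth z a) :
    ∑ a ∈ A, ((a.divisors.card : ℕ) : ℝ) / a ≤ (VV z)⁻¹ ^ 2 := by
  classical
  set B : Finset ℕ := A.biUnion Nat.divisors with hBd
  have hB : ∀ b ∈ B, smooth z b := by
    intro b hb
    obtain ⟨a, ha, hba⟩ := Finset.mem_biUnion.1 hb
    have hba' := Nat.mem_divisors.1 hba
    exact ⟨fun h => by subst h; exact hba'.2 (Nat.eq_zero_of_zero_dvd hba'.1),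
      fun p hp hpb => (hA a ha).2 p hp (hpb.trans hba'.1)⟩
  have h1 : ∑ a ∈ A, ((a.divisors.card : ℕ) : ℝ) / a =
      ∑ a ∈ A, ∑ q ∈ a.divisorsAntidiagonal, 1 / (q.1 : ℝ) * (1 / (q.2 : ℝ)) := by
    refine Finset.sum_congr rfl fun a ha => ?_
    have : ∀ q ∈ a.divisorsAntidiagonal, 1 / (q.1 : ℝ) * (1 / (q.2 : ℝ)) = 1 / (a : ℝ) := by
      intro q hq
      have hq' := (Nat.mem_divisorsAntidiagonal.1 hq).1
      rw [← hq']
      push_cast
      rw [one_div_mul_one_div]
    rw [Finset.sum_congr rfl this, Finset.sum_const, nsmul_eq_mul,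
      ← Nat.map_div_right_divisors, Finset.card_map]
    ring
  have h2 : ∑ a ∈ A, ∑ q ∈ a.divisorsAntidiagonal, 1 / (q.1 : ℝ) * (1 / (q.2 : ℝ)) ≤
      ∑ q ∈ B ×ˢ B, 1 / (q.1 : ℝ) * (1 / (q.2 : ℝ)) := by
    rw [← Finset.sum_biUnion]
    · refine Finset.sum_le_sum_of_subset_of_nonneg ?_ (fun _ _ _ => by positivity)
      intro q hq
      obtain ⟨a, ha, hqa⟩ := Finset.mem_biUnion.1 hq
      have hq' := Nat.mem_divisorsAntidiagonal.1 hqa
      refine Finset.mem_product.2 ⟨Finset.mem_biUnion.2 ⟨a, ha, ?_⟩,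
        Finset.mem_biUnion.2 ⟨a, ha, ?_⟩⟩
      · exact Nat.mem_divisors.2 ⟨Dvd.intro _ hq'.1, hq'.2⟩
      · exact Nat.mem_divisors.2 ⟨Dvd.intro_left _ hq'.1, hq'.2⟩
    · intro a ha b hb hab
      refine Finset.disjoint_left.2 fun q hqa hqb => hab ?_
      rw [← (Nat.mem_divisorsAntidiagonal.1 hqa).1, (Nat.mem_divisorsAntidiagonal.1 hqb).1]
  have h3 : ∑ q ∈ B ×ˢ B, 1 / (q.1 : ℝ) * (1 / (q.2 : ℝ)) = (∑ b ∈ B, 1 / (b : ℝ)) ^ 2 := by
    rw [sq, Finset.sum_mul_sum, ← Finset.sum_product']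
  rw [h1]
  refine h2.trans ?_
  rw [h3]
  exact pow_le_pow_left₀ (Finset.sum_nonneg fun _ _ => by positivity) (CON_sum_le z hB) 2

/-- Mertens' bounds for the product -/
theorem CON_VV_bounds : ∃ c C : ℝ, 0 < c ∧ 0 < C ∧ ∀ z : ℕ, 2 ≤ z →
    c / Real.log z ≤ VV z ∧ VV z ≤ C / Real.log z := by
  obtain ⟨M, hM⟩ := mertens_two
  refine ⟨Real.exp (-M - 2), Real.exp M, Real.exp_pos _, Real.exp_pos _, fun z hz => ?_⟩
  have hz2 : (2 : ℝ) ≤ z := by exact_mod_cast hz
  have hlz : 0 < Real.log z := Real.log_pos (by linarith)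
  have hm := hM z hz2
  rw [Nat.floor_natCast] at hm
  have hm' := abs_le.1 hm
  set S := ∑ p ∈ (Finset.Icc 1 z).filter Nat.Prime, 1 / (p : ℝ) with hS
  have hVV : VV z = Real.exp (∑ p ∈ (Finset.Icc 1 z).filter Nat.Prime,
      Real.log (1 - 1 / (p : ℝ))) := by
    rw [Real.exp_sum]
    unfold VV
    refine Finset.prod_congr rfl fun p hp => ?_
    have hp2 : 2 ≤ p := (Finset.mem_filter.1 hp).2.two_le
    have : (2 : ℝ) ≤ p := by exact_mod_cast hp2
    have h1 : 1 / (p : ℝ) ≤ 1 / 2 := one_div_le_one_div_of_le (by norm_num) this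
    rw [Real.exp_log (by linarith)]
  have hup : ∑ p ∈ (Finset.Icc 1 z).filter Nat.Prime, Real.log (1 - 1 / (p : ℝ)) ≤ -S := by
    rw [hS, ← Finset.sum_neg_distrib]
    refine Finset.sum_le_sum fun p hp => ?_
    have hp2 : 2 ≤ p := (Finset.mem_filter.1 hp).2.two_le
    have : (2 : ℝ) ≤ p := by exact_mod_cast hp2
    have h1 : 1 / (p : ℝ) ≤ 1 / 2 := one_div_le_one_div_of_le (by norm_num) this
    have := Real.log_le_sub_one_of_pos (show (0 : ℝ) < 1 - 1 / p by linarith)
    linarith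
  have hlo : -S - 2 ≤ ∑ p ∈ (Finset.Icc 1 z).filter Nat.Prime, Real.log (1 - 1 / (p : ℝ)) := by
    have h2 : ∑ p ∈ (Finset.Icc 1 z).filter Nat.Prime, 2 / (p : ℝ) ^ 2 ≤ 2 := by
      have h3 : ∀ n : ℕ, ∑ p ∈ Finset.Icc 2 (n + 1), 2 / (p : ℝ) ^ 2 ≤ 2 - 2 / (n + 1 : ℝ) := by
        intro n
        induction n with
        | zero => simp
        | succ n ih =>
          rw [Finset.sum_Icc_succ_top (by omega)]
          push_cast at ih ⊢
          have : 2 / ((n : ℝ) + 1 + 1) ^ 2 ≤ 2 / ((n : ℝ) + 1) - 2 / ((n : ℝ) + 1 + 1) := by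
            rw [div_sub_div _ _ (by positivity) (by positivity),
              div_le_div_iff₀ (by positivity) (by positivity)]
            nlinarith [(Nat.cast_nonneg n : (0 : ℝ) ≤ n)]
          linarith
      have h4 : (Finset.Icc 1 z).filter Nat.Prime ⊆ Finset.Icc 2 (z + 1) := by
        intro p hp
        have := Finset.mem_filter.1 hp
        have h5 := this.2.two_le
        have h6 := (Finset.mem_Icc.1 this.1).2
        exact Finset.mem_Icc.2 ⟨h5, by omega⟩
      refine (Finset.sum_le_sum_of_subset_of_nonneg h4 fun _ _ _ => by positivity).trans ?_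
      refine (h3 z).trans ?_
      have : 0 ≤ 2 / ((z : ℝ) + 1) := by positivity
      linarith
    have h7 : ∑ p ∈ (Finset.Icc 1 z).filter Nat.Prime, (-(1 / (p : ℝ)) - 2 / (p : ℝ) ^ 2) ≤
        ∑ p ∈ (Finset.Icc 1 z).filter Nat.Prime, Real.log (1 - 1 / (p : ℝ)) := by
      refine Finset.sum_le_sum fun p hp => ?_
      have hp2 : 2 ≤ p := (Finset.mem_filter.1 hp).2.two_le
      have hp3 : (2 : ℝ) ≤ p := by exact_mod_cast hp2
      have h1 : 1 / (p : ℝ) ≤ 1 / 2 := one_div_le_one_div_of_le (by norm_num) hp3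
      set u := 1 / (p : ℝ) with hu
      have hu0 : 0 < u := by positivity
      have hu2 : 2 / (p : ℝ) ^ 2 = 2 * u ^ 2 := by rw [hu]; field_simp
      rw [hu2]
      have h8 := Real.one_sub_inv_le_log_of_pos (show (0 : ℝ) < 1 - u by linarith)
      have h9 : -u - 2 * u ^ 2 ≤ 1 - (1 - u)⁻¹ := by
        have : (1 - u)⁻¹ ≤ 1 + u + 2 * u ^ 2 := by
          rw [inv_le_iff_one_le_mul₀ (by linarith)]
          nlinarith [sq_nonneg u, mul_nonneg (sq_nonneg u) (show (0 : ℝ) ≤ 1 - 2 * u by linarith)]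
        linarith
      linarith
    rw [Finset.sum_sub_distrib, Finset.sum_neg_distrib] at h7
    linarith
  rw [hVV]
  constructor
  · rw [div_le_iff₀ hlz]
    calc Real.exp (-M - 2) = Real.exp (-M - 2 - Real.log (Real.log z)) * Real.log z := by
          rw [Real.exp_sub (-M - 2), Real.exp_log hlz]
          field_simp
      _ ≤ _ := by
          refine mul_le_mul_of_nonneg_right (Real.exp_le_exp.2 ?_) hlz.le
          linarith [hm'.2]
  · rw [le_div_iff₀ hlz]
    calc _ ≤ Real.exp (M - Real.log (Real.log z)) * Real.log z := by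
          refine mul_le_mul_of_nonneg_right (Real.exp_le_exp.2 ?_) hlz.le
          linarith [hm'.1]
      _ = Real.exp M := by
          rw [Real.exp_sub, Real.exp_log hlz]
          field_simp

theorem smooth_param_pr (K : ℝ) {ε C₂ C : ℝ} (hε : 0 < ε) (hC₂ : 0 < C₂) (hC : 1 ≤ C) : ∃ (z : ℕ) (κ : ℝ) (A : Finset ℕ), 2 ≤ z ∧ 0 < κ ∧ κ < 1 ∧
      (∀ a ∈ A, smooth z a ∧ K * C ≤ a * κ) ∧ 1 - ε ≤ VV z * ∑ a ∈ A, 1 / (a : ℝ) ∧
      (∑ a ∈ A, Real.sqrt (a.divisors.card) / a) * Real.sqrt (C₂ * (1 / z + κ)) ≤ ε := by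
  classical
  obtain ⟨c, D, hc, hD, hcD⟩ := CON_VV_bounds
  set K' : ℝ := max K 1 with hK'
  have hK1 : 1 ≤ K' := le_max_right _ _
  have hlog : Tendsto (fun z : ℕ => Real.log z) atTop atTop :=
    Real.tendsto_log_atTop.comp tendsto_natCast_atTop_atTop
  have E1 : ∀ᶠ z : ℕ in atTop, 1 < Real.log z := hlog.eventually_gt_atTop 1
  have E2 : ∀ᶠ z : ℕ in atTop,
      D * (1 + Real.log (K' * C) + 8 * Real.log (Real.log z)) / Real.log z ≤ ε / 2 := by
    have h1 : Tendsto (fun x : ℝ => D * (1 + Real.log (K' * C) + 8 * Real.log x) / x) atTop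
        (𝓝 0) := by
      have h2 : Tendsto (fun x : ℝ => Real.log x / x) atTop (𝓝 0) := by
        have := Real.isLittleO_log_id_atTop.tendsto_div_nhds_zero
        simpa using this
      have h3 : Tendsto (fun x : ℝ => x⁻¹) atTop (𝓝 0) := tendsto_inv_atTop_zero
      have h4 := (h3.const_mul (D * (1 + Real.log (K' * C)))).add (h2.const_mul (D * 8))
      rw [mul_zero, mul_zero, add_zero] at h4
      refine h4.congr fun x => ?_
      ring
    have := (h1.comp hlog).eventually (ge_mem_nhds (show (0 : ℝ) < ε / 2 by linarith))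
    exact this
  have E3 : ∀ᶠ z : ℕ in atTop, Real.log z ^ 8 ≤ z := by
    have h1 : (fun x : ℝ => Real.log x ^ 8) =o[atTop] (fun x : ℝ => x) := by
      have := isLittleO_log_rpow_rpow_atTop 8 (show (0 : ℝ) < 1 by norm_num)
      refine (this.congr_left ?_).congr_right ?_
      · intro x
        exact_mod_cast Real.rpow_natCast (Real.log x) 8
      · intro x
        exact Real.rpow_one x
    have h2 := (h1.bound (show (0 : ℝ) < 1 by norm_num))
    have h3 := tendsto_natCast_atTop_atTop (R := ℝ) |>.eventually h2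
    filter_upwards [h3] with z hz
    rw [one_mul, Real.norm_of_nonneg (by positivity), Real.norm_of_nonneg (by positivity)] at hz
    exact hz
  have E4 : ∀ᶠ z : ℕ in atTop, Real.sqrt (2 * C₂) / (c ^ 2 * Real.log z ^ 2) ≤ ε := by
    have h1 : Tendsto (fun x : ℝ => Real.sqrt (2 * C₂) / (c ^ 2 * x ^ 2)) atTop (𝓝 0) := by
      refine Tendsto.div_atTop tendsto_const_nhds ?_
      exact (tendsto_pow_atTop two_ne_zero).const_mul_atTop (by positivity)
    exact (h1.comp hlog).eventually (ge_mem_nhds hε)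
  obtain ⟨z, h1, h2, h3, h4, hz2⟩ := (E1.and (E2.and (E3.and (E4.and
    (eventually_ge_atTop 2))))).exists
  obtain ⟨hb1, hb2⟩ := hcD z hz2
  set L := Real.log z with hL
  have hL0 : 0 < L := by linarith
  have hV := CON_VV_pos z
  have hz0 : (0 : ℝ) < z := by
    have : (2 : ℝ) ≤ z := by exact_mod_cast hz2
    linarith
  set κ : ℝ := (L ^ 8)⁻¹ with hκ
  have hκ0 : 0 < κ := by positivity
  have hκ1 : κ < 1 := inv_lt_one_of_one_lt₀ (one_lt_pow₀ h1 (by norm_num))
  -- a finite set of smooth numbers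
  have hs := CON_hasSum z
  have hlt : (1 - ε / 2) * (VV z)⁻¹ < (VV z)⁻¹ := by
    have : 0 < (VV z)⁻¹ := inv_pos.2 hV
    nlinarith
  obtain ⟨S, hS⟩ := (hs.eventually (lt_mem_nhds hlt)).exists
  set T : Finset ℕ := S.map ⟨fun m : (z + 1).smoothNumbers => (m : ℕ), Subtype.val_injective⟩
    with hT
  have hTs : ∀ a ∈ T, smooth z a := by
    intro a ha
    obtain ⟨m, _, rfl⟩ := Finset.mem_map.1 ha
    exact (CON_smooth_iff z _).2 m.2
  have hTsum : (1 - ε / 2) * (VV z)⁻¹ < ∑ a ∈ T, 1 / (a : ℝ) := by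
    rw [hT, Finset.sum_map]
    exact hS
  set A : Finset ℕ := T.filter (fun a : ℕ => K * C ≤ (a : ℝ) * κ) with hA
  have hAs : ∀ a ∈ A, smooth z a := fun a ha => hTs a (Finset.mem_filter.1 ha).1
  -- the small numbers
  have hsmall : VV z * ∑ a ∈ T.filter (fun a : ℕ => ¬ K * C ≤ (a : ℝ) * κ), 1 / (a : ℝ) ≤
      ε / 2 := by
    set M : ℕ := ⌊K' * C * L ^ 8⌋₊ with hM
    have hM1 : 1 ≤ K' * C * L ^ 8 := by
      have h5 : 1 ≤ K' * C := by nlinarith
      have h6 : 1 ≤ L ^ 8 := one_le_pow₀ h1.le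
      nlinarith
    have hsub : T.filter (fun a : ℕ => ¬ K * C ≤ (a : ℝ) * κ) ⊆ Finset.Icc 1 M := by
      intro a ha
      obtain ⟨haT, ha2⟩ := Finset.mem_filter.1 ha
      push Not at ha2
      refine Finset.mem_Icc.2 ⟨Nat.one_le_iff_ne_zero.2 (hTs a haT).1, Nat.le_floor ?_⟩
      have h5 : (a : ℝ) * κ ≤ K' * C :=
        ha2.le.trans (mul_le_mul_of_nonneg_right (le_max_left _ _) (by linarith))
      rw [hκ] at h5
      have h6 : 0 < L ^ 8 := by positivity
      rw [← div_eq_mul_inv, div_le_iff₀ h6] at h5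
      exact h5
    have h5 : ∑ a ∈ T.filter (fun a : ℕ => ¬ K * C ≤ (a : ℝ) * κ), 1 / (a : ℝ) ≤
        1 + Real.log (K' * C * L ^ 8) := by
      refine (Finset.sum_le_sum_of_subset_of_nonneg hsub fun _ _ _ => by positivity).trans ?_
      have h6 := harmonic_le_one_add_log M
      have h7 : ((harmonic M : ℚ) : ℝ) = ∑ a ∈ Finset.Icc 1 M, 1 / (a : ℝ) := by
        rw [harmonic_eq_sum_Icc]
        push_cast
        simp [one_div]
      rw [← h7]
      refine h6.trans ?_
      have hM0 : 1 ≤ M := Nat.le_floor (by exact_mod_cast hM1)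
      have : Real.log M ≤ Real.log (K' * C * L ^ 8) :=
        Real.log_le_log (by exact_mod_cast hM0) (Nat.floor_le (by linarith))
      linarith
    have h6 : Real.log (K' * C * L ^ 8) = Real.log (K' * C) + 8 * Real.log L := by
      rw [Real.log_mul (by nlinarith) (by positivity), Real.log_pow]
      push_cast
      ring
    have h7 : 0 ≤ 1 + Real.log (K' * C) + 8 * Real.log L := by
      have h8 : 0 ≤ Real.log (K' * C) := Real.log_nonneg (by nlinarith)
      have h9 : 0 ≤ Real.log L := Real.log_nonneg h1.le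
      linarith
    calc _ ≤ VV z * (1 + Real.log (K' * C) + 8 * Real.log L) := by
          refine mul_le_mul_of_nonneg_left ?_ hV.le
          linarith
      _ ≤ D / L * (1 + Real.log (K' * C) + 8 * Real.log L) :=
          mul_le_mul_of_nonneg_right hb2 h7
      _ = D * (1 + Real.log (K' * C) + 8 * Real.log L) / L := by ring
      _ ≤ _ := h2
  refine ⟨z, κ, A, hz2, hκ0, hκ1, fun a ha => ⟨hAs a ha, (Finset.mem_filter.1 ha).2⟩, ?_, ?_⟩
  · have hsplit : ∑ a ∈ T, 1 / (a : ℝ) = ∑ a ∈ A, 1 / (a : ℝ) +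
        ∑ a ∈ T.filter (fun a : ℕ => ¬ K * C ≤ (a : ℝ) * κ), 1 / (a : ℝ) :=
      (Finset.sum_filter_add_sum_filter_not T _ _).symm
    have h5 : 1 - ε / 2 ≤ VV z * ∑ a ∈ T, 1 / (a : ℝ) := by
      have := mul_le_mul_of_nonneg_left hTsum.le hV.le
      have h6 : VV z * ((1 - ε / 2) * (VV z)⁻¹) = 1 - ε / 2 := by field_simp
      linarith
    rw [hsplit, mul_add] at h5
    linarith
  · have h5 : ∑ a ∈ A, Real.sqrt (a.divisors.card) / a ≤ (L / c) ^ 2 := by
      have h6 : ∑ a ∈ A, Real.sqrt (a.divisors.card) / a ≤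
          ∑ a ∈ A, ((a.divisors.card : ℕ) : ℝ) / a := by
        refine Finset.sum_le_sum fun a ha => div_le_div_of_nonneg_right ?_ (by positivity)
        have h7 : (1 : ℝ) ≤ (a.divisors.card : ℕ) := by
          have : 0 < a.divisors.card := Finset.card_pos.2
            ⟨1, Nat.mem_divisors.2 ⟨one_dvd _, (hAs a ha).1⟩⟩
          exact_mod_cast this
        rw [Real.sqrt_le_left (by linarith)]
        nlinarith
      refine h6.trans ((CON_div_sum z hAs).trans ?_)
      have h7 : (VV z)⁻¹ ≤ L / c := by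
        rw [inv_le_comm₀ hV (by positivity), inv_div]
        exact hb1
      exact pow_le_pow_left₀ (inv_nonneg.2 hV.le) h7 2
    have h6 : Real.sqrt (C₂ * (1 / z + κ)) ≤ Real.sqrt (2 * C₂) / L ^ 4 := by
      rw [show Real.sqrt (2 * C₂) / L ^ 4 = Real.sqrt (2 * C₂ / (L ^ 4) ^ 2) by
        rw [Real.sqrt_div' _ (by positivity), Real.sqrt_sq (by positivity)]]
      refine Real.sqrt_le_sqrt ?_
      have h7 : 1 / (z : ℝ) ≤ κ := by
        rw [hκ, one_div]
        exact inv_anti₀ (by positivity) h3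
      have h8 : κ = 1 / (L ^ 4) ^ 2 := by rw [hκ]; ring
      calc C₂ * (1 / z + κ) ≤ C₂ * (κ + κ) := by
            refine mul_le_mul_of_nonneg_left ?_ hC₂.le
            linarith
        _ = 2 * C₂ / (L ^ 4) ^ 2 := by rw [h8]; ring
    calc _ ≤ (L / c) ^ 2 * (Real.sqrt (2 * C₂) / L ^ 4) :=
          mul_le_mul h5 h6 (Real.sqrt_nonneg _) (by positivity)
      _ = Real.sqrt (2 * C₂) / (c ^ 2 * L ^ 2) := by
          field_simp
      _ ≤ ε := h4

theorem smooth_param : type_of% @smooth_param_pr := @smooth_param_pr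

end Pool.Agent.KSL
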