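import Pool.Agent.Lib_helper41.KSL.DefsN
import Pool.Agent.Lib_helper68.LEV.EQS
import Pool.Agent.Lib_helper68.LEV.HPO
import Pool.Agent.Lib_helper68.LEV.MEX
import Pool.Agent.Lib_helper41.LVBF.STO

/-! Block HAF (KSN): fourth moments in the Sato-Tate model. -/

set_option autoImplicit false

namespace Pool.Agent.KSL

open Pool.Agent.LVB Pool.Agent.LEV Complex MeasureTheory Filter Topology UpperHalfPlane ModularGroup
  ProbabilityTheory
open scoped MatrixGroups Modular ENNReal ModularForm ComplexConjugate ContDiff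

theorem HAF_sq (x : ℝ) (k : ℕ) : Uu x k ^ 2 = ∑ j ∈ Finset.range (k + 1), Uu x (2 * j) := by
  induction k with
  | zero => simp [Uu]
  | succ k ih =>
    rw [Finset.sum_range_succ, ← ih, sq, sq, EQS_uu]
    congr 2
    ring

theorem HAF_um_sq {a : ℕ} (ha : a ≠ 0) (x : ℕ → ℝ) :
    Um a x ^ 2 = ∑ d ∈ a.divisors, Um (d ^ 2) x := by
  induction a using Nat.recOnPosPrimePosCoprime with
  | prime_pow p k hp hk =>
    rw [Nat.sum_divisors_prime_pow hp, HPO_um_pow hp, HAF_sq]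
    refine Finset.sum_congr rfl fun j _ => ?_
    rw [← pow_mul, HPO_um_pow hp, mul_comm]
  | zero => exact absurd rfl ha
  | one => simp [HPO_um_one]
  | coprime a b ha' hb' hab iha ihb =>
    have ha0 : a ≠ 0 := by omega
    have hb0 : b ≠ 0 := by omega
    rw [HPO_um_mul hab, mul_pow, iha ha0, ihb hb0, Finset.sum_mul_sum, Nat.divisors_mul,
      Finset.mul_def, Finset.sum_image, Finset.sum_product]
    · refine Finset.sum_congr rfl fun d hd => Finset.sum_congr rfl fun e he => ?_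
      have h1 : d ∣ a := Nat.dvd_of_mem_divisors hd
      have h2 : e ∣ b := Nat.dvd_of_mem_divisors he
      have h3 : Nat.Coprime (d ^ 2) (e ^ 2) :=
        Nat.Coprime.pow 2 2 (Nat.Coprime.coprime_dvd_left h1 (Nat.Coprime.coprime_dvd_right h2 hab))
      show Um (d ^ 2) x * Um (e ^ 2) x = Um ((d * e) ^ 2) x
      rw [mul_pow, HPO_um_mul h3]
    · intro u hu v hv huv
      exact hab.mul_injOn_divisors hu hv huv

theorem um_four_pr {I : Finset ℕ} (hI : ∀ p ∈ I, p.Prime) {P : Measure (ℕ → ℝ)} (hP : IsST I P)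
    {a : ℕ} (ha : a ≠ 0) (haI : a.primeFactors ⊆ I) :
    ∫ x, Um a x ^ 2 ∂P = 1 ∧ ∫ x, Um a x ^ 4 ∂P = a.divisors.card := by
  classical
  constructor
  · have h := st_sq hI hP (X := a) (c := fun m => if m = a then 1 else 0) (by
      intro m hm
      have : m = a := by
        by_contra h
        exact hm (if_neg h)
      subst this
      exact ⟨Nat.one_le_iff_ne_zero.2 ha, le_refl _, haI⟩)
    have h1 : ∀ x : ℕ → ℝ, (∑ m ∈ Finset.Icc 1 a, (if m = a then (1 : ℝ) else 0) * Um m x) =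
        Um a x := by
      intro x
      rw [Finset.sum_eq_single a]
      · simp
      · intro b _ hb
        simp [hb]
      · intro h
        exact absurd (Finset.mem_Icc.2 ⟨Nat.one_le_iff_ne_zero.2 ha, le_refl _⟩) h
    simp_rw [h1] at h
    rw [h, Finset.sum_eq_single a]
    · simp
    · intro b _ hb
      simp [hb]
    · intro h
      exact absurd (Finset.mem_Icc.2 ⟨Nat.one_le_iff_ne_zero.2 ha, le_refl _⟩) h
  · set S : Finset ℕ := a.divisors.image (fun d => d ^ 2) with hS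
    have hinj : Function.Injective (fun d : ℕ => d ^ 2) := fun u v huv =>
      Nat.pow_left_injective (n := 2) (by norm_num) huv
    have hSX : S ⊆ Finset.Icc 1 (a ^ 2) := by
      intro m hm
      obtain ⟨d, hd, rfl⟩ := Finset.mem_image.1 hm
      have h1 : d ∣ a := Nat.dvd_of_mem_divisors hd
      have h2 : 0 < d := Nat.pos_of_mem_divisors hd
      have h3 : d ≤ a := Nat.le_of_dvd (Nat.pos_of_ne_zero ha) h1
      exact Finset.mem_Icc.2 ⟨Nat.one_le_pow _ _ h2, Nat.pow_le_pow_left h3 2⟩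
    have h := st_sq hI hP (X := a ^ 2) (c := fun m => if m ∈ S then 1 else 0) (by
      intro m hm
      have hmS : m ∈ S := by
        by_contra h
        exact hm (if_neg h)
      have h4 := Finset.mem_Icc.1 (hSX hmS)
      refine ⟨h4.1, h4.2, ?_⟩
      obtain ⟨d, hd, rfl⟩ := Finset.mem_image.1 hmS
      have h1 : d ∣ a := Nat.dvd_of_mem_divisors hd
      show (d ^ 2).primeFactors ⊆ I
      rw [Nat.primeFactors_pow _ (by norm_num)]
      exact (Nat.primeFactors_mono h1 ha).trans haI)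
    have h1 : ∀ x : ℕ → ℝ, (∑ m ∈ Finset.Icc 1 (a ^ 2), (if m ∈ S then (1 : ℝ) else 0) * Um m x) =
        Um a x ^ 2 := by
      intro x
      rw [HAF_um_sq ha, ← Finset.sum_image (f := fun m => Um m x) (g := fun d : ℕ => d ^ 2)
        (fun u _ v _ huv => hinj huv), ← hS]
      simp_rw [ite_mul, one_mul, zero_mul]
      rw [← Finset.sum_filter]
      congr 1
      rw [Finset.filter_mem_eq_inter, Finset.inter_eq_right.2 hSX]
    simp_rw [h1] at h
    have h2 : ∀ x : ℕ → ℝ, Um a x ^ 4 = (Um a x ^ 2) ^ 2 := fun x => by ring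
    simp_rw [h2]
    rw [h]
    have h3 : ∀ m : ℕ, (if m ∈ S then (1 : ℝ) else 0) ^ 2 = if m ∈ S then (1 : ℝ) else 0 := by
      intro m
      split_ifs <;> norm_num
    simp_rw [h3]
    rw [← Finset.sum_filter, Finset.filter_mem_eq_inter, Finset.inter_eq_right.2 hSX,
      Finset.sum_const, nsmul_eq_mul, mul_one, hS, Finset.card_image_of_injective _ hinj]

/-- the local sum of squares -/
theorem HAF_local {t x : ℝ} (ht : 0 < t) (h1 : t < 1) (hx : |x| ≤ 2) :
    HasSum (fun n : ℕ => Uu x n ^ 2 * t ^ n) (MEX_H t x * (1 - t)⁻¹) := by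
  have hs := MEX_series ht h1 hx
  have hn : Summable (fun j : ℕ => ‖t ^ j * Uu x (2 * j)‖) := by
    refine Summable.of_nonneg_of_le (fun j => norm_nonneg _) (fun j => ?_) (MEX_sumn ht h1)
    rw [norm_mul, Real.norm_eq_abs, Real.norm_eq_abs, abs_of_pos (pow_pos ht j)]
    refine mul_le_mul_of_nonneg_left ?_ (pow_pos ht j).le
    have := MEX_le hx (2 * j)
    push_cast at this
    exact this
  have hg := hasSum_geometric_of_lt_one ht.le h1
  have hgn : Summable (fun j : ℕ => ‖t ^ j‖) := by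
    refine hg.summable.congr fun j => ?_
    rw [Real.norm_eq_abs, abs_of_pos (pow_pos ht j)]
  have h2 := hasSum_sum_range_mul_of_summable_norm hn hgn
  rw [hs.tsum_eq, hg.tsum_eq] at h2
  have e : (fun n : ℕ => Uu x n ^ 2 * t ^ n) =
      fun n => ∑ k ∈ Finset.range (n + 1), t ^ k * Uu x (2 * k) * t ^ (n - k) := by
    funext n
    rw [HAF_sq, Finset.sum_mul]
    refine Finset.sum_congr rfl fun j hj => ?_
    have hj' : j ≤ n := Nat.lt_succ_iff.1 (Finset.mem_range.1 hj)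
    have : t ^ n = t ^ j * t ^ (n - j) := by rw [← pow_add, Nat.add_sub_cancel' hj']
    rw [this]
    ring
  rw [e]
  exact h2

theorem HAF_VV (z : ℕ) : VV z = ∏ p ∈ (z + 1).primesBelow, (1 - 1 / (p : ℝ)) := by
  unfold VV
  refine Finset.prod_congr ?_ fun _ _ => rfl
  ext p
  rw [Nat.mem_primesBelow, Finset.mem_filter, Finset.mem_Icc]
  constructor
  · rintro ⟨⟨_, h2⟩, h3⟩
    exact ⟨by omega, h3⟩
  · rintro ⟨h2, h3⟩
    exact ⟨⟨h3.one_lt.le, by omega⟩, h3⟩

theorem HAF_VV_nonneg (z : ℕ) : 0 ≤ VV z := by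
  rw [HAF_VV]
  refine Finset.prod_nonneg fun p hp => ?_
  have h1 : (1 : ℝ) ≤ p := by
    exact_mod_cast (Nat.prime_of_mem_primesBelow hp).one_lt.le
  rw [sub_nonneg, div_le_one (by linarith)]
  exact h1

/-- the density is at most the Euler product -/
theorem HAF_le {z : ℕ} {A : Finset ℕ} (hA : ∀ a ∈ A, smooth z a) {I : Finset ℕ}
    (hzI : ∀ p : ℕ, p.Prime → p ≤ z → p ∈ I) {x : ℕ → ℝ} (hx : ∀ p ∈ I, |x p| ≤ 2) :
    HA z A x ≤ ∏ p ∈ (z + 1).primesBelow, MEX_H (1 / (p : ℝ)) (x p) := by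
  classical
  set y : ℕ → ℝ := fun p => if p ∈ I then x p else 0 with hy
  have hy2 : ∀ p, |y p| ≤ 2 := by
    intro p
    simp only [hy]
    split_ifs with h
    · exact hx p h
    · norm_num
  set f : ℕ → ℝ := fun a => if a = 0 then 0 else Um a y ^ 2 / a with hf
  have hf0 : ∀ a, 0 ≤ f a := by
    intro a
    simp only [hf]
    split_ifs
    · exact le_refl _
    · positivity
  have hf1 : f 1 = 1 := by
    simp [hf, HPO_um_one]
  have hmul : ∀ {m n : ℕ}, Nat.Coprime m n → f (m * n) = f m * f n := by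
    intro m n h
    simp only [hf]
    by_cases hm : m = 0
    · simp [hm]
    by_cases hn : n = 0
    · simp [hn]
    rw [if_neg hm, if_neg hn, if_neg (mul_ne_zero hm hn), HPO_um_mul h]
    have hm' : (m : ℝ) ≠ 0 := Nat.cast_ne_zero.2 hm
    have hn' : (n : ℝ) ≠ 0 := Nat.cast_ne_zero.2 hn
    push_cast
    field_simp
  have hpp : ∀ {p : ℕ}, p.Prime → ∀ n : ℕ, f (p ^ n) = Uu (y p) n ^ 2 * (1 / (p : ℝ)) ^ n := by
    intro p hp n
    simp only [hf]
    rw [if_neg (pow_ne_zero n hp.ne_zero), HPO_um_pow hp]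
    push_cast
    rw [one_div, inv_pow]
    rfl
  have ht : ∀ {p : ℕ}, p.Prime → 0 < 1 / (p : ℝ) ∧ 1 / (p : ℝ) < 1 := by
    intro p hp
    have h1 : (1 : ℝ) < p := by exact_mod_cast hp.one_lt
    refine ⟨by positivity, ?_⟩
    rw [div_lt_one (by linarith)]
    exact h1
  have hloc : ∀ {p : ℕ}, p.Prime → HasSum (fun n : ℕ => f (p ^ n))
      (MEX_H (1 / (p : ℝ)) (y p) * (1 - 1 / (p : ℝ))⁻¹) := by
    intro p hp
    have h := HAF_local (ht hp).1 (ht hp).2 (hy2 p)
    simpa only [hpp hp] using h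
  obtain ⟨hs1, hs2⟩ := EulerProduct.summable_and_hasSum_smoothNumbers_prod_primesBelow_tsum
    (f := f) hf1 hmul (fun {p} hp => by
      refine (hloc hp).summable.congr fun n => ?_
      rw [Real.norm_eq_abs, abs_of_nonneg (hf0 _)]) (z + 1)
  have hmem : ∀ a ∈ A, a ∈ (z + 1).smoothNumbers := by
    intro a ha
    refine ⟨(hA a ha).1, fun p hp => ?_⟩
    have h1 := Nat.prime_of_mem_primeFactorsList hp
    have h2 := Nat.dvd_of_mem_primeFactorsList hp
    exact Nat.lt_succ_of_le ((hA a ha).2 p h1 h2)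
  have hUm : ∀ a ∈ A, Um a x = Um a y := by
    intro a ha
    unfold Um
    refine Finset.prod_congr rfl fun p hp => ?_
    have h1 := Nat.prime_of_mem_primeFactors hp
    have h2 := Nat.dvd_of_mem_primeFactors hp
    have h3 : p ∈ I := hzI p h1 ((hA a ha).2 p h1 h2)
    simp only [hy, if_pos h3]
  have hfin : ∑ a ∈ A, f a ≤ ∏ p ∈ (z + 1).primesBelow, ∑' n : ℕ, f (p ^ n) := by
    have h := sum_le_hasSum (Finset.univ.image (fun a : A => (⟨a.1, hmem a.1 a.2⟩ : (z + 1).smoothNumbers)))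
      (fun i _ => hf0 i.1) hs2
    refine le_trans (le_of_eq ?_) h
    rw [Finset.sum_image]
    · rw [← Finset.sum_coe_sort A f]
    · intro u _ v _ huv
      have := congrArg (fun w : (z + 1).smoothNumbers => w.1) huv
      exact Subtype.ext this
  have hHA : HA z A x = VV z * ∑ a ∈ A, f a := by
    unfold HA
    rw [Finset.mul_sum]
    refine Finset.sum_congr rfl fun a ha => ?_
    rw [hUm a ha]
    simp only [hf, if_neg (hA a ha).1]
    ring
  rw [hHA]
  refine (mul_le_mul_of_nonneg_left hfin (HAF_VV_nonneg z)).trans (le_of_eq ?_)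
  rw [HAF_VV, ← Finset.prod_mul_distrib]
  refine Finset.prod_congr rfl fun p hp => ?_
  have hpp' := Nat.prime_of_mem_primesBelow hp
  have hpz : p ≤ z := Nat.lt_succ_iff.1 (Nat.lt_of_mem_primesBelow hp)
  have hpI : p ∈ I := hzI p hpp' hpz
  rw [(hloc hpp').tsum_eq]
  have hyp : y p = x p := by simp only [hy, if_pos hpI]
  rw [hyp]
  have h1 : (1 - 1 / (p : ℝ)) ≠ 0 := (sub_pos.2 (ht hpp').2).ne'
  field_simp

theorem HAF_H_le {t x : ℝ} (ht : 0 < t) (h2 : t ≤ 1 / 2) (hx : |x| ≤ 2) :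
    0 ≤ MEX_H t x ∧ MEX_H t x ^ 4 ≤ 1 + 4 * t * (x ^ 2 - 1) + 17000 * t ^ 2 := by
  have h1 : t < 1 := by linarith
  have hD := MEX_den h1 ht hx
  have hx2 : x ^ 2 ≤ 4 := by
    have := abs_le.1 hx
    nlinarith
  have hx0 : 0 ≤ x ^ 2 := sq_nonneg x
  have hH0 : 0 ≤ MEX_H t x := by
    unfold MEX_H
    exact div_nonneg (by linarith) hD.le
  refine ⟨hH0, ?_⟩
  obtain ⟨u, hu⟩ : ∃ u, u = x ^ 2 - 1 := ⟨_, rfl⟩
  have hu1 : -1 ≤ u := by linarith
  have hu3 : u ≤ 3 := by linarith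
  have hxu : x ^ 2 = u + 1 := by linarith
  have hD4 : 1 / 4 ≤ (1 + t) ^ 2 - x ^ 2 * t := by
    nlinarith [mul_le_mul_of_nonneg_right hx2 ht.le, sq_nonneg (1 - 2 * t)]
  have hle : MEX_H t x ≤ 1 + (t * u + 22 * t ^ 2) := by
    unfold MEX_H
    rw [div_le_iff₀ hD]
    rw [hxu] at hD4 ⊢
    nlinarith [mul_nonneg (sq_nonneg t) (sub_nonneg.2 hD4), mul_nonneg (sq_nonneg t) (mul_nonneg (sub_nonneg.2 hu3) (by linarith : (0:ℝ) ≤ u + 1)), mul_nonneg (mul_nonneg (sq_nonneg t) ht.le) (sub_nonneg.2 hu3)]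
  obtain ⟨w, hw⟩ : ∃ w, w = t * u + 22 * t ^ 2 := ⟨_, rfl⟩
  rw [← hw] at hle
  have hpow : MEX_H t x ^ 4 ≤ (1 + w) ^ 4 := pow_le_pow_left₀ hH0 hle 4
  have hw1 : w = t * (u + 22 * t) := by rw [hw]; ring
  have hv1 : -1 ≤ u + 22 * t := by linarith
  have hv2 : u + 22 * t ≤ 14 := by linarith
  have hv3 : (u + 22 * t) ^ 2 ≤ 196 := by nlinarith
  have hw2 : w ^ 2 ≤ 196 * t ^ 2 := by
    rw [hw1, mul_pow]
    nlinarith [mul_nonneg (sq_nonneg t) (sub_nonneg.2 hv3)]
  have hw3 : w ≤ 7 := by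
    rw [hw1]
    nlinarith
  have hw4 : -1 ≤ w := by
    rw [hw1]
    nlinarith
  have e1 : (1 + w) ^ 4 = 1 + 4 * w + w ^ 2 * (6 + 4 * w + w ^ 2) := by ring
  have e2 : 6 + 4 * w + w ^ 2 ≤ 83 := by nlinarith
  have e3 : w ^ 2 * (6 + 4 * w + w ^ 2) ≤ w ^ 2 * 83 :=
    mul_le_mul_of_nonneg_left e2 (sq_nonneg w)
  have e4 : 4 * w = 4 * t * (x ^ 2 - 1) + 88 * t ^ 2 := by rw [hw, hxu]; ring
  nlinarith [hpow, e1, e3, e4, hw2, sq_nonneg t]

theorem HAF_H_meas (t : ℝ) : Measurable (fun x : ℝ => MEX_H t x) := by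
  unfold MEX_H
  fun_prop

theorem HAF_intf {I : Finset ℕ} {P : Measure (ℕ → ℝ)} (hP : IsST I P) {p : ℕ} (hp : p ∈ I)
    {φ : ℝ → ℝ} (hφ : Continuous φ) : Integrable (fun x : ℕ → ℝ => φ (x p)) P := by
  have := hP.prob
  obtain ⟨C, hC⟩ := (isCompact_Icc (a := (-2 : ℝ)) (b := 2)).exists_bound_of_continuousOn
    hφ.continuousOn
  refine Integrable.of_bound (hφ.measurable.comp (measurable_pi_apply p)).aestronglyMeasurable C ?_
  filter_upwards [hP.bdd] with x hx
  exact hC _ (abs_le.mp (hx p hp))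

theorem HAF_one {I : Finset ℕ} {P : Measure (ℕ → ℝ)} (hP : IsST I P) {p : ℕ} (hp : p ∈ I)
    (hpp : p.Prime) : ∫ x, MEX_H (1 / (p : ℝ)) (x p) ^ 4 ∂P ≤ 1 + 17000 * (1 / (p : ℝ)) ^ 2 := by
  have := hP.prob
  have hp2 : (2 : ℝ) ≤ p := by exact_mod_cast hpp.two_le
  have ht : 0 < 1 / (p : ℝ) := by positivity
  have ht2 : 1 / (p : ℝ) ≤ 1 / 2 := one_div_le_one_div_of_le (by norm_num) hp2
  have hm := hP.mom p hp 2
  rw [if_neg (by norm_num)] at hm
  have hu : ∀ x : ℕ → ℝ, Uu (x p) 2 = x p ^ 2 - 1 := by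
    intro x
    simp only [Uu]
    ring
  simp_rw [hu] at hm
  have hi : Integrable (fun x : ℕ → ℝ => x p ^ 2 - 1) P :=
    HAF_intf hP hp (φ := fun y => y ^ 2 - 1) (by fun_prop)
  have h1 : ∫ x, MEX_H (1 / (p : ℝ)) (x p) ^ 4 ∂P ≤
      ∫ x, (1 + 17000 * (1 / (p : ℝ)) ^ 2) + 4 * (1 / (p : ℝ)) * ((x p) ^ 2 - 1) ∂P := by
    refine integral_mono_of_nonneg ?_ ?_ ?_
    · filter_upwards [hP.bdd] with x hx
      exact pow_nonneg (HAF_H_le ht ht2 (hx p hp)).1 4
    · exact (integrable_const _).add (hi.const_mul _)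
    · filter_upwards [hP.bdd] with x hx
      have := (HAF_H_le ht ht2 (hx p hp)).2
      linarith
  refine h1.trans (le_of_eq ?_)
  rw [integral_add (integrable_const _) (hi.const_mul _), integral_const_mul, hm, mul_zero,
    add_zero, integral_const, probReal_univ, one_smul]

theorem ha_four_pr : ∃ C₄ : ℝ, ∀ (z : ℕ) (A : Finset ℕ), (∀ a ∈ A, smooth z a) →
    ∀ (I : Finset ℕ), (∀ p ∈ I, p.Prime) → (∀ p : ℕ, p.Prime → p ≤ z → p ∈ I) →
    ∀ P : Measure (ℕ → ℝ), IsST I P → ∫ x, HA z A x ^ 4 ∂P ≤ C₄ := by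
  classical
  refine ⟨Real.exp (17000 * ∑' n : ℕ, (1 / (n : ℝ)) ^ 2), ?_⟩
  intro z A hA I hI hzI P hP
  have := hP.prob
  have hs : Summable (fun n : ℕ => (1 / (n : ℝ)) ^ 2) := by
    refine (Real.summable_one_div_nat_pow.2 (by norm_num : 1 < 2)).congr fun n => ?_
    rw [one_div_pow]
  set F : (p : I) → ℝ → ℝ := fun p y => if (p : ℕ) ≤ z then MEX_H (1 / ((p : ℕ) : ℝ)) y ^ 4 else 1
    with hF
  have hFm : ∀ p : I, Measurable (F p) := by
    intro p
    simp only [hF]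
    split_ifs
    · exact (HAF_H_meas _).pow_const 4
    · exact measurable_const
  have hsub : (z + 1).primesBelow ⊆ I := by
    intro p hp
    exact hzI p (Nat.prime_of_mem_primesBelow hp)
      (Nat.lt_succ_iff.1 (Nat.lt_of_mem_primesBelow hp))
  have hprod : ∀ x : ℕ → ℝ, (∏ p ∈ (z + 1).primesBelow, MEX_H (1 / (p : ℝ)) (x p)) ^ 4 =
      ∏ p : I, F p (x p) := by
    intro x
    rw [← Finset.prod_pow]
    simp only [hF]
    rw [Finset.prod_coe_sort I (fun p => if p ≤ z then MEX_H (1 / (p : ℝ)) (x p) ^ 4 else 1),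
      ← Finset.prod_filter]
    refine Finset.prod_congr ?_ fun _ _ => rfl
    ext p
    rw [Nat.mem_primesBelow, Finset.mem_filter]
    constructor
    · rintro ⟨h1, h2⟩
      exact ⟨hzI p h2 (by omega), by omega⟩
    · rintro ⟨h1, h2⟩
      exact ⟨by omega, hI p h1⟩
  have ht : ∀ p ∈ I, 0 < 1 / (p : ℝ) ∧ 1 / (p : ℝ) ≤ 1 / 2 := by
    intro p hp
    have hp2 : (2 : ℝ) ≤ p := by exact_mod_cast (hI p hp).two_le
    exact ⟨by positivity, one_div_le_one_div_of_le (by norm_num) hp2⟩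
  have hFb : ∀ (p : I) (y : ℝ), |y| ≤ 2 → 0 ≤ F p y ∧ F p y ≤ 5000 := by
    intro p y hy
    simp only [hF]
    split_ifs
    · obtain ⟨h1, h2⟩ := ht p p.2
      obtain ⟨h3, h4⟩ := HAF_H_le h1 h2 hy
      refine ⟨pow_nonneg h3 4, h4.trans ?_⟩
      have hy2 : y ^ 2 ≤ 4 := by
        have := abs_le.1 hy
        nlinarith
      nlinarith [mul_nonneg h1.le (sub_nonneg.2 hy2), mul_nonneg h1.le (sub_nonneg.2 h2)]
    · norm_num
  have hint : Integrable (fun x : ℕ → ℝ => ∏ p : I, F p (x p)) P := by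
    refine Integrable.of_bound ?_ (∏ p : I, (5000 : ℝ)) ?_
    · exact (Finset.measurable_fun_prod _ fun p _ =>
        (hFm p).comp (measurable_pi_apply (p : ℕ))).aestronglyMeasurable
    · filter_upwards [hP.bdd] with x hx
      rw [norm_prod]
      refine Finset.prod_le_prod (fun p _ => norm_nonneg _) fun p _ => ?_
      rw [Real.norm_eq_abs, abs_of_nonneg (hFb p _ (hx p p.2)).1]
      exact (hFb p _ (hx p p.2)).2
  have hHA0 : ∀ x : ℕ → ℝ, 0 ≤ HA z A x := by
    intro x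
    unfold HA
    exact Finset.sum_nonneg fun a _ => mul_nonneg (div_nonneg (HAF_VV_nonneg z) (Nat.cast_nonneg _))
      (sq_nonneg _)
  have h1 : ∫ x, HA z A x ^ 4 ∂P ≤ ∫ x, ∏ p : I, F p (x p) ∂P := by
    refine integral_mono_of_nonneg ?_ hint ?_
    · exact Filter.Eventually.of_forall fun x => pow_nonneg (hHA0 x) 4
    · filter_upwards [hP.bdd] with x hx
      show HA z A x ^ 4 ≤ ∏ p : I, F p (x p)
      rw [← hprod]
      exact pow_le_pow_left₀ (hHA0 x) (HAF_le hA hzI hx) 4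
  refine h1.trans ?_
  rw [hP.ind.integral_fun_prod_comp (f := F)
    (fun p => (measurable_pi_apply (p : ℕ)).aemeasurable)
    (fun p => (hFm p).aestronglyMeasurable)]
  have h2 : ∏ p : I, ∫ x, F p (x p) ∂P ≤ ∏ p : I, Real.exp (17000 * (1 / ((p : ℕ) : ℝ)) ^ 2) := by
    refine Finset.prod_le_prod (fun p _ => ?_) fun p _ => ?_
    · refine integral_nonneg_of_ae ?_
      filter_upwards [hP.bdd] with x hx
      exact (hFb p _ (hx p p.2)).1
    · have h3 : ∫ x, F p (x p) ∂P ≤ 1 + 17000 * (1 / ((p : ℕ) : ℝ)) ^ 2 := by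
        by_cases hpz : (p : ℕ) ≤ z
        · simp only [hF, if_pos hpz]
          exact HAF_one hP p.2 (hI p p.2)
        · simp only [hF, if_neg hpz]
          rw [integral_const, probReal_univ, one_smul]
          have : 0 ≤ (1 / ((p : ℕ) : ℝ)) ^ 2 := sq_nonneg _
          linarith
      refine h3.trans ?_
      have := Real.add_one_le_exp (17000 * (1 / ((p : ℕ) : ℝ)) ^ 2)
      linarith
  refine h2.trans ?_
  rw [← Real.exp_sum]
  refine Real.exp_le_exp.2 ?_
  rw [← Finset.mul_sum, Finset.sum_coe_sort I (fun p => (1 / (p : ℝ)) ^ 2)]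
  exact mul_le_mul_of_nonneg_left (hs.sum_le_tsum I (fun n _ => sq_nonneg _)) (by norm_num)

theorem um_four : type_of% @um_four_pr := @um_four_pr

theorem ha_four : type_of% @ha_four_pr := @ha_four_pr

end Pool.Agent.KSL
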