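import Pool.Agent.Lib_helper41.KSL.DefsN
import Pool.Agent.Lib_helper68.LEV.CUS
import Pool.Agent.Lib_helper41.LVBF.LSG

/-! block BME -/

namespace Pool.Agent.KSL

open Pool.Agent.LVB Pool.Agent.LEV Complex MeasureTheory Filter Topology UpperHalfPlane ModularGroup
  ProbabilityTheory
open scoped MatrixGroups Modular ENNReal ModularForm ComplexConjugate ContDiff

/-- the constant coefficients -/
noncomputable def BME_c (m : ℕ) : ℝ := if m = 1 then 1 else 0

theorem BME_la_one {N : ℕ} [Fact N.Prime] {f : S2 N} (hf : IsNew f) : la f 1 = 1 := by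
  simp [la, hf.one]

theorem BME_la_zero {N : ℕ} [Fact N.Prime] (f : S2 N) : la f 0 = 0 := by
  simp [la]

theorem BME_tau {N : ℕ} [Fact N.Prime] {f : S2 N} (hf : IsNew f) : tau f 1 BME_c = 1 := by
  simp [tau, BME_c, BME_la_one hf]

theorem BME_nr {N : ℕ} [Fact N.Prime] {f : S2 N} (hf : IsNew f) : 0 < nr f :=
  nr_pos (new_ne_zero hf)

theorem BME_om {N : ℕ} [Fact N.Prime] {f : S2 N} (hf : IsNew f) : 0 < om f := by
  have := BME_nr hf
  rw [om]
  positivity

/-- the cuspidal part -/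
theorem BME_cusp : ∃ C : ℝ, 0 < C ∧ ∀ (N : ℕ) [Fact N.Prime] {ι : Type}
    [Fintype ι] (f : ι → S2 N), Function.Injective f → (∀ i, IsNew (f i)) →
      ∑ i, om (f i) * cuspm (f i) ≤ C := by
  obtain ⟨C, hC, h⟩ := cusp_part
  refine ⟨C * |QP 1 BME_c| + 1, by positivity, ?_⟩
  intro N _ ι _ f hi hn
  have hNp : N.Prime := Fact.out
  have hN0 : (0 : ℝ) < N := by exact_mod_cast hNp.pos
  have hN1 : (1 : ℝ) ≤ N := by exact_mod_cast hNp.one_le
  have h1 := h N f hi hn (X := 1) hNp.one_lt BME_c (fun m hm => by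
    rw [BME_c, if_neg (by omega)]) N (by simpa using hN1) hN1 le_rfl
  set E : ι → ℝ≥0∞ := fun i => ∑ q : PX N, ∫⁻ z in 𝒟ᵒ ∩ {z : ℍ | (N : ℝ) < z.im},
    ‖fam (f i) q z‖ₑ ^ 2 * ENNReal.ofReal (z.im ^ 2) with hE
  have h2 : ∑ i, ENNReal.ofReal (1 / nr (f i)) * E i ≤ ENNReal.ofReal (C * |QP 1 BME_c|) := by
    refine le_trans (le_of_eq (Finset.sum_congr rfl fun i _ => ?_)) (h1.trans
      (ENNReal.ofReal_le_ofReal ?_))
    · rw [BME_tau (hn i), one_pow]
    · rw [div_self hN0.ne']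
      have := mul_le_mul_of_nonneg_left (le_abs_self (QP 1 BME_c)) hC.le
      simpa using this
  have h3 : (∑ i, ENNReal.ofReal (1 / nr (f i)) * E i).toReal ≤ C * |QP 1 BME_c| := by
    refine (ENNReal.toReal_mono ENNReal.ofReal_ne_top h2).trans (le_of_eq ?_)
    exact ENNReal.toReal_ofReal (by positivity)
  have hfin : ∀ i ∈ (Finset.univ : Finset ι), ENNReal.ofReal (1 / nr (f i)) * E i ≠ ⊤ := by
    intro i hi'
    have := (Finset.single_le_sum (f := fun i => ENNReal.ofReal (1 / nr (f i)) * E i)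
      (fun _ _ => bot_le) hi').trans h2
    exact ne_top_of_le_ne_top ENNReal.ofReal_ne_top this
  rw [ENNReal.toReal_sum hfin] at h3
  have h4 : ∀ i, om (f i) * cuspm (f i) ≤ (ENNReal.ofReal (1 / nr (f i)) * E i).toReal := by
    intro i
    have hnr := BME_nr (hn i)
    rw [ENNReal.toReal_mul, ENNReal.toReal_ofReal (by positivity), om, cuspm]
    refine mul_le_mul_of_nonneg_right ?_ ENNReal.toReal_nonneg
    refine one_div_le_one_div_of_le hnr ?_
    have hpi : 1 ≤ 4 * Real.pi := by nlinarith [Real.pi_gt_three]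
    nlinarith
  calc ∑ i, om (f i) * cuspm (f i) ≤ ∑ i, (ENNReal.ofReal (1 / nr (f i)) * E i).toReal :=
        Finset.sum_le_sum fun i _ => h4 i
    _ ≤ C * |QP 1 BME_c| := h3
    _ ≤ _ := by linarith

/-- summability of the strip -/
theorem BME_summ {N : ℕ} [Fact N.Prime] {f : S2 N} (hf : IsNew f) {R : ℝ} (hR : 0 < R) :
    Summable (fun n : ℕ => la f n ^ 2 * Real.exp (-4 * Real.pi * n / R)) := by
  have h := ((strip_sum f (one_div_pos.2 hR)).1).mul_left (4 * Real.pi)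
  refine h.congr fun n => ?_
  have hpi := Real.pi_pos
  have h1 : ‖co f n‖ ^ 2 = (co f n).re ^ 2 := by
    rw [← Complex.normSq_eq_norm_sq, Complex.normSq_apply, new_real hf n]
    ring
  rw [h1, la, div_pow, Real.sq_sqrt (by positivity)]
  rcases Nat.eq_zero_or_pos n with h0 | h0
  · subst h0
    simp
  · have hn : (0 : ℝ) < n := by exact_mod_cast h0
    have e : -4 * Real.pi * n * (1 / R) = -4 * Real.pi * n / R := by ring
    rw [e]
    field_simp

theorem BME_strip : ∃ C : ℝ, 0 < C ∧ ∀ c₀ : ℝ, 0 < c₀ → c₀ ≤ 1 → ∀ (N : ℕ) [Fact N.Prime]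
    {ι : Type} [Fintype ι] (f : ι → S2 N), Function.Injective f → (∀ i, IsNew (f i)) →
      ∑ i, om (f i) * (sm (f i) (c₀ ^ 2 * N) / (4 * Real.pi)) ≤ C * (c₀ ^ 2 * N) := by
  obtain ⟨C, hC, h⟩ := ls_one
  refine ⟨C, hC, ?_⟩
  intro c₀ h0 h1 N _ ι _ f hi hn
  have hNp : N.Prime := Fact.out
  have hN0 : (0 : ℝ) < N := by exact_mod_cast hNp.pos
  have hN1 : (1 : ℝ) ≤ N := by exact_mod_cast hNp.one_le
  have hpi := Real.pi_gt_three
  set R : ℝ := c₀ ^ 2 * N with hR
  have hR0 : 0 < R := by positivity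
  have hRN : R ≤ N := by
    rw [hR]
    have : c₀ ^ 2 ≤ 1 := pow_le_one₀ h0.le h1
    nlinarith
  have hsum : ∀ i, Summable (fun n : ℕ => la (f i) n ^ 2 * Real.exp (-4 * Real.pi * n / R)) :=
    fun i => BME_summ (hn i) hR0
  have e1 : ∑ i, om (f i) * (sm (f i) R / (4 * Real.pi)) =
      (∑' n : ℕ, (∑ i, om (f i) * la (f i) n ^ 2) * Real.exp (-4 * Real.pi * n / R)) /
        (4 * Real.pi) := by
    have e2 : ∀ i, om (f i) * (sm (f i) R / (4 * Real.pi)) =
        (∑' n : ℕ, om (f i) * (la (f i) n ^ 2 * Real.exp (-4 * Real.pi * n / R))) /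
          (4 * Real.pi) := by
      intro i
      rw [tsum_mul_left, sm]
      ring
    rw [Finset.sum_congr rfl fun i _ => e2 i, ← Finset.sum_div,
      ← Summable.tsum_finsetSum fun i _ => (hsum i).mul_left _]
    congr 1
    refine tsum_congr fun n => ?_
    rw [Finset.sum_mul]
    refine Finset.sum_congr rfl fun i _ => ?_
    ring
  rw [e1]
  have ht : 0 < 4 * Real.pi / R := by positivity
  obtain ⟨g1, g2⟩ := CUS_geo ht (by positivity : (0 : ℝ) ≤ 1 / N)
  have hterm : ∀ n : ℕ, (∑ i, om (f i) * la (f i) n ^ 2) * Real.exp (-4 * Real.pi * n / R) ≤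
      C * (if n = 0 then 0 else (1 + 1 / (N : ℝ) * n) * Real.exp (-(4 * Real.pi / R) * n)) := by
    intro n
    have hex : Real.exp (-4 * Real.pi * n / R) = Real.exp (-(4 * Real.pi / R) * n) := by
      congr 1
      ring
    split_ifs with hz
    · subst hz
      simp [BME_la_zero]
    · rw [hex]
      have := h N f hi hn n (Nat.pos_of_ne_zero hz)
      calc _ ≤ (C * (1 + n / N)) * Real.exp (-(4 * Real.pi / R) * n) :=
            mul_le_mul_of_nonneg_right this (Real.exp_pos _).le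
        _ = _ := by ring
  have hsumL : Summable (fun n : ℕ => (∑ i, om (f i) * la (f i) n ^ 2) *
      Real.exp (-4 * Real.pi * n / R)) := by
    refine Summable.of_nonneg_of_le (fun n => ?_) hterm (g1.mul_left _)
    refine mul_nonneg (Finset.sum_nonneg fun i _ => mul_nonneg (BME_om (hn i)).le (sq_nonneg _))
      (Real.exp_pos _).le
  have h5 := Summable.tsum_le_tsum hterm hsumL (g1.mul_left _)
  rw [tsum_mul_left] at h5
  have h6 : 1 / (4 * Real.pi / R) + 1 / (N : ℝ) / (4 * Real.pi / R) ^ 2 ≤ R := by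
    have e3 : 1 / (4 * Real.pi / R) = R * (1 / (4 * Real.pi)) := by field_simp
    have e4 : 1 / (N : ℝ) / (4 * Real.pi / R) ^ 2 = R * (R / N) * (1 / (16 * Real.pi ^ 2)) := by
      field_simp
      ring
    have e5 : R / N ≤ 1 := (div_le_one hN0).2 hRN
    have e6 : 1 / (4 * Real.pi) ≤ 1 / 2 := one_div_le_one_div_of_le (by norm_num) (by linarith)
    have e7 : 1 / (16 * Real.pi ^ 2) ≤ 1 / 2 :=
      one_div_le_one_div_of_le (by norm_num) (by nlinarith)
    have e8 : R * (R / N) ≤ R := by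
      have := mul_le_mul_of_nonneg_left e5 hR0.le
      linarith
    have e9 : 0 ≤ R * (R / N) := by positivity
    rw [e3, e4]
    have e10 := mul_le_mul_of_nonneg_left e6 hR0.le
    have e11 := mul_le_mul e8 e7 (by positivity) hR0.le
    linarith
  rw [div_le_iff₀ (by positivity)]
  have h7 := h5.trans (mul_le_mul_of_nonneg_left (g2.trans h6) hC.le)
  refine h7.trans ?_
  have : 0 < C * R := by positivity
  nlinarith

/-- the mean of the bad part -/
theorem bad_mean_pr : ∃ C : ℝ, ∀ c₀ : ℝ, 0 < c₀ → c₀ ≤ 1 → ∀ (N : ℕ) [Fact N.Prime] {ι : Type}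
    [Fintype ι] (f : ι → S2 N), Function.Injective f → (∀ i, IsNew (f i)) →
      ∑ i, om (f i) * (sm (f i) (c₀ ^ 2 * N) / (4 * Real.pi) + cuspm (f i)) ≤
        C * (c₀ ^ 2 * N + 1) := by
  obtain ⟨C₁, hC₁, h₁⟩ := BME_strip
  obtain ⟨C₂, hC₂, h₂⟩ := BME_cusp
  refine ⟨C₁ + C₂, ?_⟩
  intro c₀ h0 h1 N _ ι _ f hi hn
  have a := h₁ c₀ h0 h1 N f hi hn
  have b := h₂ N f hi hn
  have hN0 : (0 : ℝ) ≤ c₀ ^ 2 * N := by positivity
  simp_rw [mul_add]
  rw [Finset.sum_add_distrib]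
  nlinarith [mul_nonneg hC₂.le hN0]

theorem bad_mean : type_of% @bad_mean_pr := @bad_mean_pr

end Pool.Agent.KSL
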