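import Pool.Agent.Lib_helper41.KSL.DefsN

/-!
# Block LPC: lattice points in a large disc.
-/

namespace Pool.Agent.KSL

open Pool.Agent.LVB Pool.Agent.LEV Complex MeasureTheory Filter Topology UpperHalfPlane ModularGroup
  ProbabilityTheory
open scoped MatrixGroups Modular ENNReal ModularForm ComplexConjugate ContDiff

/-- a disc in the coordinates `(s, t)` of `s z + t` -/
def LPC_E (z : ℂ) (ρ : ℝ) : Set (Fin 2 → ℝ) := {v | ‖(v 0 : ℂ) * z + (v 1 : ℂ)‖ ≤ ρ}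

theorem LPC_disc {ρ : ℝ} (hρ : 0 ≤ ρ) :
    volume {w : Fin 2 → ℝ | w 0 ^ 2 + w 1 ^ 2 ≤ ρ ^ 2} = ENNReal.ofReal (Real.pi * ρ ^ 2) := by
  have h1 := Complex.volume_preserving_equiv_pi.measure_preimage_equiv
    {w : Fin 2 → ℝ | w 0 ^ 2 + w 1 ^ 2 ≤ ρ ^ 2}
  rw [← h1]
  have h2 : Complex.measurableEquivPi ⁻¹' {w : Fin 2 → ℝ | w 0 ^ 2 + w 1 ^ 2 ≤ ρ ^ 2} =
      Metric.closedBall (0 : ℂ) ρ := by
    ext x
    simp only [Set.mem_preimage, Set.mem_ofPred_eq, Complex.measurableEquivPi_apply,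
      Matrix.cons_val_zero, Matrix.cons_val_one, mem_closedBall_zero_iff]
    rw [← Real.sqrt_le_left hρ, Complex.norm_def, Complex.normSq_apply]
    simp [sq]
  rw [h2, Complex.volume_closedBall, mul_comm, ENNReal.ofReal_mul Real.pi_pos.le,
    ENNReal.ofReal_pow hρ]
  congr 1
  rw [← NNReal.coe_real_pi, ENNReal.ofReal_coe_nnreal]

theorem LPC_vol {z : ℂ} (hz : 0 < z.im) {ρ : ℝ} (hρ : 0 ≤ ρ) :
    volume (LPC_E z ρ) = ENNReal.ofReal (Real.pi * ρ ^ 2 / z.im) := by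
  set A : Matrix (Fin 2) (Fin 2) ℝ := !![z.re, 1; z.im, 0] with hA
  have hdet : LinearMap.det (Matrix.toLin' A) = -z.im := by
    rw [LinearMap.det_toLin', hA, Matrix.det_fin_two_of]
    ring
  have hpre : LPC_E z ρ = (Matrix.toLin' A) ⁻¹' {w : Fin 2 → ℝ | w 0 ^ 2 + w 1 ^ 2 ≤ ρ ^ 2} := by
    ext v
    simp only [LPC_E, Set.mem_ofPred_eq, Set.mem_preimage, hA, Matrix.toLin'_apply,
      Matrix.mulVec, dotProduct, Fin.sum_univ_two, Matrix.of_apply, Matrix.cons_val_zero,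
      Matrix.cons_val_one, Matrix.cons_val', Matrix.cons_val_fin_one]
    rw [Complex.norm_def, Complex.normSq_apply, Real.sqrt_le_left hρ]
    simp
    constructor <;> intro h <;> nlinarith
  rw [hpre, Measure.addHaar_preimage_linearMap volume (by rw [hdet]; simpa using hz.ne'), hdet,
    LPC_disc hρ, ← ENNReal.ofReal_mul (by positivity), abs_inv, abs_neg, abs_of_pos hz]
  congr 1
  field_simp

theorem LPC_sq (p : ℤ × ℤ) :
    MeasurableSet {v : Fin 2 → ℝ | ⌊v 0⌋ = p.1 ∧ ⌊v 1⌋ = p.2} ∧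
    volume {v : Fin 2 → ℝ | ⌊v 0⌋ = p.1 ∧ ⌊v 1⌋ = p.2} = 1 := by
  have h1 : {v : Fin 2 → ℝ | ⌊v 0⌋ = p.1 ∧ ⌊v 1⌋ = p.2} =
      Set.pi Set.univ (fun i => Set.Ico ((![(p.1 : ℝ), (p.2 : ℝ)] : Fin 2 → ℝ) i)
        ((![(p.1 : ℝ) + 1, (p.2 : ℝ) + 1] : Fin 2 → ℝ) i)) := by
    ext v
    simp only [Set.mem_ofPred_eq, Int.floor_eq_iff, Set.mem_pi, Set.mem_univ, forall_true_left,
      Fin.forall_fin_two, Matrix.cons_val_zero, Matrix.cons_val_one, Set.mem_Ico,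
      Matrix.cons_val_fin_one]
  rw [h1]
  refine ⟨MeasurableSet.pi Set.countable_univ fun i _ => measurableSet_Ico, ?_⟩
  rw [Real.volume_pi_Ico]
  simp [Fin.prod_univ_two]

theorem LPC_card (S : Finset (ℤ × ℤ)) :
    volume {v : Fin 2 → ℝ | (⌊v 0⌋, ⌊v 1⌋) ∈ S} = S.card := by
  have h1 : {v : Fin 2 → ℝ | (⌊v 0⌋, ⌊v 1⌋) ∈ S} =
      ⋃ p ∈ S, {v : Fin 2 → ℝ | ⌊v 0⌋ = p.1 ∧ ⌊v 1⌋ = p.2} := by
    ext v
    simp only [Set.mem_ofPred_eq, Set.mem_iUnion, exists_prop]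
    constructor
    · intro h
      exact ⟨_, h, rfl, rfl⟩
    · rintro ⟨p, hp, h1, h2⟩
      rw [h1, h2]
      exact hp
  rw [h1, measure_biUnion_finset ?_ fun p _ => (LPC_sq p).1]
  · rw [Finset.sum_congr rfl fun p _ => (LPC_sq p).2]
    simp
  · intro p _ q _ hpq
    refine Set.disjoint_left.2 fun v hv hw => hpq ?_
    exact Prod.ext (hv.1.symm.trans hw.1) (hv.2.symm.trans hw.2)

/-- the distance between a point and its lattice point -/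
theorem LPC_dist (z : ℂ) (v : Fin 2 → ℝ) :
    ‖((v 0 : ℂ) * z + (v 1 : ℂ)) - ((⌊v 0⌋ : ℂ) * z + (⌊v 1⌋ : ℂ))‖ ≤ ‖z‖ + 1 := by
  have h1 : ((v 0 : ℂ) * z + (v 1 : ℂ)) - ((⌊v 0⌋ : ℂ) * z + (⌊v 1⌋ : ℂ)) =
      ((Int.fract (v 0) : ℝ) : ℂ) * z + ((Int.fract (v 1) : ℝ) : ℂ) := by
    unfold Int.fract
    push_cast
    ring
  rw [h1]
  refine (norm_add_le _ _).trans ?_
  rw [norm_mul, Complex.norm_real, Complex.norm_real, Real.norm_of_nonneg (Int.fract_nonneg _),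
    Real.norm_of_nonneg (Int.fract_nonneg _)]
  have h2 := (Int.fract_lt_one (v 0)).le
  have h3 := (Int.fract_lt_one (v 1)).le
  have h4 := norm_nonneg z
  nlinarith

theorem disc_count_pr (Y : ℝ) : ∃ C : ℝ, ∀ z : ℍ, z ∈ 𝒟 → z.im ≤ Y → ∀ R : ℝ, 0 ≤ R →
    {p : ℤ × ℤ | ‖(p.1 : ℂ) * (z : ℂ) + (p.2 : ℂ)‖ ^ 2 ≤ R * z.im}.Finite ∧
    |({p : ℤ × ℤ | ‖(p.1 : ℂ) * (z : ℂ) + (p.2 : ℂ)‖ ^ 2 ≤ R * z.im}.ncard : ℝ) - Real.pi * R| ≤
      C * (1 + Real.sqrt R) := by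
  set D : ℝ := |Y| + 2 with hD
  have hD0 : 0 < D := by positivity
  refine ⟨Real.pi * (4 * D + 2 * D ^ 2), fun z hz hY R hR => ?_⟩
  have hy0 : 0 < z.im := z.im_pos
  have hy : 1 / 2 ≤ z.im := by
    have := three_le_four_mul_im_sq_of_mem_fd hz
    nlinarith
  have hzim : (z : ℂ).im = z.im := rfl
  have hzn : ‖(z : ℂ)‖ + 1 ≤ D := by
    have h1 : ‖(z : ℂ)‖ ≤ |(z : ℂ).re| + |(z : ℂ).im| := Complex.norm_le_abs_re_add_abs_im _
    have h2 : |(z : ℂ).re| ≤ 1 / 2 := hz.2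
    have h3 : |(z : ℂ).im| ≤ |Y| := by
      rw [hzim, abs_of_pos hy0]
      exact hY.trans (le_abs_self Y)
    linarith
  set ρ : ℝ := Real.sqrt (R * z.im) with hρ
  have hρ0 : 0 ≤ ρ := Real.sqrt_nonneg _
  have hρ2 : ρ ^ 2 = R * z.im := Real.sq_sqrt (by positivity)
  have hset : {p : ℤ × ℤ | ‖(p.1 : ℂ) * (z : ℂ) + (p.2 : ℂ)‖ ^ 2 ≤ R * z.im} =
      {p : ℤ × ℤ | ‖(p.1 : ℂ) * (z : ℂ) + (p.2 : ℂ)‖ ≤ ρ} := by
    ext p
    simp only [Set.mem_ofPred_eq]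
    rw [← hρ2]
    exact pow_le_pow_iff_left₀ (norm_nonneg _) hρ0 two_ne_zero
  rw [hset]
  have hfin : {p : ℤ × ℤ | ‖(p.1 : ℂ) * (z : ℂ) + (p.2 : ℂ)‖ ≤ ρ}.Finite := by
    set M : ℤ := ⌈2 * ρ⌉ with hM
    set M' : ℤ := ⌈ρ + 2 * ρ * D⌉ with hM'
    refine ((Finset.Icc (-M) M) ×ˢ (Finset.Icc (-M') M')).finite_toSet.subset ?_
    rintro ⟨c, d⟩ hp
    simp only [Set.mem_ofPred_eq] at hp
    have h1 : |(c : ℝ)| * z.im ≤ ρ := by
      have := (Complex.abs_im_le_norm _).trans hp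
      simp only [Complex.add_im, Complex.mul_im, Complex.intCast_re, Complex.intCast_im,
        zero_mul, add_zero, hzim] at this
      rwa [abs_mul, abs_of_pos hy0] at this
    have h2 : |(c : ℝ)| ≤ 2 * ρ := by
      have := abs_nonneg (c : ℝ)
      nlinarith
    have h3 : |(d : ℝ)| ≤ ρ + 2 * ρ * D := by
      have h4 : ((d : ℝ) : ℂ) = ((c : ℂ) * (z : ℂ) + (d : ℂ)) - (c : ℂ) * (z : ℂ) := by
        push_cast
        ring
      have h5 : |(d : ℝ)| = ‖((d : ℝ) : ℂ)‖ := by rw [Complex.norm_real, Real.norm_eq_abs]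
      rw [h5, h4]
      refine (norm_sub_le _ _).trans (add_le_add hp ?_)
      rw [norm_mul]
      have h6 : ‖(c : ℂ)‖ = |(c : ℝ)| := by
        rw [← Complex.ofReal_intCast, Complex.norm_real, Real.norm_eq_abs]
      rw [h6]
      exact mul_le_mul h2 (by linarith) (norm_nonneg _) (by positivity)
    simp only [Finset.coe_product, Finset.coe_Icc, Set.mem_prod, Set.mem_Icc]
    have h7 := abs_le.1 (h2.trans (Int.le_ceil _))
    have h8 := abs_le.1 (h3.trans (Int.le_ceil _))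
    refine ⟨⟨?_, ?_⟩, ?_, ?_⟩
    · exact_mod_cast h7.1
    · exact_mod_cast h7.2
    · exact_mod_cast h8.1
    · exact_mod_cast h8.2
  refine ⟨hfin, ?_⟩
  set S : Finset (ℤ × ℤ) := hfin.toFinset with hS
  have hcard : {p : ℤ × ℤ | ‖(p.1 : ℂ) * (z : ℂ) + (p.2 : ℂ)‖ ≤ ρ}.ncard = S.card :=
    Set.ncard_eq_toFinset_card _ hfin
  rw [hcard]
  have hmem : ∀ p : ℤ × ℤ, p ∈ S ↔ ‖(p.1 : ℂ) * (z : ℂ) + (p.2 : ℂ)‖ ≤ ρ := fun p => by
    rw [hS, Set.Finite.mem_toFinset]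
    rfl
  have hup : (S.card : ℝ) ≤ Real.pi * (ρ + D) ^ 2 / z.im := by
    have h1 : volume {v : Fin 2 → ℝ | (⌊v 0⌋, ⌊v 1⌋) ∈ S} ≤ volume (LPC_E z (ρ + D)) := by
      refine measure_mono fun v hv => ?_
      have h2 := (hmem _).1 hv
      have h3 := LPC_dist z v
      show ‖(v 0 : ℂ) * z + (v 1 : ℂ)‖ ≤ ρ + D
      have h4 : (v 0 : ℂ) * z + (v 1 : ℂ) = ((⌊v 0⌋ : ℂ) * z + (⌊v 1⌋ : ℂ)) +
          (((v 0 : ℂ) * z + (v 1 : ℂ)) - ((⌊v 0⌋ : ℂ) * z + (⌊v 1⌋ : ℂ))) := by ring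
      rw [h4]
      exact (norm_add_le _ _).trans (add_le_add h2 (h3.trans hzn))
    rw [LPC_card, LPC_vol (hzim ▸ hy0) (by positivity), hzim] at h1
    have h5 : ((S.card : ℕ) : ℝ≥0∞) = ENNReal.ofReal (S.card : ℝ) := by
      rw [ENNReal.ofReal_natCast]
    rw [h5] at h1
    exact (ENNReal.ofReal_le_ofReal_iff (by positivity)).1 h1
  have hlo : D ≤ ρ → Real.pi * (ρ - D) ^ 2 / z.im ≤ (S.card : ℝ) := by
    intro hρD
    have h1 : volume (LPC_E z (ρ - D)) ≤ volume {v : Fin 2 → ℝ | (⌊v 0⌋, ⌊v 1⌋) ∈ S} := by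
      refine measure_mono fun v hv => ?_
      have h2 : ‖(v 0 : ℂ) * z + (v 1 : ℂ)‖ ≤ ρ - D := hv
      have h3 := LPC_dist z v
      refine (hmem _).2 ?_
      have h4 : ((⌊v 0⌋ : ℂ) * z + (⌊v 1⌋ : ℂ)) = ((v 0 : ℂ) * z + (v 1 : ℂ)) -
          (((v 0 : ℂ) * z + (v 1 : ℂ)) - ((⌊v 0⌋ : ℂ) * z + (⌊v 1⌋ : ℂ))) := by ring
      show ‖((⌊v 0⌋ : ℂ) * z + (⌊v 1⌋ : ℂ))‖ ≤ ρ
      rw [h4]
      refine (norm_sub_le _ _).trans ?_
      linarith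
    rw [LPC_card, LPC_vol (hzim ▸ hy0) (by linarith), hzim] at h1
    have h5 : ((S.card : ℕ) : ℝ≥0∞) = ENNReal.ofReal (S.card : ℝ) := by
      rw [ENNReal.ofReal_natCast]
    rw [h5] at h1
    exact (ENNReal.ofReal_le_ofReal_iff (by positivity)).1 h1
  have hsq : ρ / z.im ≤ 2 * Real.sqrt R := by
    have h1 : ρ = Real.sqrt R * Real.sqrt z.im := Real.sqrt_mul hR _
    have h2 : Real.sqrt z.im / z.im ≤ 2 := by
      rw [div_le_iff₀ hy0]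
      have h3 : 0 < Real.sqrt z.im := Real.sqrt_pos.2 hy0
      have h4 : Real.sqrt z.im ^ 2 = z.im := Real.sq_sqrt hy0.le
      nlinarith
    rw [h1, mul_div_assoc]
    have := Real.sqrt_nonneg R
    nlinarith
  have hRρ : ρ ^ 2 / z.im = R := by rw [hρ2]; field_simp
  have hinv : D ^ 2 / z.im ≤ 2 * D ^ 2 := by
    rw [div_le_iff₀ hy0]
    nlinarith [sq_nonneg D]
  have hpi := Real.pi_pos
  have hsR := Real.sqrt_nonneg R
  have hbig : Real.pi * (2 * D * (ρ / z.im) + D ^ 2 / z.im) ≤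
      Real.pi * (4 * D + 2 * D ^ 2) * (1 + Real.sqrt R) := by
    have h1 : 2 * D * (ρ / z.im) ≤ 4 * D * Real.sqrt R := by nlinarith
    have h2 : 2 * D * (ρ / z.im) + D ^ 2 / z.im ≤ (4 * D + 2 * D ^ 2) * (1 + Real.sqrt R) := by
      nlinarith [mul_nonneg (sq_nonneg D) hsR]
    calc _ ≤ Real.pi * ((4 * D + 2 * D ^ 2) * (1 + Real.sqrt R)) :=
          mul_le_mul_of_nonneg_left h2 hpi.le
      _ = _ := by ring
  rw [abs_le]
  constructor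
  · by_cases hρD : D ≤ ρ
    · have h1 := hlo hρD
      have h2 : Real.pi * (ρ - D) ^ 2 / z.im =
          Real.pi * R - Real.pi * (2 * D * (ρ / z.im) - D ^ 2 / z.im) := by
        rw [← hRρ]
        ring
      have h3 : 0 ≤ Real.pi * (D ^ 2 / z.im) := by positivity
      nlinarith
    · push Not at hρD
      have h1 : Real.pi * R ≤ Real.pi * (D ^ 2 / z.im) := by
        rw [← hRρ]
        refine mul_le_mul_of_nonneg_left ?_ hpi.le
        exact div_le_div_of_nonneg_right (pow_le_pow_left₀ hρ0 hρD.le 2) hy0.le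
      have h2 : (0 : ℝ) ≤ S.card := Nat.cast_nonneg _
      have h3 : 0 ≤ Real.pi * (2 * D * (ρ / z.im)) := by positivity
      nlinarith
  · have h2 : Real.pi * (ρ + D) ^ 2 / z.im =
        Real.pi * R + Real.pi * (2 * D * (ρ / z.im) + D ^ 2 / z.im) := by
      rw [← hRρ]
      ring
    linarith

theorem disc_count : type_of% @disc_count_pr := @disc_count_pr

end Pool.Agent.KSL
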