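import Pool.Agent.Lib_helper41.KSL.DefsN
import Pool.Agent.Lib_helper41.KSNF.LPC

/-! Block PRC: primitive lattice points in a large disc. -/

namespace Pool.Agent.KSL

open Pool.Agent.LVB Pool.Agent.LEV Complex MeasureTheory Filter Topology UpperHalfPlane ModularGroup
  ProbabilityTheory
open scoped MatrixGroups Modular ENNReal ModularForm ComplexConjugate ContDiff

open ArithmeticFunction in
/-- sum of the Moebius function over common divisors -/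
theorem PRC_mob {M g : ℕ} (hM : M ≠ 0) :
    (∑ k ∈ M.divisors.filter (fun k => k ∣ g), (moebius k : ℤ)) =
      if Nat.gcd g M = 1 then 1 else 0 := by
  have h1 : M.divisors.filter (fun k => k ∣ g) = (Nat.gcd g M).divisors := by
    ext k
    simp only [Finset.mem_filter, Nat.mem_divisors]
    constructor
    · rintro ⟨⟨h1, h2⟩, h3⟩
      exact ⟨Nat.dvd_gcd h3 h1, Nat.gcd_ne_zero_right hM⟩
    · rintro ⟨h1, h2⟩
      exact ⟨⟨h1.trans (Nat.gcd_dvd_right _ _), hM⟩, h1.trans (Nat.gcd_dvd_left _ _)⟩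
  rw [h1, ← coe_mul_zeta_apply, moebius_mul_coe_zeta, one_apply]

/-- the number of points of the disc -/
noncomputable def PRC_T (z : ℍ) (R : ℝ) : ℕ :=
  {p : ℤ × ℤ | ‖(p.1 : ℂ) * (z : ℂ) + (p.2 : ℂ)‖ ^ 2 ≤ R * z.im}.ncard

open Classical in
theorem PRC_mult (z : ℍ) (R : ℝ) (hfin : ∀ R : ℝ, 0 ≤ R →
    {p : ℤ × ℤ | ‖(p.1 : ℂ) * (z : ℂ) + (p.2 : ℂ)‖ ^ 2 ≤ R * z.im}.Finite) (hR : 0 ≤ R)
    {k : ℕ} (hk : 0 < k) :
    ((hfin R hR).toFinset.filter (fun p => k ∣ Int.gcd p.1 p.2)).card = PRC_T z (R / k ^ 2) := by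
  have hk' : (0 : ℝ) < (k : ℝ) ^ 2 := by positivity
  have h0 : 0 ≤ R / k ^ 2 := by positivity
  rw [PRC_T, Set.ncard_eq_toFinset_card _ (hfin _ h0)]
  symm
  refine Finset.card_bij (fun p _ => ((k : ℤ) * p.1, (k : ℤ) * p.2)) ?_ ?_ ?_
  · intro p hp
    simp only [Set.Finite.mem_toFinset, Set.mem_ofPred_eq] at hp
    simp only [Finset.mem_filter, Set.Finite.mem_toFinset, Set.mem_ofPred_eq]
    refine ⟨?_, ?_⟩
    · have e1 : (((k : ℤ) * p.1 : ℤ) : ℂ) * (z : ℂ) + (((k : ℤ) * p.2 : ℤ) : ℂ) =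
          (k : ℂ) * ((p.1 : ℂ) * (z : ℂ) + (p.2 : ℂ)) := by push_cast; ring
      rw [e1, norm_mul, mul_pow, Complex.norm_natCast]
      have h2 := mul_le_mul_of_nonneg_left hp hk'.le
      have e2 : (k : ℝ) ^ 2 * (R / (k : ℝ) ^ 2 * z.im) = R * z.im := by
        field_simp
      rwa [e2] at h2
    · rw [Int.gcd_mul_left, Int.natAbs_natCast]
      exact Nat.dvd_mul_right _ _
  · intro p _ p' _ h
    have hk0 : (k : ℤ) ≠ 0 := by exact_mod_cast hk.ne'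
    simp only [Prod.mk.injEq, mul_eq_mul_left_iff, hk0, or_false] at h
    exact Prod.ext h.1 h.2
  · intro p hp
    simp only [Finset.mem_filter, Set.Finite.mem_toFinset, Set.mem_ofPred_eq] at hp
    obtain ⟨h1, h2⟩ := hp
    have h3 : (k : ℤ) ∣ p.1 := (Int.natCast_dvd_natCast.2 h2).trans (Int.gcd_dvd_left ..)
    have h4 : (k : ℤ) ∣ p.2 := (Int.natCast_dvd_natCast.2 h2).trans (Int.gcd_dvd_right ..)
    obtain ⟨c, hc⟩ := h3
    obtain ⟨d, hd⟩ := h4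
    refine ⟨(c, d), ?_, ?_⟩
    · simp only [Set.Finite.mem_toFinset, Set.mem_ofPred_eq]
      have e1 : (p.1 : ℂ) * (z : ℂ) + (p.2 : ℂ) = (k : ℂ) * ((c : ℂ) * (z : ℂ) + (d : ℂ)) := by
        rw [hc, hd]; push_cast; ring
      rw [e1, norm_mul, mul_pow, Complex.norm_natCast] at h1
      have e2 : (k : ℝ) ^ 2 * (R / (k : ℝ) ^ 2 * z.im) = R * z.im := by
        field_simp
      rw [← e2] at h1
      exact le_of_mul_le_mul_left h1 hk'
    · exact Prod.ext hc.symm hd.symm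

open Classical ArithmeticFunction in
/-- upper bound sieve for the primitive points -/
theorem PRC_sieve (z : ℍ) (R : ℝ) (hfin : ∀ R : ℝ, 0 ≤ R →
    {p : ℤ × ℤ | ‖(p.1 : ℂ) * (z : ℂ) + (p.2 : ℂ)‖ ^ 2 ≤ R * z.im}.Finite) (hR : 0 ≤ R)
    {M : ℕ} (hM : M ≠ 0) :
    (({p : ℤ × ℤ | IsCoprime p.1 p.2 ∧
      ‖(p.1 : ℂ) * (z : ℂ) + (p.2 : ℂ)‖ ^ 2 ≤ R * z.im}.ncard : ℕ) : ℤ) ≤
      ∑ k ∈ M.divisors, moebius k * (PRC_T z (R / k ^ 2) : ℤ) := by
  have h1 : ∑ k ∈ M.divisors, moebius k * (PRC_T z (R / k ^ 2) : ℤ) =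
      ∑ p ∈ (hfin R hR).toFinset, if Nat.gcd (Int.gcd p.1 p.2) M = 1 then (1 : ℤ) else 0 := by
    have h2 : ∀ k ∈ M.divisors, moebius k * (PRC_T z (R / k ^ 2) : ℤ) =
        ∑ p ∈ (hfin R hR).toFinset, if k ∣ Int.gcd p.1 p.2 then moebius k else 0 := by
      intro k hk
      rw [← PRC_mult z R hfin hR (Nat.pos_of_mem_divisors hk), ← Finset.sum_filter,
        Finset.sum_const, nsmul_eq_mul, mul_comm]
    rw [Finset.sum_congr rfl h2, Finset.sum_comm]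
    refine Finset.sum_congr rfl fun p _ => ?_
    rw [← PRC_mob hM, ← Finset.sum_filter]
  rw [h1, ← Finset.sum_filter, Finset.sum_const, nsmul_eq_mul, mul_one]
  have h3 : {p : ℤ × ℤ | IsCoprime p.1 p.2 ∧
      ‖(p.1 : ℂ) * (z : ℂ) + (p.2 : ℂ)‖ ^ 2 ≤ R * z.im} ⊆
      (((hfin R hR).toFinset.filter (fun p => Nat.gcd (Int.gcd p.1 p.2) M = 1) :
        Finset (ℤ × ℤ)) : Set (ℤ × ℤ)) := by
    rintro p ⟨hp1, hp2⟩
    simp only [Finset.coe_filter, Set.Finite.mem_toFinset, Set.mem_ofPred_eq]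
    refine ⟨hp2, ?_⟩
    rw [Int.isCoprime_iff_gcd_eq_one.1 hp1]
    exact Nat.gcd_one_left M
  have h4 := Set.ncard_le_ncard h3 (Finset.finite_toSet _)
  rw [Set.ncard_coe_finset] at h4
  exact_mod_cast h4

open ArithmeticFunction in
/-- the squarefree product of the primes below `n` and its density -/
theorem PRC_prod (n : ℕ) : ∃ M : ℕ, M ≠ 0 ∧ ∑ k ∈ M.divisors, (moebius k : ℝ) * (1 / (k : ℝ) ^ 2) =
    ∏ p ∈ Nat.primesBelow n, (1 - 1 / (p : ℝ) ^ 2) := by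
  refine ⟨∏ p ∈ Nat.primesBelow n, p, ?_, ?_⟩
  · exact Finset.prod_ne_zero_iff.2 fun p hp => (Nat.prime_of_mem_primesBelow hp).ne_zero
  · have hpr : ∀ p ∈ Nat.primesBelow n, p.Prime := fun p hp => Nat.prime_of_mem_primesBelow hp
    have hsq : Squarefree (∏ p ∈ Nat.primesBelow n, p) := by
      refine Finset.squarefree_prod_of_pairwise_isCoprime ?_ ?_
      · intro p hp q hq hpq
        exact Nat.coprime_iff_isRelPrime.1 ((Nat.coprime_primes (hpr p hp) (hpr q hq)).2 hpq)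
      · intro p hp
        exact (hpr p hp).prime.squarefree
    let f : ArithmeticFunction ℝ := ⟨fun k => 1 / (k : ℝ) ^ 2, by simp⟩
    have hf : f.IsMultiplicative := by
      refine ⟨by simp [f], ?_⟩
      intro a b _
      show 1 / ((a * b : ℕ) : ℝ) ^ 2 = 1 / (a : ℝ) ^ 2 * (1 / (b : ℝ) ^ 2)
      push_cast
      rw [mul_pow, one_div_mul_one_div]
    have h1 := hf.prodPrimeFactors_one_sub_of_squarefree _ hsq
    rw [Nat.primeFactors_prod hpr] at h1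
    exact h1.symm

theorem PRC_density {ε : ℝ} (hε : 0 < ε) : ∃ n : ℕ,
    ∏ p ∈ Nat.primesBelow n, (1 - 1 / (p : ℝ) ^ 2) ≤ 6 / Real.pi ^ 2 * (1 + ε) := by
  have h1 := riemannZeta_eulerProduct (s := 2) (by norm_num)
  rw [riemannZeta_two] at h1
  have h2 : Tendsto (fun n : ℕ => (∏ p ∈ Nat.primesBelow n, (1 - (p : ℂ) ^ (-(2 : ℂ)))⁻¹)⁻¹) atTop
      (𝓝 (((Real.pi : ℂ) ^ 2 / 6)⁻¹)) := by
    refine h1.inv₀ ?_
    have : (Real.pi : ℂ) ≠ 0 := by exact_mod_cast Real.pi_ne_zero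
    exact div_ne_zero (pow_ne_zero _ this) (by norm_num)
  have h3 : ∀ n : ℕ, (∏ p ∈ Nat.primesBelow n, (1 - (p : ℂ) ^ (-(2 : ℂ)))⁻¹)⁻¹ =
      ((∏ p ∈ Nat.primesBelow n, (1 - 1 / (p : ℝ) ^ 2) : ℝ) : ℂ) := by
    intro n
    rw [← Finset.prod_inv_distrib]
    push_cast
    refine Finset.prod_congr rfl fun p hp => ?_
    rw [inv_inv, Complex.cpow_neg]
    norm_num
  have h4 : ((Real.pi : ℂ) ^ 2 / 6)⁻¹ = ((6 / Real.pi ^ 2 : ℝ) : ℂ) := by
    push_cast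
    rw [inv_div]
  simp only [h3, h4] at h2
  have h5 : Tendsto (fun n : ℕ => (∏ p ∈ Nat.primesBelow n, (1 - 1 / (p : ℝ) ^ 2) : ℝ)) atTop
      (𝓝 (6 / Real.pi ^ 2)) := by
    have := (Complex.continuous_re.tendsto _).comp h2
    simp only [Function.comp_def, Complex.ofReal_re] at this
    exact this
  have h6 : 6 / Real.pi ^ 2 < 6 / Real.pi ^ 2 * (1 + ε) := by
    have : 0 < 6 / Real.pi ^ 2 := by positivity
    nlinarith
  obtain ⟨n, hn⟩ := (h5.eventually (gt_mem_nhds h6)).exists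
  exact ⟨n, hn.le⟩

open ArithmeticFunction in
theorem prim_count_pr (Y : ℝ) {ε : ℝ} (hε : 0 < ε) : ∃ C₁ : ℝ, ∀ C : ℝ, C₁ ≤ C → ∀ z : ℍ, z ∈ 𝒟 →
    z.im ≤ Y →
    ({p : ℤ × ℤ | IsCoprime p.1 p.2 ∧ ‖(p.1 : ℂ) * (z : ℂ) + (p.2 : ℂ)‖ ^ 2 ≤ C * z.im}.ncard : ℝ) ≤
      6 / Real.pi * (1 + ε) * C := by
  obtain ⟨C₀', hC₀'⟩ := disc_count Y
  obtain ⟨n, hn⟩ := PRC_density (half_pos hε)
  obtain ⟨M, hM0, hM⟩ := PRC_prod n
  -- a positive constant
  set C₀ : ℝ := max C₀' 1 with hC₀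
  have hC₀p : 0 < C₀ := lt_of_lt_of_le one_pos (le_max_right _ _)
  set t : ℝ := (M.divisors.card : ℝ) with ht
  have htp : 0 ≤ t := by positivity
  set B : ℝ := 2 * C₀ * t * Real.pi / (3 * ε) with hB
  have hBp : 0 ≤ B := by positivity
  refine ⟨max 1 (B ^ 2), fun C hC z hz hzY => ?_⟩
  have hC1 : 1 ≤ C := (le_max_left _ _).trans hC
  have hC0 : 0 ≤ C := by linarith
  have hCB : B ≤ Real.sqrt C := Real.le_sqrt_of_sq_le ((le_max_right _ _).trans hC)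
  have hs1 : 1 ≤ Real.sqrt C := Real.one_le_sqrt.2 hC1
  have hfin : ∀ R : ℝ, 0 ≤ R →
      {p : ℤ × ℤ | ‖(p.1 : ℂ) * (z : ℂ) + (p.2 : ℂ)‖ ^ 2 ≤ R * z.im}.Finite :=
    fun R hR => (hC₀' z hz hzY R hR).1
  have h1 := PRC_sieve z C hfin hC0 hM0
  have h2 : ((({p : ℤ × ℤ | IsCoprime p.1 p.2 ∧
      ‖(p.1 : ℂ) * (z : ℂ) + (p.2 : ℂ)‖ ^ 2 ≤ C * z.im}.ncard : ℕ) : ℤ) : ℝ) ≤
      ((∑ k ∈ M.divisors, moebius k * (PRC_T z (C / k ^ 2) : ℤ) : ℤ) : ℝ) := by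
    exact_mod_cast h1
  push_cast at h2
  refine h2.trans ?_
  have h3 : ∀ k ∈ M.divisors, (moebius k : ℝ) * (PRC_T z (C / k ^ 2) : ℝ) ≤
      Real.pi * C * ((moebius k : ℝ) * (1 / (k : ℝ) ^ 2)) + C₀ * (2 * Real.sqrt C) := by
    intro k hk
    have hk0 : 0 < k := Nat.pos_of_mem_divisors hk
    have hk1 : (1 : ℝ) ≤ (k : ℝ) ^ 2 := by
      have : (1 : ℝ) ≤ k := by exact_mod_cast hk0
      nlinarith
    have h4 := (hC₀' z hz hzY (C / k ^ 2) (by positivity)).2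
    have h5 : Real.sqrt (C / (k : ℝ) ^ 2) ≤ Real.sqrt C :=
      Real.sqrt_le_sqrt (div_le_self hC0 hk1)
    have h6 : C₀' * (1 + Real.sqrt (C / (k : ℝ) ^ 2)) ≤ C₀ * (2 * Real.sqrt C) := by
      have h7 : 0 ≤ 1 + Real.sqrt (C / (k : ℝ) ^ 2) := by positivity
      calc C₀' * (1 + Real.sqrt (C / (k : ℝ) ^ 2)) ≤ C₀ * (1 + Real.sqrt (C / (k : ℝ) ^ 2)) :=
            mul_le_mul_of_nonneg_right (le_max_left _ _) h7
        _ ≤ C₀ * (2 * Real.sqrt C) := mul_le_mul_of_nonneg_left (by linarith) hC₀p.le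
    have h8 : |(PRC_T z (C / k ^ 2) : ℝ) - Real.pi * (C / k ^ 2)| ≤ C₀ * (2 * Real.sqrt C) :=
      h4.trans h6
    have h9 : |(moebius k : ℝ)| ≤ 1 := by
      have := abs_moebius_le_one (n := k)
      exact_mod_cast this
    have h10 : (moebius k : ℝ) * (PRC_T z (C / k ^ 2) : ℝ) -
        Real.pi * C * ((moebius k : ℝ) * (1 / (k : ℝ) ^ 2)) =
        (moebius k : ℝ) * ((PRC_T z (C / k ^ 2) : ℝ) - Real.pi * (C / k ^ 2)) := by ring
    have h11 : (moebius k : ℝ) * ((PRC_T z (C / k ^ 2) : ℝ) - Real.pi * (C / k ^ 2)) ≤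
        C₀ * (2 * Real.sqrt C) := by
      refine (le_abs_self _).trans ?_
      rw [abs_mul]
      calc |(moebius k : ℝ)| * |(PRC_T z (C / k ^ 2) : ℝ) - Real.pi * (C / k ^ 2)|
          ≤ 1 * (C₀ * (2 * Real.sqrt C)) := mul_le_mul h9 h8 (abs_nonneg _) zero_le_one
        _ = _ := one_mul _
    linarith
  refine (Finset.sum_le_sum h3).trans ?_
  rw [Finset.sum_add_distrib, ← Finset.mul_sum, hM, Finset.sum_const, nsmul_eq_mul, ← ht]
  have hpi := Real.pi_pos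
  have h12 : Real.pi * C * ∏ p ∈ Nat.primesBelow n, (1 - 1 / (p : ℝ) ^ 2) ≤
      Real.pi * C * (6 / Real.pi ^ 2 * (1 + ε / 2)) :=
    mul_le_mul_of_nonneg_left hn (by positivity)
  have h13 : Real.pi * C * (6 / Real.pi ^ 2 * (1 + ε / 2)) = 6 / Real.pi * (1 + ε / 2) * C := by
    field_simp
  have h14 : t * (C₀ * (2 * Real.sqrt C)) ≤ 3 * ε / Real.pi * C := by
    have e1 : t * (C₀ * (2 * Real.sqrt C)) = B * (3 * ε / Real.pi) * Real.sqrt C := by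
      rw [hB]
      field_simp
    have e2 : 3 * ε / Real.pi * C = Real.sqrt C * (3 * ε / Real.pi) * Real.sqrt C := by
      nth_rewrite 1 [← Real.mul_self_sqrt hC0]
      ring
    rw [e1, e2]
    have : 0 ≤ 3 * ε / Real.pi := by positivity
    gcongr
  calc _ ≤ 6 / Real.pi * (1 + ε / 2) * C + 3 * ε / Real.pi * C := by linarith
    _ = 6 / Real.pi * (1 + ε) * C := by ring

theorem prim_count : type_of% @prim_count_pr := @prim_count_pr

end Pool.Agent.KSL
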