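import Pool.Agent.Lib_helper41.KSL.DefsN

/-! Block RED (KSN): reduction of the lattice attached to a line. -/

set_option autoImplicit false

namespace Pool.Agent.KSL

open Pool.Agent.LVB Pool.Agent.LEV Complex MeasureTheory Filter Topology UpperHalfPlane ModularGroup
  ProbabilityTheory
open scoped MatrixGroups Modular ENNReal ModularForm ComplexConjugate ContDiff

theorem RED_core {N : ℕ} (z τ : ℍ) (α0 β0 γ0 δ0 : ℤ) (L : ℤ → ℤ → Prop)
    (hL : ∀ c d : ℤ, L c d ↔ ∃ m n : ℤ, c = α0 * m + β0 * n ∧ d = γ0 * m + δ0 * n)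
    (hn : ∀ m n : ℤ, ‖((α0 * m + β0 * n : ℤ) : ℂ) * (z : ℂ) + ((γ0 * m + δ0 * n : ℤ) : ℂ)‖ ^ 2 *
      τ.im = ‖(m : ℂ) * (τ : ℂ) + (n : ℂ)‖ ^ 2 * (N * z.im)) :
    ∃ z' : ℍ, z' ∈ 𝒟 ∧ ∃ α β γ δ : ℤ,
      (∀ c d : ℤ, L c d ↔ ∃ m n : ℤ, c = α * m + β * n ∧ d = γ * m + δ * n) ∧
      ∀ m n : ℤ, ‖((α * m + β * n : ℤ) : ℂ) * (z : ℂ) + ((γ * m + δ * n : ℤ) : ℂ)‖ ^ 2 * z'.im =
        ‖(m : ℂ) * (z' : ℂ) + (n : ℂ)‖ ^ 2 * (N * z.im) := by
  obtain ⟨g, hg⟩ := ModularGroup.exists_smul_mem_fd τ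
  have hdet : g 0 0 * g 1 1 - g 0 1 * g 1 0 = 1 := by
    have h := g.det_coe
    rwa [Matrix.det_fin_two] at h
  have him : (g • τ).im = τ.im / Complex.normSq (((g 1 0 : ℤ) : ℂ) * (τ : ℂ) + ((g 1 1 : ℤ) : ℂ)) := by
    rw [ModularGroup.im_smul_eq_div_normSq, ModularGroup.denom_apply]
  have hco : ((g • τ : ℍ) : ℂ) = (((g 0 0 : ℤ) : ℂ) * (τ : ℂ) + ((g 0 1 : ℤ) : ℂ)) /
      (((g 1 0 : ℤ) : ℂ) * (τ : ℂ) + ((g 1 1 : ℤ) : ℂ)) := by
    rw [UpperHalfPlane.coe_specialLinearGroup_apply]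
    simp
  have hden : (((g 1 0 : ℤ) : ℂ) * (τ : ℂ) + ((g 1 1 : ℤ) : ℂ)) ≠ 0 := by
    intro h0
    have h1 := (g • τ).im_pos
    rw [him, h0] at h1
    simp at h1
  generalize g 0 0 = a at hdet hco
  generalize g 0 1 = b at hdet hco
  generalize g 1 0 = c at hdet hco him hden
  generalize g 1 1 = d at hdet hco him hden
  refine ⟨g • τ, hg, α0 * a + β0 * b, α0 * c + β0 * d, γ0 * a + δ0 * b, γ0 * c + δ0 * d, ?_, ?_⟩
  · intro u v
    rw [hL]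
    constructor
    · rintro ⟨m, n, h1, h2⟩
      refine ⟨d * m - c * n, -b * m + a * n, ?_, ?_⟩
      · rw [h1]
        linear_combination (-(α0 * m + β0 * n)) * hdet
      · rw [h2]
        linear_combination (-(γ0 * m + δ0 * n)) * hdet
    · rintro ⟨m, n, h1, h2⟩
      refine ⟨a * m + c * n, b * m + d * n, ?_, ?_⟩
      · rw [h1]
        ring
      · rw [h2]
        ring
  · intro m n
    have h1 := hn (a * m + c * n) (b * m + d * n)
    have e1 : (α0 * a + β0 * b) * m + (α0 * c + β0 * d) * n =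
        α0 * (a * m + c * n) + β0 * (b * m + d * n) := by ring
    have e2 : (γ0 * a + δ0 * b) * m + (γ0 * c + δ0 * d) * n =
        γ0 * (a * m + c * n) + δ0 * (b * m + d * n) := by ring
    have e3 : (m : ℂ) * ((g • τ : ℍ) : ℂ) + (n : ℂ) =
        (((a * m + c * n : ℤ) : ℂ) * (τ : ℂ) + ((b * m + d * n : ℤ) : ℂ)) /
          ((c : ℂ) * (τ : ℂ) + (d : ℂ)) := by
      rw [hco, eq_div_iff hden, add_mul, mul_assoc, div_mul_cancel₀ _ hden]
      push_cast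
      ring
    have hq : 0 < ‖(c : ℂ) * (τ : ℂ) + (d : ℂ)‖ := norm_pos_iff.2 hden
    rw [e1, e2, e3, him, Complex.normSq_eq_norm_sq, norm_div, div_pow]
    have h2 : ∀ A B C D E : ℝ, A * B = C * D → A * (B / E) = C / E * D := by
      intro A B C D E h
      rw [div_mul_eq_mul_div, ← h, mul_div_assoc]
    exact h2 _ _ _ _ _ h1

theorem row_reduce_pr {N : ℕ} [Fact N.Prime] (q : PX N) (z : ℍ) : ∃ z' : ℍ, z' ∈ 𝒟 ∧
    ∃ α β γ δ : ℤ, (∀ c d : ℤ, rowq q c d ↔ ∃ m n : ℤ, c = α * m + β * n ∧ d = γ * m + δ * n) ∧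
      ∀ m n : ℤ, ‖((α * m + β * n : ℤ) : ℂ) * (z : ℂ) + ((γ * m + δ * n : ℤ) : ℂ)‖ ^ 2 * z'.im =
        ‖(m : ℂ) * (z' : ℂ) + (n : ℂ)‖ ^ 2 * (N * z.im) := by
  have hNp : N.Prime := Fact.out
  have hN : (0 : ℝ) < N := by exact_mod_cast hNp.pos
  have hNC : (N : ℂ) ≠ 0 := by exact_mod_cast hNp.ne_zero
  match q with
  | none =>
    have hτ : 0 < ((N : ℂ) * (z : ℂ)).im := by
      have : ((N : ℂ) * (z : ℂ)).im = N * z.im := by
        simp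
      rw [this]
      exact mul_pos hN z.im_pos
    refine RED_core z ⟨(N : ℂ) * (z : ℂ), hτ⟩ N 0 0 1 (rowq none) ?_ ?_
    · intro c d
      show (c : ZMod N) = 0 ↔ _
      rw [ZMod.intCast_zmod_eq_zero_iff_dvd]
      constructor
      · rintro ⟨m, hm⟩
        exact ⟨m, d, by rw [hm]; ring, by ring⟩
      · rintro ⟨m, n, h1, -⟩
        exact ⟨m, by rw [h1]; ring⟩
    · intro m n
      have e1 : (((N : ℤ) * m + 0 * n : ℤ) : ℂ) * (z : ℂ) + ((0 * m + 1 * n : ℤ) : ℂ) =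
          (m : ℂ) * ((N : ℂ) * (z : ℂ)) + (n : ℂ) := by
        push_cast
        ring
      have e2 : (⟨(N : ℂ) * (z : ℂ), hτ⟩ : ℍ).im = N * z.im := by
        show ((N : ℂ) * (z : ℂ)).im = _
        simp
      rw [e1, e2]
  | some x =>
    have him : (((z : ℂ) - ((x.val : ℕ) : ℂ)) / (N : ℂ)).im = z.im / N := by
      rw [Complex.div_natCast_im, Complex.sub_im, Complex.natCast_im, sub_zero,
        UpperHalfPlane.coe_im]
    have hτ : 0 < (((z : ℂ) - ((x.val : ℕ) : ℂ)) / (N : ℂ)).im := by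
      rw [him]
      exact div_pos z.im_pos hN
    have : NeZero N := ⟨hNp.ne_zero⟩
    refine RED_core z ⟨((z : ℂ) - ((x.val : ℕ) : ℂ)) / (N : ℂ), hτ⟩ 1 0 (-(x.val : ℤ)) N
      (rowq (some x)) ?_ ?_
    · intro c d
      show (c : ZMod N) * x + (d : ZMod N) = 0 ↔ _
      have h1 : (c : ZMod N) * x + (d : ZMod N) = ((c * (x.val : ℤ) + d : ℤ) : ZMod N) := by
        push_cast
        rw [ZMod.natCast_zmod_val]
      rw [h1, ZMod.intCast_zmod_eq_zero_iff_dvd]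
      constructor
      · rintro ⟨k, hk⟩
        exact ⟨c, k, by ring, by linear_combination hk⟩
      · rintro ⟨m, n, h1, h2⟩
        exact ⟨n, by rw [h1, h2]; ring⟩
    · intro m n
      have e1 : ((1 * m + 0 * n : ℤ) : ℂ) * (z : ℂ) + ((-(x.val : ℤ) * m + (N : ℤ) * n : ℤ) : ℂ) =
          (N : ℂ) * ((m : ℂ) * (((z : ℂ) - ((x.val : ℕ) : ℂ)) / (N : ℂ)) + (n : ℂ)) := by
        push_cast
        field_simp
        ring
      have e2 : (⟨((z : ℂ) - ((x.val : ℕ) : ℂ)) / (N : ℂ), hτ⟩ : ℍ).im = z.im / N := him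
      have e3 : ‖(N : ℂ)‖ = (N : ℝ) := Complex.norm_natCast N
      rw [e1, e2, norm_mul, e3]
      show ((N : ℝ) * ‖(m : ℂ) * (((z : ℂ) - ((x.val : ℕ) : ℂ)) / (N : ℂ)) + (n : ℂ)‖) ^ 2 *
        (z.im / N) = ‖(m : ℂ) * (((z : ℂ) - ((x.val : ℕ) : ℂ)) / (N : ℂ)) + (n : ℂ)‖ ^ 2 *
        (N * z.im)
      field_simp

theorem row_reduce : type_of% @row_reduce_pr := @row_reduce_pr

end Pool.Agent.KSL
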