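import Pool.Agent.Lib_helper41.KSL.DefsN
import Pool.Agent.Lib_helper41.KSNF.LPC
import Pool.Agent.Lib_helper41.KSNF.PRC
import Pool.Agent.Lib_helper41.KSNF.RED

/-! Block LMC: number of primitive rows of a line, generic points.
Cites `disc_count` (LPC), `prim_count` (PRC), `row_reduce` (RED). -/

set_option autoImplicit false

namespace Pool.Agent.KSL

open Pool.Agent.LVB Pool.Agent.LEV Complex MeasureTheory Filter Topology UpperHalfPlane ModularGroup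
  ProbabilityTheory
open scoped MatrixGroups Modular ENNReal ModularForm ComplexConjugate ContDiff

theorem line_count_pr {c₀ ε : ℝ} (h0 : 0 < c₀) (hε : 0 < ε) : ∃ C₁ : ℝ, ∀ C : ℝ, C₁ ≤ C →
    ∀ (N : ℕ) [Fact N.Prime] (q : PX N) (z : ℍ),
    (∀ c d : ℤ, (c, d) ≠ (0, 0) → rowq q c d → c₀ ^ 2 * N * z.im ≤ ‖(c : ℂ) * (z : ℂ) + (d : ℂ)‖ ^ 2) →
    {p : ℤ × ℤ | IsCoprime p.1 p.2 ∧ rowq q p.1 p.2 ∧
      ‖(p.1 : ℂ) * (z : ℂ) + (p.2 : ℂ)‖ ^ 2 ≤ C * N * z.im}.Finite ∧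
    ({p : ℤ × ℤ | IsCoprime p.1 p.2 ∧ rowq q p.1 p.2 ∧
      ‖(p.1 : ℂ) * (z : ℂ) + (p.2 : ℂ)‖ ^ 2 ≤ C * N * z.im}.ncard : ℝ) ≤
      6 / Real.pi * (1 + ε) * C := by
  obtain ⟨C₁, hC₁⟩ := prim_count (1 / c₀ ^ 2) hε
  obtain ⟨C₂, hC₂⟩ := disc_count (1 / c₀ ^ 2)
  refine ⟨max C₁ 0, fun C hC N _ q z hgen => ?_⟩
  have hC0 : 0 ≤ C := (le_max_right _ _).trans hC
  have hN : (0 : ℝ) < N := by exact_mod_cast (Fact.out : N.Prime).pos
  have hz : 0 < z.im := z.im_pos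
  have hNz : 0 < (N : ℝ) * z.im := by positivity
  obtain ⟨z', hz', α, β, γ, δ, hrow, hnorm⟩ := row_reduce q z
  have hz'0 : 0 < z'.im := z'.im_pos
  -- the height of `z'`
  have hY : z'.im ≤ 1 / c₀ ^ 2 := by
    have h1 := hnorm 0 1
    have h2 : ‖((0 : ℤ) : ℂ) * (z' : ℂ) + ((1 : ℤ) : ℂ)‖ ^ 2 = 1 := by simp
    rw [h2, one_mul] at h1
    have h3 : (α * 0 + β * 1 : ℤ) = β := by ring
    have h4 : (γ * 0 + δ * 1 : ℤ) = δ := by ring
    rw [h3, h4] at h1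
    have h5 : rowq q β δ := (hrow β δ).mpr ⟨0, 1, by ring, by ring⟩
    have h6 : (β, δ) ≠ (0, 0) := by
      intro h
      rw [Prod.mk.injEq] at h
      rw [h.1, h.2] at h1
      simp at h1
      rcases h1 with h1 | h1
      · exact hN.ne' (by exact_mod_cast h1)
      · exact hz.ne' h1
    have h7 := hgen β δ h6 h5
    have h8 : c₀ ^ 2 * N * z.im * z'.im ≤ N * z.im := by
      rw [← h1]
      exact mul_le_mul_of_nonneg_right h7 hz'0.le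
    rw [le_div_iff₀ (by positivity)]
    nlinarith
  obtain ⟨hf, _⟩ := hC₂ z' hz' hY C hC0
  have hp := hC₁ C ((le_max_left _ _).trans hC) z' hz' hY
  set S' : Set (ℤ × ℤ) := {p : ℤ × ℤ | IsCoprime p.1 p.2 ∧
    ‖(p.1 : ℂ) * (z' : ℂ) + (p.2 : ℂ)‖ ^ 2 ≤ C * z'.im} with hS'
  set S : Set (ℤ × ℤ) := {p : ℤ × ℤ | IsCoprime p.1 p.2 ∧ rowq q p.1 p.2 ∧
      ‖(p.1 : ℂ) * (z : ℂ) + (p.2 : ℂ)‖ ^ 2 ≤ C * N * z.im} with hS
  have hS'f : S'.Finite := hf.subset fun p hp => hp.2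
  have hsub : S ⊆ (fun p : ℤ × ℤ => (α * p.1 + β * p.2, γ * p.1 + δ * p.2)) '' S' := by
    rintro ⟨c, d⟩ ⟨h1, h2, h3⟩
    obtain ⟨m, n, hm, hn⟩ := (hrow c d).mp h2
    refine ⟨(m, n), ⟨?_, ?_⟩, ?_⟩
    · obtain ⟨u, v, huv⟩ := h1
      refine ⟨u * α + v * γ, u * β + v * δ, ?_⟩
      simp only at huv ⊢
      rw [hm, hn] at huv
      linear_combination huv
    · simp only at h3 ⊢
      have h4 := hnorm m n
      rw [← hm, ← hn] at h4
      have h5 : ‖(m : ℂ) * (z' : ℂ) + (n : ℂ)‖ ^ 2 * (N * z.im) ≤ C * z'.im * (N * z.im) := by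
        rw [← h4]
        have := mul_le_mul_of_nonneg_right h3 hz'0.le
        linarith
      exact le_of_mul_le_mul_right h5 hNz
    · simp only
      rw [hm, hn]
  refine ⟨(hS'f.image _).subset hsub, ?_⟩
  have h1 : S.ncard ≤ S'.ncard :=
    (Set.ncard_le_ncard hsub (hS'f.image _)).trans (Set.ncard_image_le hS'f)
  exact le_trans (by exact_mod_cast h1) hp

theorem line_count : type_of% @line_count_pr := @line_count_pr

end Pool.Agent.KSL
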