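import Pool.Agent.Lib_helper41.KSL.DefsN
import Pool.Agent.Lib_helper68.LEV.CNT

/-!
# KSN block NGE: the points that are not generic
-/

namespace Pool.Agent.KSL

open Pool.Agent.LVB Pool.Agent.LEV Complex MeasureTheory Filter Topology UpperHalfPlane ModularGroup
  ProbabilityTheory
open scoped MatrixGroups Modular ENNReal ModularForm ComplexConjugate ContDiff

/-- the line of the image of infinity is read off the bottom row -/
theorem NGE_pa_iff {N : ℕ} [Fact N.Prime] (q : PX N) (g : SL(2, ℤ)) :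
    pa g⁻¹ (OnePoint.infty : PX N) = q ↔ rowq q (g 1 0) (g 1 1) := by
  have e10 : (g⁻¹ : SL(2, ℤ)) 1 0 = -(g 1 0) := by
    rw [Matrix.SpecialLinearGroup.SL2_inv_expl]; rfl
  have e00 : (g⁻¹ : SL(2, ℤ)) 0 0 = g 1 1 := by
    rw [Matrix.SpecialLinearGroup.SL2_inv_expl]; rfl
  have hc : (((g⁻¹ : SL(2, ℤ)) 1 0 : ℤ) : ZMod N) = -((g 1 0 : ℤ) : ZMod N) := by
    rw [e10, Int.cast_neg]
  by_cases h : ((g 1 0 : ℤ) : ZMod N) = 0
  · have hpa : pa g⁻¹ (OnePoint.infty : PX N) = OnePoint.infty :=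
      (pa_inf (N := N) g⁻¹).trans (if_pos (by rw [hc, h, neg_zero]))
    rw [hpa]
    cases q with
    | none =>
      constructor
      · intro _
        exact h
      · intro _
        rfl
    | some x =>
      constructor
      · intro h1
        exact absurd h1.symm (OnePoint.coe_ne_infty x)
      · intro h1
        exfalso
        have h2 : ((g 1 0 : ℤ) : ZMod N) * x + ((g 1 1 : ℤ) : ZMod N) = 0 := h1
        rw [h, zero_mul, zero_add] at h2
        have hdet := g.det_coe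
        rw [Matrix.det_fin_two] at hdet
        have h3 : ((g 0 0 : ℤ) : ZMod N) * ((g 1 1 : ℤ) : ZMod N) -
            ((g 0 1 : ℤ) : ZMod N) * ((g 1 0 : ℤ) : ZMod N) = 1 := by
          have := congrArg (fun k : ℤ => (k : ZMod N)) hdet
          push_cast at this
          exact this
        rw [h, h2, mul_zero, mul_zero, sub_zero] at h3
        exact zero_ne_one h3
  · have hne : (((g⁻¹ : SL(2, ℤ)) 1 0 : ℤ) : ZMod N) ≠ 0 := by
      rw [hc]
      exact neg_ne_zero.2 h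
    have hpa : pa g⁻¹ (OnePoint.infty : PX N) =
        some (((g 1 1 : ℤ) : ZMod N) / (-((g 1 0 : ℤ) : ZMod N))) := by
      have h2 := (pa_inf (N := N) g⁻¹).trans (if_neg hne)
      rw [h2, hc, e00]
    rw [hpa]
    have h4 : -((g 1 0 : ℤ) : ZMod N) ≠ 0 := neg_ne_zero.2 h
    cases q with
    | none =>
      constructor
      · intro h1
        exact absurd h1 (OnePoint.coe_ne_infty _)
      · intro h1
        exact absurd h1 h
    | some x =>
      constructor
      · intro h1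
        have h2 : ((g 1 1 : ℤ) : ZMod N) / (-((g 1 0 : ℤ) : ZMod N)) = x := by
          exact Option.some.inj h1
        rw [div_eq_iff h4] at h2
        change ((g 1 0 : ℤ) : ZMod N) * x + ((g 1 1 : ℤ) : ZMod N) = 0
        rw [h2]
        ring
      · intro h1
        have h2 : ((g 1 0 : ℤ) : ZMod N) * x + ((g 1 1 : ℤ) : ZMod N) = 0 := h1
        have h3 : ((g 1 1 : ℤ) : ZMod N) / (-((g 1 0 : ℤ) : ZMod N)) = x := by
          rw [div_eq_iff h4]
          linear_combination h2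
        rw [h3]

/-- the first minimum of the lattice of a point of the fundamental domain -/
theorem NGE_min {z : ℍ} (hz : z ∈ 𝒟) {c d : ℤ} (hcd : ¬ (c = 0 ∧ d = 0)) :
    1 ≤ ‖(c : ℂ) * (z : ℂ) + (d : ℂ)‖ ^ 2 := by
  have h1 : 1 ≤ Complex.normSq (z : ℂ) := hz.1
  have h2 : |z.re| ≤ 1 / 2 := hz.2
  have h3 : ‖(c : ℂ) * (z : ℂ) + (d : ℂ)‖ ^ 2 =
      (c : ℝ) ^ 2 * Complex.normSq (z : ℂ) + 2 * c * d * z.re + (d : ℝ) ^ 2 := by
    rw [← Complex.normSq_eq_norm_sq, Complex.normSq_apply, Complex.normSq_apply]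
    simp only [Complex.add_re, Complex.add_im, Complex.mul_re, Complex.mul_im,
      Complex.intCast_re, Complex.intCast_im, UpperHalfPlane.coe_re, UpperHalfPlane.coe_im]
    ring
  rw [h3]
  have h4 : |2 * (c : ℝ) * d * z.re| ≤ |(c : ℝ)| * |(d : ℝ)| := by
    rw [abs_mul, abs_mul, abs_mul, abs_two]
    have h5 : (0 : ℝ) ≤ |(c : ℝ)| * |(d : ℝ)| := by positivity
    nlinarith
  have h5 := neg_abs_le (2 * (c : ℝ) * d * z.re)
  have h6 : (c : ℝ) ^ 2 ≤ (c : ℝ) ^ 2 * Complex.normSq (z : ℂ) := by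
    nlinarith [sq_nonneg (c : ℝ)]
  have h7 : (c : ℝ) ^ 2 = |(c : ℝ)| ^ 2 := (sq_abs _).symm
  have h8 : (d : ℝ) ^ 2 = |(d : ℝ)| ^ 2 := (sq_abs _).symm
  have h9 : (1 : ℝ) ≤ |(c : ℝ)| ^ 2 - |(c : ℝ)| * |(d : ℝ)| + |(d : ℝ)| ^ 2 := by
    have h10 : (1 : ℤ) ≤ |c| ^ 2 - |c| * |d| + |d| ^ 2 := by
      have hc := abs_nonneg c
      have hd := abs_nonneg d
      rcases hc.eq_or_lt with h | h
      · rcases hd.eq_or_lt with h' | h'
        · exact absurd ⟨abs_eq_zero.1 h.symm, abs_eq_zero.1 h'.symm⟩ hcd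
        · rw [← h]; nlinarith
      · rcases hd.eq_or_lt with h' | h'
        · rw [← h']; nlinarith
        · nlinarith [sq_nonneg (|c| - |d|), mul_pos h h']
    have h11 : ((1 : ℤ) : ℝ) ≤ ((|c| ^ 2 - |c| * |d| + |d| ^ 2 : ℤ) : ℝ) := by exact_mod_cast h10
    push_cast at h11
    exact h11
  nlinarith

theorem non_generic_pr {N : ℕ} [Fact N.Prime] (q : PX N) (z : ℍ) (hz : z ∈ 𝒟) {c₀ : ℝ} (h0 : 0 < c₀)
    (h1 : c₀ ≤ 1) {c d : ℤ} (hcd : (c, d) ≠ (0, 0)) (hq : rowq q c d)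
    (h : ‖(c : ℂ) * (z : ℂ) + (d : ℂ)‖ ^ 2 < c₀ ^ 2 * N * z.im) :
    (N : ℝ) < z.im ∨
      2 ≤ {g : SL(2, ℤ) | pa g⁻¹ (OnePoint.infty : PX N) = q ∧ 0 ≤ (g • z).re ∧ (g • z).re < 1 ∧
        1 / (c₀ ^ 2 * N) ≤ (g • z).im}.ncard := by
  have hN : (0 : ℝ) < N := by exact_mod_cast (Fact.out : N.Prime).pos
  have hne : ¬ (c = 0 ∧ d = 0) := by
    rintro ⟨h2, h3⟩
    exact hcd (by rw [h2, h3])
  -- the greatest common divisor
  set k : ℕ := Int.gcd c d with hk
  have hkpos : 0 < k := by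
    rcases Nat.eq_zero_or_pos k with h2 | h2
    · exact absurd (Int.gcd_eq_zero_iff.1 h2) hne
    · exact h2
  obtain ⟨u, hu⟩ : (k : ℤ) ∣ c := Int.gcd_dvd_left ..
  obtain ⟨v, hv⟩ : (k : ℤ) ∣ d := Int.gcd_dvd_right ..
  have hk0 : (k : ℤ) ≠ 0 := by exact_mod_cast hkpos.ne'
  have huv : IsCoprime u v := by
    rw [Int.isCoprime_iff_gcd_eq_one]
    have h2 : Int.gcd ((k : ℤ) * u) ((k : ℤ) * v) = k * Int.gcd u v := by
      rw [Int.gcd_mul_left, Int.natAbs_natCast]
    rw [← hu, ← hv, ← hk] at h2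
    have h3 : k * 1 = k * Int.gcd u v := by omega
    exact (Nat.eq_of_mul_eq_mul_left hkpos h3).symm
  have huv0 : ¬ (u = 0 ∧ v = 0) := by
    rintro ⟨h2, h3⟩
    rw [h2, h3] at huv
    exact (not_isCoprime_zero_zero huv)
  have hnorm : ‖(c : ℂ) * (z : ℂ) + (d : ℂ)‖ ^ 2 =
      (k : ℝ) ^ 2 * ‖(u : ℂ) * (z : ℂ) + (v : ℂ)‖ ^ 2 := by
    have h2 : (c : ℂ) * (z : ℂ) + (d : ℂ) = (k : ℂ) * ((u : ℂ) * (z : ℂ) + (v : ℂ)) := by
      rw [hu, hv]
      push_cast
      ring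
    rw [h2, norm_mul, mul_pow, Complex.norm_natCast]
  have hmin := NGE_min hz huv0
  have hk1 : (1 : ℝ) ≤ (k : ℝ) := by exact_mod_cast hkpos
  by_cases hrow : rowq q u v
  · right
    obtain ⟨g, _, hg⟩ := bottom_row_surj (R := ℤ) (a := ![u, v]) (by simpa using huv)
    have hg0 : g 1 0 = u := by
      have := congrFun hg 0
      simpa using this
    have hg1 : g 1 1 = v := by
      have := congrFun hg 1
      simpa using this
    set n : ℤ := -⌊(g • z).re⌋ with hn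
    have hr := Pool.Agent.GL2.RSA_T_row n g
    set g' : SL(2, ℤ) := ModularGroup.T ^ n * g with hg'
    have hpa : pa g'⁻¹ (OnePoint.infty : PX N) = q := by
      rw [NGE_pa_iff, hr.1, hr.2, hg0, hg1]
      exact hrow
    have hre : 0 ≤ (g' • z).re ∧ (g' • z).re < 1 := by
      rw [hg', mul_smul, re_T_zpow_smul, hn]
      push_cast
      constructor
      · linarith [Int.floor_le (g • z).re]
      · linarith [Int.lt_floor_add_one (g • z).re]
    have him : 1 / (c₀ ^ 2 * N) ≤ (g' • z).im := by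
      rw [Pool.Agent.GL2.RSA_im_smul, hr.1, hr.2, hg0, hg1]
      rw [hnorm] at h
      have h5 : 0 < ‖(u : ℂ) * (z : ℂ) + (v : ℂ)‖ ^ 2 := by linarith
      rw [div_le_div_iff₀ (by positivity) h5, one_mul]
      have h6 : ‖(u : ℂ) * (z : ℂ) + (v : ℂ)‖ ^ 2 ≤
          (k : ℝ) ^ 2 * ‖(u : ℂ) * (z : ℂ) + (v : ℂ)‖ ^ 2 :=
        le_mul_of_one_le_left h5.le (by nlinarith)
      linarith
    have hneg : (-g') • z = g' • z := ModularGroup.SL_neg_smul g' z
    have hmem : g' ∈ {g : SL(2, ℤ) | pa g⁻¹ (OnePoint.infty : PX N) = q ∧ 0 ≤ (g • z).re ∧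
        (g • z).re < 1 ∧ 1 / (c₀ ^ 2 * N) ≤ (g • z).im} := ⟨hpa, hre.1, hre.2, him⟩
    have hmem' : -g' ∈ {g : SL(2, ℤ) | pa g⁻¹ (OnePoint.infty : PX N) = q ∧ 0 ≤ (g • z).re ∧
        (g • z).re < 1 ∧ 1 / (c₀ ^ 2 * N) ≤ (g • z).im} := by
      refine ⟨?_, ?_, ?_, ?_⟩
      · have h6 : (-g')⁻¹ = -(g'⁻¹) := by
          rw [inv_eq_iff_mul_eq_one, neg_mul_neg, mul_inv_cancel]
        rw [h6, pa_neg]
        exact hpa
      · rw [hneg]; exact hre.1
      · rw [hneg]; exact hre.2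
      · rw [hneg]; exact him
    have hfin := (count_strip (N := N) z (R := c₀ ^ 2 * N) (by positivity) q).1
    have hne' : g' ≠ -g' := by
      intro h7
      have h8 : ∀ i j : Fin 2, (g' i j : ℤ) = -(g' i j) := by
        intro i j
        have h9 := congrArg (fun m : SL(2, ℤ) => m i j) h7
        simpa using h9
      have h9 : g' 1 0 = 0 := by have := h8 1 0; omega
      have h10 : g' 1 1 = 0 := by have := h8 1 1; omega
      rw [hr.1, hg0] at h9
      rw [hr.2, hg1] at h10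
      exact huv0 ⟨h9, h10⟩
    have hpair : ({g', -g'} : Set SL(2, ℤ)) ⊆ {g : SL(2, ℤ) | pa g⁻¹ (OnePoint.infty : PX N) = q ∧
        0 ≤ (g • z).re ∧ (g • z).re < 1 ∧ 1 / (c₀ ^ 2 * N) ≤ (g • z).im} := by
      intro x hx
      rcases hx with hx | hx
      · rw [hx]; exact hmem
      · rw [Set.mem_singleton_iff.1 hx]; exact hmem'
    calc 2 = ({g', -g'} : Set SL(2, ℤ)).ncard := (Set.ncard_pair hne').symm
      _ ≤ _ := Set.ncard_le_ncard hpair hfin
  · left
    have hkN : ((k : ℤ) : ZMod N) = 0 := by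
      by_contra hk2
      apply hrow
      cases q with
      | none =>
        have h2 : ((c : ℤ) : ZMod N) = 0 := hq
        rw [hu] at h2
        push_cast at h2 hk2
        change (u : ZMod N) = 0
        exact (mul_eq_zero.1 h2).resolve_left hk2
      | some x =>
        have h2 : ((c : ℤ) : ZMod N) * x + ((d : ℤ) : ZMod N) = 0 := hq
        rw [hu, hv] at h2
        push_cast at h2 hk2
        change (u : ZMod N) * x + (v : ZMod N) = 0
        have h3 : (k : ZMod N) * ((u : ZMod N) * x + (v : ZMod N)) = 0 := by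
          linear_combination h2
        exact (mul_eq_zero.1 h3).resolve_left hk2
    have hdvd : N ∣ k := by
      have h2 := (ZMod.intCast_zmod_eq_zero_iff_dvd _ N).1 hkN
      exact_mod_cast h2
    have hle : (N : ℝ) ≤ k := by exact_mod_cast Nat.le_of_dvd hkpos hdvd
    rw [hnorm] at h
    have h4 : (N : ℝ) ^ 2 ≤ (k : ℝ) ^ 2 := by nlinarith
    have h5 : (N : ℝ) ^ 2 < c₀ ^ 2 * N * z.im := by nlinarith
    have h6 : (N : ℝ) < c₀ ^ 2 * z.im := by
      have h7 : (N : ℝ) * N < N * (c₀ ^ 2 * z.im) := by nlinarith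
      exact lt_of_mul_lt_mul_left h7 hN.le
    have h7 : c₀ ^ 2 ≤ 1 := by nlinarith
    have h8 := z.im_pos
    nlinarith

theorem non_generic : type_of% @non_generic_pr := @non_generic_pr

end Pool.Agent.KSL
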