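import Pool.Agent.Lib_helper41.KSL.DefsN
import Pool.Agent.Lib_helper68.LEV.CNT

/-!
# Block SCN: the multiplicity of the strip is at most a number of primitive rows
-/

namespace Pool.Agent.KSL

open Pool.Agent.LVB Pool.Agent.LEV Complex MeasureTheory Filter Topology UpperHalfPlane ModularGroup
  ProbabilityTheory
open scoped MatrixGroups Modular ENNReal ModularForm ComplexConjugate ContDiff

theorem SCN_row {N : ℕ} [Fact N.Prime] (g : SL(2, ℤ)) (q : PX N)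
    (h : pa g⁻¹ (OnePoint.infty : PX N) = q) : rowq q (g 1 0) (g 1 1) := by
  have e10 : (g⁻¹ : SL(2, ℤ)) 1 0 = -(g 1 0) := by
    rw [Matrix.SpecialLinearGroup.SL2_inv_expl]; rfl
  have e00 : (g⁻¹ : SL(2, ℤ)) 0 0 = g 1 1 := by
    rw [Matrix.SpecialLinearGroup.SL2_inv_expl]; rfl
  have h3 := pa_inf (N := N) g⁻¹
  by_cases h0 : (((g⁻¹ : SL(2, ℤ)) 1 0 : ℤ) : ZMod N) = 0
  · have h4 : q = OnePoint.infty := by
      rw [← h, h3]
      exact if_pos h0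
    subst h4
    change ((g 1 0 : ℤ) : ZMod N) = 0
    rw [e10, Int.cast_neg, neg_eq_zero] at h0
    exact h0
  · have h4 : q = some ((((g⁻¹ : SL(2, ℤ)) 0 0 : ℤ) : ZMod N) /
        (((g⁻¹ : SL(2, ℤ)) 1 0 : ℤ) : ZMod N)) := by
      rw [← h, h3]
      exact if_neg h0
    rw [e10, e00, Int.cast_neg] at h4
    rw [e10, Int.cast_neg, neg_eq_zero] at h0
    rw [h4]
    change ((g 1 0 : ℤ) : ZMod N) * (((g 1 1 : ℤ) : ZMod N) / (-((g 1 0 : ℤ) : ZMod N))) +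
      ((g 1 1 : ℤ) : ZMod N) = 0
    rw [div_neg, mul_neg, mul_div_cancel₀ _ h0]
    ring

/-- the multiplicity of the strip is a number of primitive rows -/
theorem strip_rows_pr {N : ℕ} [Fact N.Prime] (q : PX N) (z : ℍ) {R : ℝ} (hR : 0 < R)
    (hfin : {p : ℤ × ℤ | IsCoprime p.1 p.2 ∧ rowq q p.1 p.2 ∧
      ‖(p.1 : ℂ) * (z : ℂ) + (p.2 : ℂ)‖ ^ 2 ≤ R * z.im}.Finite) :
    {g : SL(2, ℤ) | pa g⁻¹ (OnePoint.infty : PX N) = q ∧ 0 ≤ (g • z).re ∧ (g • z).re < 1 ∧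
      1 / R ≤ (g • z).im}.ncard ≤ {p : ℤ × ℤ | IsCoprime p.1 p.2 ∧ rowq q p.1 p.2 ∧
      ‖(p.1 : ℂ) * (z : ℂ) + (p.2 : ℂ)‖ ^ 2 ≤ R * z.im}.ncard := by
  refine Set.ncard_le_ncard_of_injOn (fun g : SL(2, ℤ) => ((g 1 0 : ℤ), (g 1 1 : ℤ))) ?_ ?_ hfin
  · intro g hg
    refine ⟨bottom_row_coprime g, SCN_row g q hg.1, ?_⟩
    have h1 := hg.2.2.2
    rw [Pool.Agent.GL2.RSA_im_smul] at h1
    have h2 : ((g 1 0 : ℤ) * (z : ℂ) + (g 1 1 : ℤ)) ≠ 0 := Pool.Agent.GL2.RSA_denom_ne g z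
    have h3 : 0 < ‖((g 1 0 : ℤ) * (z : ℂ) + (g 1 1 : ℤ))‖ ^ 2 := by
      have := norm_pos_iff.2 h2
      positivity
    rw [div_le_div_iff₀ hR h3, one_mul] at h1
    linarith
  · intro g hg g' hg' he
    simp only [Prod.mk.injEq] at he
    exact CNT_same ⟨he.1, he.2⟩ hg'.2.1 hg'.2.2.1 hg.2.1 hg.2.2.1

theorem strip_rows : type_of% @strip_rows_pr := @strip_rows_pr

end Pool.Agent.KSL
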