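import Pool.Agent.Lib_helper41.KSL.DefsN
import Pool.Agent.Lib_helper68.LEV.LSC
import Pool.Agent.Lib_helper68.LEV.EIA

/-! Block SMI: the strip integral in terms of `sm`. -/

set_option autoImplicit false

namespace Pool.Agent.KSL

open Pool.Agent.LVB Pool.Agent.LEV Complex MeasureTheory Filter Topology UpperHalfPlane ModularGroup
  ProbabilityTheory
open scoped MatrixGroups Modular ENNReal ModularForm ComplexConjugate ContDiff

theorem SMI_la {N : ℕ} [Fact N.Prime] {f : S2 N} (hf : IsNew f) (n : ℕ) :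
    ‖co f n‖ ^ 2 / n = la f n ^ 2 := by
  have h1 : ‖co f n‖ ^ 2 = (co f n).re ^ 2 := by
    rw [← Complex.normSq_eq_norm_sq, Complex.normSq_apply, new_real hf n]
    ring
  unfold la
  rw [h1, div_pow, Real.sq_sqrt (Nat.cast_nonneg n)]

theorem sm_strip_pr {N : ℕ} [Fact N.Prime] {f : S2 N} (hf : IsNew f) {R : ℝ} (hR : 0 < R) :
    Summable (fun n : ℕ => la f n ^ 2 * Real.exp (-4 * Real.pi * n / R)) ∧
    ∫⁻ z in {z : ℍ | 0 ≤ z.re ∧ z.re < 1 ∧ 1 / R ≤ z.im}, ‖f z‖ₑ ^ 2 * ENNReal.ofReal (z.im ^ 2) =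
      ENNReal.ofReal (sm f R / (4 * Real.pi)) := by
  have hpi := Real.pi_pos
  have hY : 0 < 1 / R := by positivity
  obtain ⟨s, e⟩ := strip_sum f hY
  have h1 : ∀ n : ℕ, ‖co f n‖ ^ 2 / (4 * Real.pi * n) * Real.exp (-4 * Real.pi * n * (1 / R)) =
      (la f n ^ 2 * Real.exp (-4 * Real.pi * n / R)) * (1 / (4 * Real.pi)) := by
    intro n
    rw [← SMI_la hf n]
    have e1 : -4 * Real.pi * n * (1 / R) = -4 * Real.pi * n / R := by ring
    rw [e1]
    rcases Nat.eq_zero_or_pos n with h0 | h0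
    · subst h0
      simp
    · have hn : (n : ℝ) ≠ 0 := by exact_mod_cast h0.ne'
      field_simp
  simp_rw [h1] at s e
  refine ⟨?_, ?_⟩
  · have h2 := s.mul_right (4 * Real.pi)
    refine h2.congr fun n => ?_
    field_simp
  · rw [e, tsum_mul_right]
    unfold sm
    congr 1
    ring

theorem sm_strip : type_of% @sm_strip_pr := @sm_strip_pr

end Pool.Agent.KSL
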