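import Pool.Agent.Lib_helper41.KSL.DefsN
import Pool.Agent.Lib_helper68.LEV.LSC
import Pool.Agent.Lib_helper41.KSNF.LMC
import Pool.Agent.Lib_helper41.KSNF.NGE
import Pool.Agent.Lib_helper41.KSNF.SCN
import Pool.Agent.Lib_helper41.KSNF.SMI

/-! Block SML: the wide strip in terms of the norm. -/

set_option autoImplicit false

namespace Pool.Agent.KSL

open Pool.Agent.LVB Pool.Agent.LEV Complex MeasureTheory Filter Topology UpperHalfPlane ModularGroup
  ProbabilityTheory
open scoped MatrixGroups Modular ENNReal ModularForm ComplexConjugate ContDiff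

section
variable {N : ℕ} [Fact N.Prime]

/-- the multiplicity set of the strip -/
def SML_set (q : PX N) (z : ℍ) (R : ℝ) : Set SL(2, ℤ) :=
  {g : SL(2, ℤ) | pa g⁻¹ (OnePoint.infty : PX N) = q ∧ 0 ≤ (g • z).re ∧ (g • z).re < 1 ∧
      1 / R ≤ (g • z).im}

/-- the density of the energy -/
noncomputable def SML_c (f : S2 N) (q : PX N) (z : ℍ) : ℝ≥0∞ :=
  ‖fam f q z‖ₑ ^ 2 * ENNReal.ofReal (z.im ^ 2)

theorem SML_cm (f : S2 N) (q : PX N) : Measurable (SML_c f q) := by
  have him : Continuous fun z : ℍ => z.im := UpperHalfPlane.continuous_im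
  exact ((fam_cont f q).measurable.enorm.pow_const 2).mul (him.pow 2).measurable.ennreal_ofReal

/-- the unfolded strip integral -/
theorem SML_unf (f : S2 N) {R : ℝ} (hR : 0 < R) :
    ∫⁻ z in 𝒟ᵒ, ∑ q : PX N, ((SML_set q z R).ncard : ℝ≥0∞) * SML_c f q z =
      2 * ∫⁻ z in {z : ℍ | 0 ≤ z.re ∧ z.re < 1 ∧ 1 / R ≤ z.im},
        ‖f z‖ₑ ^ 2 * ENNReal.ofReal (z.im ^ 2) := by
  have hfc := LSC_f_cont f
  set Str : Set ℍ := {z : ℍ | 0 ≤ z.re ∧ z.re < 1 ∧ 1 / R ≤ z.im} with hStr
  have hms : MeasurableSet Str := by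
    refine (measurableSet_le measurable_const UpperHalfPlane.continuous_re.measurable).inter
      ((measurableSet_lt UpperHalfPlane.continuous_re.measurable measurable_const).inter
        (measurableSet_le measurable_const UpperHalfPlane.continuous_im.measurable))
  have him : Continuous fun z : ℍ => z.im := UpperHalfPlane.continuous_im
  set G : ℍ → ℝ≥0∞ := Str.indicator (fun z => ‖f z‖ₑ ^ 2 * ENNReal.ofReal (z.im ^ 2)) with hG
  have hGm : Measurable G :=
    ((hfc.measurable.enorm.pow_const 2).mul (him.pow 2).measurable.ennreal_ofReal).indicator hms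
  have hpt : ∀ z : ℍ, ∑ q : PX N, ((SML_set q z R).ncard : ℝ≥0∞) * SML_c f q z =
      ∑' g : SL(2, ℤ), G (g • z) := by
    intro z
    classical
    have e1 : ∀ g : SL(2, ℤ), G (g • z) = ∑ q : PX N,
        (if pa g⁻¹ (OnePoint.infty : PX N) = q ∧ 0 ≤ (g • z).re ∧ (g • z).re < 1 ∧
          1 / R ≤ (g • z).im then SML_c f q z else 0) := by
      intro g
      by_cases hg : g • z ∈ Str
      · rw [hG, Set.indicator_of_mem hg, LSC_inv]
        rw [Finset.sum_eq_single (pa g⁻¹ (OnePoint.infty : PX N))]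
        · rw [if_pos ⟨rfl, hg⟩]
          rfl
        · intro q _ hq
          rw [if_neg]
          rintro ⟨h, -⟩
          exact hq h.symm
        · intro h
          exact absurd (Finset.mem_univ _) h
      · rw [hG, Set.indicator_of_notMem hg, Finset.sum_eq_zero]
        intro q _
        rw [if_neg]
        rintro ⟨-, h⟩
        exact hg h
    simp_rw [e1]
    rw [Summable.tsum_finsetSum (fun q _ => ENNReal.summable)]
    refine Finset.sum_congr rfl fun q _ => ?_
    obtain ⟨hfin, -⟩ := count_strip z hR q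
    rw [tsum_eq_sum (s := hfin.toFinset)]
    · have e2 : (SML_set q z R).ncard = hfin.toFinset.card := Set.ncard_eq_toFinset_card _ hfin
      rw [e2, ← nsmul_eq_mul, ← Finset.sum_const]
      refine Finset.sum_congr rfl fun g hg => ?_
      have hg' := hfin.mem_toFinset.mp hg
      exact (if_pos hg').symm
    · intro g hg
      rw [if_neg]
      intro h
      exact hg (hfin.mem_toFinset.mpr h)
  have hun := Pool.Agent.GL2.RSA_unfold G hGm
  rw [lintegral_congr hpt, hun, ← lintegral_indicator hms]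

/-- the energy above height `N` -/
theorem SML_cusp (f : S2 N) : ENNReal.ofReal (cuspm f) =
    ∫⁻ z in 𝒟ᵒ, ∑ q : PX N, {z : ℍ | (N : ℝ) < z.im}.indicator (SML_c f q) z := by
  have him : Continuous fun z : ℍ => z.im := UpperHalfPlane.continuous_im
  have hms : MeasurableSet {z : ℍ | (N : ℝ) < z.im} :=
    measurableSet_lt measurable_const him.measurable
  rw [lintegral_finsetSum _ fun q _ => (SML_cm f q).indicator hms]
  have e1 : ∀ q : PX N, ∫⁻ z in 𝒟ᵒ, {z : ℍ | (N : ℝ) < z.im}.indicator (SML_c f q) z =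
      ∫⁻ z in 𝒟ᵒ ∩ {z : ℍ | (N : ℝ) < z.im}, ‖fam f q z‖ₑ ^ 2 * ENNReal.ofReal (z.im ^ 2) := by
    intro q
    rw [setLIntegral_indicator hms, Set.inter_comm]
    rfl
  simp_rw [e1]
  rw [cuspm, ENNReal.ofReal_toReal]
  refine ne_top_of_le_ne_top ?_ (Finset.sum_le_sum fun q _ =>
    lintegral_mono_set (μ := volume) (Set.inter_subset_left (s := 𝒟ᵒ) (t := {z : ℍ | (N : ℝ) < z.im})))
  change en (fam f) ≠ ⊤
  rw [← nr_en]
  exact ENNReal.ofReal_ne_top

end

theorem sm_le_pr {c₀ ε : ℝ} (h0 : 0 < c₀) (h1 : c₀ ≤ 1) (hε : 0 < ε) : ∃ C₁ : ℝ, 1 ≤ C₁ ∧ ∀ C : ℝ,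
    C₁ ≤ C → ∀ (N : ℕ) [Fact N.Prime] (f : S2 N), IsNew f →
      sm f (C * N) / (4 * Real.pi) ≤ 3 * C / Real.pi * (1 + ε) * nr f +
        (1 + 4 * C) * (sm f (c₀ ^ 2 * N) / (4 * Real.pi) + cuspm f) := by
  obtain ⟨C₁, hC₁⟩ := line_count h0 hε
  refine ⟨max C₁ 1, le_max_right _ _, fun C hC N _ f hf => ?_⟩
  have hC1 : C₁ ≤ C := (le_max_left _ _).trans hC
  have hC0 : 1 ≤ C := (le_max_right _ _).trans hC
  have hN : (0 : ℝ) < N := by exact_mod_cast (Fact.out : N.Prime).pos
  have hpi := Real.pi_pos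
  have him : Continuous fun z : ℍ => z.im := UpperHalfPlane.continuous_im
  have hms : MeasurableSet {z : ℍ | (N : ℝ) < z.im} :=
    measurableSet_lt measurable_const him.measurable
  have hR1 : 0 < C * N := by positivity
  have hR2 : 0 < c₀ ^ 2 * N := by positivity
  have hnn : ∀ R : ℝ, 0 ≤ sm f R / (4 * Real.pi) := fun R =>
    div_nonneg (tsum_nonneg fun n => by positivity) (by positivity)
  have hcn : 0 ≤ cuspm f := ENNReal.toReal_nonneg
  have hnr := LSC_nr_nonneg f
  set K1 : ℝ≥0∞ := ENNReal.ofReal (6 / Real.pi * (1 + ε) * C) with hK1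
  set K2 : ℝ≥0∞ := ENNReal.ofReal (1 + 4 * C) with hK2
  -- the pointwise inequality
  have hpt : ∀ z ∈ (𝒟ᵒ : Set ℍ), ∀ q : PX N, ((SML_set q z (C * N)).ncard : ℝ≥0∞) * SML_c f q z ≤
      K1 * SML_c f q z + (K2 * (2 * {z : ℍ | (N : ℝ) < z.im}.indicator (SML_c f q) z) +
        K2 * (((SML_set q z (c₀ ^ 2 * N)).ncard : ℝ≥0∞) * SML_c f q z)) := by
    intro z hz q
    have hzD : z ∈ 𝒟 := fdo_subset_fd hz
    by_cases hg : ∀ c d : ℤ, (c, d) ≠ (0, 0) → rowq q c d →
        c₀ ^ 2 * N * z.im ≤ ‖(c : ℂ) * (z : ℂ) + (d : ℂ)‖ ^ 2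
    · obtain ⟨hfin, hcard⟩ := hC₁ C hC1 N q z hg
      have h2 := strip_rows q z hR1 hfin
      refine le_trans ?_ le_self_add
      refine mul_le_mul' ?_ le_rfl
      rw [hK1, ← ENNReal.ofReal_natCast]
      refine ENNReal.ofReal_le_ofReal ?_
      refine le_trans ?_ hcard
      exact_mod_cast h2
    · push Not at hg
      obtain ⟨c, d, hcd, hq, hlt⟩ := hg
      have h2 := (count_strip (N := N) z hR1 q).2
      have h3 : ((SML_set q z (C * N)).ncard : ℝ≥0∞) ≤ K2 * 2 := by
        rw [hK2, ← ENNReal.ofReal_natCast, ← ENNReal.ofReal_ofNat 2, ← ENNReal.ofReal_mul (by positivity)]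
        refine ENNReal.ofReal_le_ofReal (le_trans h2 (le_of_eq ?_))
        field_simp
      have h4 : ((SML_set q z (C * N)).ncard : ℝ≥0∞) * SML_c f q z ≤ K2 * (2 * SML_c f q z) := by
        rw [← mul_assoc]
        exact mul_le_mul' h3 le_rfl
      refine h4.trans (le_trans ?_ le_add_self)
      rcases non_generic q z hzD h0 h1 hcd hq hlt with h5 | h5
      · refine le_trans ?_ le_self_add
        rw [Set.indicator_of_mem (by exact h5)]
      · refine le_trans ?_ le_add_self
        refine mul_le_mul' le_rfl (mul_le_mul' ?_ le_rfl)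
        exact_mod_cast h5
  have hmain : ∫⁻ z in 𝒟ᵒ, ∑ q : PX N, ((SML_set q z (C * N)).ncard : ℝ≥0∞) * SML_c f q z ≤
      K1 * ENNReal.ofReal (nr f) + (K2 * (2 * ENNReal.ofReal (cuspm f)) +
        K2 * (2 * ENNReal.ofReal (sm f (c₀ ^ 2 * N) / (4 * Real.pi)))) := by
    calc ∫⁻ z in 𝒟ᵒ, ∑ q : PX N, ((SML_set q z (C * N)).ncard : ℝ≥0∞) * SML_c f q z
        ≤ ∫⁻ z in 𝒟ᵒ, (K1 * ∑ q : PX N, SML_c f q z +
          (K2 * (2 * ∑ q : PX N, {z : ℍ | (N : ℝ) < z.im}.indicator (SML_c f q) z) +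
            K2 * ∑ q : PX N, ((SML_set q z (c₀ ^ 2 * N)).ncard : ℝ≥0∞) * SML_c f q z)) := by
          refine setLIntegral_mono' isOpen_fdo.measurableSet fun z hz => ?_
          refine (Finset.sum_le_sum fun q _ => hpt z hz q).trans (le_of_eq ?_)
          rw [Finset.sum_add_distrib, Finset.sum_add_distrib, Finset.mul_sum, Finset.mul_sum,
            Finset.mul_sum, Finset.mul_sum]
      _ = K1 * ENNReal.ofReal (nr f) + (K2 * (2 * ENNReal.ofReal (cuspm f)) +
        K2 * (2 * ENNReal.ofReal (sm f (c₀ ^ 2 * N) / (4 * Real.pi)))) := by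
          rw [lintegral_add_left, lintegral_add_left, lintegral_const_mul, lintegral_const_mul',
            lintegral_const_mul', lintegral_const_mul', SML_unf f hR2, (sm_strip hf hR2).2,
            ← SML_cusp, nr_en, lintegral_finsetSum _ fun q _ => SML_cm f q]
          · rfl
          all_goals first
            | exact ENNReal.ofReal_ne_top
            | exact ENNReal.ofNat_ne_top
            | exact Finset.measurable_fun_sum _ fun q _ => SML_cm f q
            | exact (Finset.measurable_fun_sum _ fun q _ => SML_cm f q).const_mul _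
            | exact ((Finset.measurable_fun_sum _ fun q _ =>
                (SML_cm f q).indicator hms).const_mul _).const_mul _
  rw [SML_unf f hR1, (sm_strip hf hR1).2, hK1, hK2] at hmain
  rw [← ENNReal.ofReal_ofNat 2, ← ENNReal.ofReal_mul (by positivity),
    ← ENNReal.ofReal_mul (by positivity), ← ENNReal.ofReal_mul (by positivity),
    ← ENNReal.ofReal_mul (by positivity), ← ENNReal.ofReal_mul (by positivity),
    ← ENNReal.ofReal_mul (by positivity), ← ENNReal.ofReal_add, ← ENNReal.ofReal_add,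
    ENNReal.ofReal_le_ofReal_iff] at hmain
  · have e1 : 6 / Real.pi * (1 + ε) * C * nr f = 2 * (3 * C / Real.pi * (1 + ε) * nr f) := by ring
    rw [e1] at hmain
    have h2 := hnn (C * N)
    linarith
  all_goals
    have h3 := hnn (c₀ ^ 2 * N)
    have h4 := hnn (C * N)
    positivity

theorem sm_le : type_of% @sm_le_pr := @sm_le_pr

end Pool.Agent.KSL
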