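import Pool.Agent.Lib_helper41.KSL.DefsN
import Pool.Agent.Lib_helper68.LEV.EIA
import Pool.Agent.Lib_helper41.KSNF.BME
import Pool.Agent.Lib_helper41.KSNF.SML

namespace Pool.Agent.KSL

open Pool.Agent.LVB Pool.Agent.LEV Complex MeasureTheory Filter Topology UpperHalfPlane ModularGroup
  ProbabilityTheory
open scoped MatrixGroups Modular ENNReal ModularForm ComplexConjugate ContDiff

theorem NRS_sm0 {N : ℕ} (f : S2 N) (R : ℝ) : 0 ≤ sm f R :=
  tsum_nonneg fun _ => mul_nonneg (sq_nonneg _) (Real.exp_pos _).le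

theorem NRS_cu0 {N : ℕ} [Fact N.Prime] (f : S2 N) : 0 ≤ cuspm f := ENNReal.toReal_nonneg

theorem NRS_om0 {N : ℕ} [Fact N.Prime] {f : S2 N} (hf : IsNew f) : 0 ≤ om f := by
  have := nr_pos (new_ne_zero_pr hf)
  unfold om
  positivity

/-- for most forms the norm is bounded below by the wide strip -/
theorem nr_strip_pr {ε : ℝ} (hε : 0 < ε) : ∃ C₁ : ℝ, 1 ≤ C₁ ∧ ∀ C : ℝ, C₁ ≤ C → ∃ N₀ : ℕ,
    ∀ (N : ℕ) [Fact N.Prime], N₀ ≤ N → ∀ {ι : Type} [Fintype ι] (f : ι → S2 N),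
    Function.Injective f → (∀ i, IsNew (f i)) → ∀ s : Finset ι,
    (∀ i ∈ s, 12 * C * (1 + ε) * nr (f i) + ε * C * N < sm (f i) (C * N)) →
      ∑ i ∈ s, om (f i) ≤ ε := by
  obtain ⟨D, hD⟩ := bad_mean
  have hpi := Real.pi_pos
  -- the parameter c₀
  set E : ℝ := 20 * Real.pi * (|D| + 1) / ε with hE
  have hE0 : 0 < E := by positivity
  set c₀ : ℝ := min 1 (ε / (2 * E)) with hc
  have hc0 : 0 < c₀ := lt_min one_pos (by positivity)
  have hc1 : c₀ ≤ 1 := min_le_left _ _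
  have hc2 : c₀ ^ 2 ≤ ε / (2 * E) := by
    have h1 : c₀ ^ 2 ≤ c₀ := by nlinarith
    exact h1.trans (min_le_right _ _)
  obtain ⟨C₁, hC₁, hsm⟩ := sm_le hc0 hc1 hε
  refine ⟨C₁, hC₁, fun C hC => ?_⟩
  obtain ⟨N₀, hN₀⟩ := exists_nat_gt (2 * E / ε)
  refine ⟨N₀ + 1, fun N _ hN ι _ f hi hn s hs => ?_⟩
  have hC1 : 1 ≤ C := hC₁.trans hC
  have hN0 : (0 : ℝ) < N := by exact_mod_cast (by omega : 0 < N)
  have hNN : 2 * E / ε < N := lt_of_lt_of_le hN₀ (by exact_mod_cast (by omega : N₀ ≤ N))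
  have hb := hD c₀ hc0 hc1 N f hi hn
  -- the bad part is large on s
  have hbad : ∀ i ∈ s, ε * N / (20 * Real.pi) ≤ sm (f i) (c₀ ^ 2 * N) / (4 * Real.pi) + cuspm (f i) := by
    intro i his
    have h1 := hsm C hC N (f i) (hn i)
    have h2 := hs i his
    set b := sm (f i) (c₀ ^ 2 * N) / (4 * Real.pi) + cuspm (f i) with hbdef
    have hb0 : 0 ≤ b := add_nonneg (div_nonneg (NRS_sm0 _ _) (by positivity)) (NRS_cu0 _)
    have h3 : sm (f i) (C * N) ≤ 12 * C * (1 + ε) * nr (f i) + 4 * Real.pi * (1 + 4 * C) * b := by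
      rw [div_le_iff₀ (by positivity)] at h1
      refine h1.trans (le_of_eq ?_)
      field_simp
      ring
    have h4 : ε * C * N < 4 * Real.pi * (1 + 4 * C) * b := by linarith
    have h5 : 4 * Real.pi * (1 + 4 * C) * b ≤ 4 * Real.pi * (5 * C) * b := by
      have : 4 * Real.pi * (1 + 4 * C) ≤ 4 * Real.pi * (5 * C) := by nlinarith
      exact mul_le_mul_of_nonneg_right this hb0
    have h6 : C * (ε * N) < C * (20 * Real.pi * b) := by nlinarith
    have h7 := lt_of_mul_lt_mul_left h6 (by linarith)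
    rw [div_le_iff₀ (by positivity)]
    linarith
  have hsum : ε * N / (20 * Real.pi) * ∑ i ∈ s, om (f i) ≤ D * (c₀ ^ 2 * N + 1) := by
    refine le_trans ?_ hb
    rw [Finset.mul_sum]
    refine le_trans (Finset.sum_le_sum (g := fun i => om (f i) * (sm (f i) (c₀ ^ 2 * N) / (4 * Real.pi) + cuspm (f i)))
      fun i his => ?_) ?_
    · rw [mul_comm]
      exact mul_le_mul_of_nonneg_left (hbad i his) (NRS_om0 (hn i))
    · refine Finset.sum_le_sum_of_subset_of_nonneg (Finset.subset_univ s) fun i _ _ => ?_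
      exact mul_nonneg (NRS_om0 (hn i)) (add_nonneg (div_nonneg (NRS_sm0 _ _) (by positivity)) (NRS_cu0 _))
  have hD' : D * (c₀ ^ 2 * N + 1) ≤ (|D| + 1) * (c₀ ^ 2 * N + 1) := by
    refine mul_le_mul_of_nonneg_right ?_ (by positivity)
    linarith [le_abs_self D]
  have hk : ε * N / (20 * Real.pi) * ∑ i ∈ s, om (f i) ≤ ε * N / (20 * Real.pi) * ε := by
    refine (hsum.trans hD').trans ?_
    have h1 : ε * N / (20 * Real.pi) * ε = (|D| + 1) * (ε * N / E) := by
      rw [hE]; field_simp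
    rw [h1]
    refine mul_le_mul_of_nonneg_left ?_ (by positivity)
    have h2 : c₀ ^ 2 * N ≤ ε / (2 * E) * N := mul_le_mul_of_nonneg_right hc2 hN0.le
    have h3 : 1 ≤ ε / (2 * E) * N := by
      rw [div_lt_iff₀ hε] at hNN
      rw [div_mul_eq_mul_div, le_div_iff₀ (by positivity)]
      linarith
    have h4 : ε * N / E = ε / (2 * E) * N + ε / (2 * E) * N := by field_simp; ring
    linarith
  exact le_of_mul_le_mul_left hk (by positivity)

theorem nr_strip : type_of% @nr_strip_pr := @nr_strip_pr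

end Pool.Agent.KSL
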