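import Pool.Agent.Lib_helper41.KSL.DefsN
import Pool.Agent.Lib_helper41.LVBF.LSG
import Pool.Agent.Lib_helper41.LVBF.LSQ

/-!
# KSN block RGE: the variance of the rough sum
-/

namespace Pool.Agent.KSL

open Pool.Agent.LVB Pool.Agent.LEV Complex MeasureTheory Filter Topology UpperHalfPlane ModularGroup
  ProbabilityTheory
open scoped MatrixGroups Modular ENNReal ModularForm ComplexConjugate ContDiff

/-- a finite exponential sum is bounded by the reciprocal of the exponent -/
theorem RGE_geom {t : ℝ} (ht : 0 < t) (s : Finset ℕ) (hs : ∀ m ∈ s, 1 ≤ m) :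
    ∑ m ∈ s, Real.exp (-(t * m)) ≤ 1 / t := by
  have hx0 : 0 ≤ Real.exp (-t) := (Real.exp_pos _).le
  have hx1 : Real.exp (-t) < 1 := Real.exp_lt_one_iff.2 (by linarith)
  have hsum := (hasSum_geometric_of_lt_one hx0 hx1)
  have h1 : ∀ m : ℕ, Real.exp (-(t * m)) = Real.exp (-t) ^ m := by
    intro m
    rw [← Real.exp_nat_mul]
    congr 1
    ring
  have h2 : HasSum (fun m : ℕ => Real.exp (-t) ^ (m + 1)) ((1 - Real.exp (-t))⁻¹ * Real.exp (-t)) := by
    have := hsum.mul_right (Real.exp (-t))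
    simpa [pow_succ] using this
  have h3 : ∑ m ∈ s, Real.exp (-(t * m)) ≤ (1 - Real.exp (-t))⁻¹ * Real.exp (-t) := by
    have h4 : ∑ m ∈ s, Real.exp (-(t * m)) =
        ∑ m ∈ s.image (fun m => m - 1), Real.exp (-t) ^ (m + 1) := by
      rw [Finset.sum_image]
      · refine Finset.sum_congr rfl (fun m hm => ?_)
        rw [h1, Nat.sub_add_cancel (hs m hm)]
      · intro a ha b hb hab
        have h5 := hs a ha
        have h6 := hs b hb
        simp only at hab
        omega
    rw [h4]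
    exact sum_le_hasSum _ (fun i _ => pow_nonneg hx0 _) h2
  refine h3.trans ?_
  have h5 : 0 < 1 - Real.exp (-t) := by linarith
  rw [inv_mul_eq_div, div_le_div_iff₀ h5 ht, one_mul]
  have h6 : t + 1 ≤ Real.exp t := Real.add_one_le_exp t
  have h7 : Real.exp (-t) * Real.exp t = 1 := by
    rw [← Real.exp_add]
    simp
  have h8 : Real.exp (-t) * (t + 1) ≤ 1 := by
    calc Real.exp (-t) * (t + 1) ≤ Real.exp (-t) * Real.exp t :=
          mul_le_mul_of_nonneg_left h6 hx0
      _ = 1 := h7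
  linarith

open Classical in
theorem rough_var_pr : ∃ C₂ : ℝ, ∀ (N : ℕ) [Fact N.Prime] {ι : Type} [Fintype ι] (f : ι → S2 N),
    Function.Injective f → (∀ i, IsNew (f i)) → ∀ (z a B : ℕ), 1 ≤ z → 1 ≤ a → B < N → ∀ R : ℝ,
    0 < R →
    ∑ i, om (f i) * ((∑ b ∈ (Finset.Icc 1 B).filter (fun b => rough z b),
        la (f i) b ^ 2 * Real.exp (-4 * Real.pi * (a * b : ℕ) / R)) -
      (∑ b ∈ (Finset.Icc 1 B).filter (fun b => rough z b),
        Real.exp (-4 * Real.pi * (a * b : ℕ) / R))) ^ 2 ≤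
      C₂ * (R / a) ^ 2 * (1 / z + B / N) := by
  obtain ⟨C, hC0, hC⟩ := sq_sieve
  refine ⟨C, ?_⟩
  intro N _ ι _ f hi hn z a B hz ha hB R hR
  have hN : (0 : ℝ) < N := by exact_mod_cast (Fact.out : N.Prime).pos
  have ha0 : (0 : ℝ) < a := by exact_mod_cast ha
  have hz0 : (0 : ℝ) < z := by exact_mod_cast hz
  set w : ℕ → ℝ := fun n => Real.exp (-4 * Real.pi * (a * n : ℕ) / R) with hw
  set t : ℝ := 4 * Real.pi * a / R with ht
  have ht0 : 0 < t := by positivity
  set g : ℕ → ℝ := fun d => if rough z d then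
    t * ∑ m ∈ (Finset.Icc 1 B).filter (fun m => rough z m ∧ d * m ≤ B), w (d * m) else 0 with hg
  -- the size of the coefficients
  have hgb : ∀ d, 1 ≤ d → |g d| ≤ 1 / d := by
    intro d hd
    have hd0 : (0 : ℝ) < d := by exact_mod_cast hd
    simp only [hg]
    split_ifs
    · have h1 : 0 ≤ ∑ m ∈ (Finset.Icc 1 B).filter (fun m => rough z m ∧ d * m ≤ B), w (d * m) :=
        Finset.sum_nonneg (fun m _ => (Real.exp_pos _).le)
      rw [abs_of_nonneg (mul_nonneg ht0.le h1)]
      have h2 : ∑ m ∈ (Finset.Icc 1 B).filter (fun m => rough z m ∧ d * m ≤ B), w (d * m) ≤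
          1 / (t * d) := by
        have h3 := RGE_geom (t := t * d) (by positivity)
          ((Finset.Icc 1 B).filter (fun m => rough z m ∧ d * m ≤ B))
          (fun m hm => (Finset.mem_Icc.1 (Finset.mem_filter.1 hm).1).1)
        refine le_trans (le_of_eq ?_) h3
        refine Finset.sum_congr rfl (fun m _ => ?_)
        simp only [hw, ht]
        congr 1
        push_cast
        field_simp
      calc t * _ ≤ t * (1 / (t * d)) := mul_le_mul_of_nonneg_left h2 ht0.le
        _ = 1 / d := by field_simp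
    · rw [abs_zero]
      positivity
  -- the term d = 1 and the rest
  have hkey : ∀ i, ((∑ b ∈ (Finset.Icc 1 B).filter (fun b => rough z b),
        la (f i) b ^ 2 * Real.exp (-4 * Real.pi * (a * b : ℕ) / R)) -
      (∑ b ∈ (Finset.Icc 1 B).filter (fun b => rough z b),
        Real.exp (-4 * Real.pi * (a * b : ℕ) / R))) =
      (1 / t) * ∑ d ∈ Finset.Icc (z + 1) B, g d * la (f i) (d ^ 2) := by
    intro i
    have h1 := rough_sum (hn i) (z := z) (X := B) hB w
    have h2 : ∑ b ∈ (Finset.Icc 1 B).filter (fun b => rough z b),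
        la (f i) b ^ 2 * Real.exp (-4 * Real.pi * (a * b : ℕ) / R) =
        ∑ b ∈ (Finset.Icc 1 B).filter (fun b => rough z b), la (f i) b ^ 2 * w b := rfl
    rw [h2, h1]
    rcases Nat.eq_zero_or_pos B with hB0 | hB0
    · subst hB0
      simp
    have hr1 : rough z 1 := by
      intro p hp hp1
      exact absurd (Nat.dvd_one.1 hp1) hp.one_lt.ne'
    have hmem : (1 : ℕ) ∈ (Finset.Icc 1 B).filter (fun d => rough z d) :=
      Finset.mem_filter.2 ⟨Finset.mem_Icc.2 ⟨le_refl _, hB0⟩, hr1⟩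
    rw [← Finset.add_sum_erase _ _ hmem]
    have hla1 : la (f i) (1 ^ 2) = 1 := by
      rw [one_pow, la, (hn i).one]
      simp
    have hfirst : la (f i) (1 ^ 2) * ∑ m ∈ (Finset.Icc 1 B).filter (fun m => rough z m ∧ 1 * m ≤ B),
        w (1 * m) = ∑ b ∈ (Finset.Icc 1 B).filter (fun b => rough z b),
        Real.exp (-4 * Real.pi * (a * b : ℕ) / R) := by
      rw [hla1, one_mul]
      refine Finset.sum_congr ?_ (fun m _ => ?_)
      · ext m
        simp only [Finset.mem_filter, Finset.mem_Icc, one_mul]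
        tauto
      · simp only [hw, one_mul]
    rw [hfirst, add_sub_cancel_left, Finset.mul_sum]
    have hsub : ((Finset.Icc 1 B).filter (fun d => rough z d)).erase 1 ⊆ Finset.Icc (z + 1) B := by
      intro d hd
      obtain ⟨hd1, hd2⟩ := Finset.mem_erase.1 hd
      obtain ⟨hd3, hd4⟩ := Finset.mem_filter.1 hd2
      obtain ⟨hd5, hd6⟩ := Finset.mem_Icc.1 hd3
      obtain ⟨p, hp, hpd⟩ := Nat.exists_prime_and_dvd hd1
      have h3 := hd4 p hp hpd
      have h4 := Nat.le_of_dvd (by omega) hpd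
      exact Finset.mem_Icc.2 ⟨by omega, hd6⟩
    rw [← Finset.sum_subset hsub]
    · refine Finset.sum_congr rfl (fun d hd => ?_)
      have hd4 := (Finset.mem_filter.1 (Finset.mem_erase.1 hd).2).2
      simp only [hg, if_pos hd4]
      field_simp
    · intro d hd hd'
      have h3 : ¬ rough z d := by
        intro h4
        apply hd'
        obtain ⟨h5, h6⟩ := Finset.mem_Icc.1 hd
        exact Finset.mem_erase.2 ⟨by omega, Finset.mem_filter.2
          ⟨Finset.mem_Icc.2 ⟨by omega, h6⟩, h4⟩⟩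
      simp only [hg, if_neg h3]
      ring
  have hmain := hC N f hi hn (z + 1) B (by omega) hB.le g hgb
  have h1 : ∑ i, om (f i) * ((∑ b ∈ (Finset.Icc 1 B).filter (fun b => rough z b),
        la (f i) b ^ 2 * Real.exp (-4 * Real.pi * (a * b : ℕ) / R)) -
      (∑ b ∈ (Finset.Icc 1 B).filter (fun b => rough z b),
        Real.exp (-4 * Real.pi * (a * b : ℕ) / R))) ^ 2 =
      (1 / t) ^ 2 * ∑ i, om (f i) * (∑ d ∈ Finset.Icc (z + 1) B, g d * la (f i) (d ^ 2)) ^ 2 := by
    rw [Finset.mul_sum]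
    refine Finset.sum_congr rfl (fun i _ => ?_)
    rw [hkey i]
    ring
  rw [h1]
  have h2 : (1 / t) ^ 2 ≤ (R / a) ^ 2 := by
    have h3 : 1 / t ≤ R / a := by
      rw [ht, one_div_div, div_le_div_iff₀ (by positivity) ha0]
      have h4 := Real.pi_gt_three
      have h5 : 0 < R * a := by positivity
      nlinarith
    have h4 : 0 < 1 / t := by positivity
    exact pow_le_pow_left₀ h4.le h3 2
  have h3 : C * (1 / ((z + 1 : ℕ) : ℝ) + B / N) ≤ C * (1 / z + B / N) := by
    refine mul_le_mul_of_nonneg_left ?_ hC0.le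
    have h4 : 1 / ((z + 1 : ℕ) : ℝ) ≤ 1 / z := by
      refine one_div_le_one_div_of_le hz0 ?_
      push_cast
      linarith
    linarith
  have h4 : 0 ≤ C * (1 / (z : ℝ) + B / N) := by positivity
  calc (1 / t) ^ 2 * ∑ i, om (f i) * (∑ d ∈ Finset.Icc (z + 1) B, g d * la (f i) (d ^ 2)) ^ 2
      ≤ (1 / t) ^ 2 * (C * (1 / z + B / N)) :=
        mul_le_mul_of_nonneg_left (hmain.trans h3) (by positivity)
    _ ≤ (R / a) ^ 2 * (C * (1 / z + B / N)) := mul_le_mul_of_nonneg_right h2 h4
    _ = C * (R / a) ^ 2 * (1 / z + B / N) := by ring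

theorem rough_var : type_of% @rough_var_pr := @rough_var_pr

end Pool.Agent.KSL
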