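import Pool.Agent.Lib_helper41.KSL.DefsN

namespace Pool.Agent.KSL

open Pool.Agent.LVB Pool.Agent.LEV Complex MeasureTheory Filter Topology UpperHalfPlane ModularGroup
  ProbabilityTheory
open scoped MatrixGroups Modular ENNReal ModularForm ComplexConjugate ContDiff

/-- the product of the primes up to `z` -/
noncomputable def RGM_P (z : ℕ) : ℕ := ∏ p ∈ (Finset.Icc 1 z).filter Nat.Prime, p

theorem RGM_P_pos (z : ℕ) : 0 < RGM_P z :=
  Finset.prod_pos fun _ hp => (Finset.mem_filter.mp hp).2.pos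

theorem RGM_pf (z : ℕ) : (RGM_P z).primeFactors = (Finset.Icc 1 z).filter Nat.Prime :=
  Nat.primeFactors_prod fun _ hp => (Finset.mem_filter.mp hp).2

theorem RGM_tot (z : ℕ) : (Nat.totient (RGM_P z) : ℝ) = RGM_P z * VV z := by
  have h := Nat.totient_eq_mul_prod_factors (RGM_P z)
  rw [RGM_pf] at h
  have h2 : ((Nat.totient (RGM_P z) : ℚ) : ℝ) = ((RGM_P z * ∏ p ∈ (Finset.Icc 1 z).filter Nat.Prime, (1 - (p : ℚ)⁻¹) : ℚ) : ℝ) := by
    rw [h]
  push_cast at h2
  rw [h2, VV]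
  congr 1
  refine Finset.prod_congr rfl fun p _ => ?_
  rw [one_div]

theorem RGM_rough (z b : ℕ) (h : Nat.Coprime (RGM_P z) b) : rough z b := by
  intro p hp hpb
  by_contra hz
  push Not at hz
  have : p ∣ RGM_P z := Finset.dvd_prod_of_mem (fun p => p)
    (Finset.mem_filter.mpr ⟨Finset.mem_Icc.mpr ⟨hp.one_lt.le, hz⟩, hp⟩)
  have h2 := Nat.dvd_gcd this hpb
  rw [h] at h2
  exact hp.one_lt.ne' (Nat.dvd_one.mp h2)

theorem RGM_V0 (z : ℕ) : 0 ≤ VV z := by
  refine Finset.prod_nonneg fun p hp => ?_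
  have : (1 : ℝ) ≤ p := by exact_mod_cast (Finset.mem_filter.mp hp).2.one_lt.le
  rw [sub_nonneg, div_le_one (by linarith)]
  exact this

open Classical in
theorem RGM_blocks (z : ℕ) (α : ℝ) (hα : 0 ≤ α) (J : ℕ) :
    ∑ j ∈ Finset.range J, (Nat.totient (RGM_P z) : ℝ) * Real.exp (-α * ((j + 1 : ℕ) * RGM_P z)) ≤
      ∑ b ∈ (Finset.Ico 1 (J * RGM_P z + 1)).filter (fun b => rough z b), Real.exp (-α * b) := by
  induction J with
  | zero => simp
  | succ J ih =>
    rw [Finset.sum_range_succ]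
    have hd : (Finset.Ico 1 ((J + 1) * RGM_P z + 1)).filter (fun b => rough z b) =
        (Finset.Ico 1 (J * RGM_P z + 1)).filter (fun b => rough z b) ∪
        (Finset.Ico (J * RGM_P z + 1) (J * RGM_P z + 1 + RGM_P z)).filter (fun b => rough z b) := by
      rw [← Finset.filter_union, Finset.Ico_union_Ico_eq_Ico (by omega) (by omega)]
      congr 2
      ring
    have hdj : Disjoint ((Finset.Ico 1 (J * RGM_P z + 1)).filter (fun b => rough z b))
        ((Finset.Ico (J * RGM_P z + 1) (J * RGM_P z + 1 + RGM_P z)).filter (fun b => rough z b)) := by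
      refine Finset.disjoint_filter_filter ?_
      exact Finset.Ico_disjoint_Ico_consecutive _ _ _
    rw [hd, Finset.sum_union hdj]
    refine add_le_add ih ?_
    have hc := Nat.filter_coprime_Ico_eq_totient (RGM_P z) (J * RGM_P z + 1)
    have hsub : (Finset.Ico (J * RGM_P z + 1) (J * RGM_P z + 1 + RGM_P z)).filter (RGM_P z).Coprime ⊆
        (Finset.Ico (J * RGM_P z + 1) (J * RGM_P z + 1 + RGM_P z)).filter (fun b => rough z b) := by
      intro b hb
      rw [Finset.mem_filter] at hb ⊢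
      exact ⟨hb.1, RGM_rough z b hb.2⟩
    calc (Nat.totient (RGM_P z) : ℝ) * Real.exp (-α * ((J + 1 : ℕ) * RGM_P z))
        = ∑ _b ∈ (Finset.Ico (J * RGM_P z + 1) (J * RGM_P z + 1 + RGM_P z)).filter (RGM_P z).Coprime,
            Real.exp (-α * ((J + 1 : ℕ) * RGM_P z)) := by
          rw [Finset.sum_const, hc, nsmul_eq_mul]
      _ ≤ ∑ b ∈ (Finset.Ico (J * RGM_P z + 1) (J * RGM_P z + 1 + RGM_P z)).filter (RGM_P z).Coprime,
            Real.exp (-α * b) := by
          refine Finset.sum_le_sum fun b hb => ?_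
          have hb2 := (Finset.mem_Ico.mp (Finset.mem_filter.mp hb).1).2
          have hb3 : (b : ℝ) ≤ (J + 1 : ℕ) * RGM_P z := by
            have : b ≤ (J + 1) * RGM_P z := by
              rw [Nat.succ_mul] at *
              omega
            exact_mod_cast this
          apply Real.exp_le_exp.mpr
          have := mul_le_mul_of_nonneg_left hb3 hα
          linarith
      _ ≤ _ := Finset.sum_le_sum_of_subset_of_nonneg hsub fun b _ _ => (Real.exp_pos _).le

/-- a lower bound for a geometric sum -/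
theorem RGM_geo {x : ℝ} (h0 : 0 < x) (_h1 : x < 1) (J : ℕ) :
    (1 - x) / x * (1 - Real.exp (-x * J)) ≤ ∑ j ∈ Finset.range J, Real.exp (-x * ((j + 1 : ℕ) : ℝ)) := by
  have hs : ∀ j : ℕ, Real.exp (-x * ((j + 1 : ℕ) : ℝ)) = Real.exp (-x) * Real.exp (-x) ^ j := by
    intro j
    rw [← Real.exp_nat_mul, ← Real.exp_add]
    congr 1
    push_cast
    ring
  simp_rw [hs]
  rw [← Finset.mul_sum, geom_sum_eq (by
    have := Real.exp_lt_one_iff.mpr (show -x < 0 by linarith)
    exact this.ne)]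
  have he : Real.exp (-x) ^ J = Real.exp (-x * J) := by
    rw [← Real.exp_nat_mul]; congr 1; ring
  rw [he]
  have hE : Real.exp (-x) < 1 := Real.exp_lt_one_iff.mpr (by linarith)
  have hE0 : 0 < Real.exp (-x) := Real.exp_pos _
  have hJ : Real.exp (-x * J) ≤ 1 := by
    apply Real.exp_le_one_iff.mpr
    have : 0 ≤ x * J := by positivity
    linarith
  have h3 : Real.exp (-x) * ((Real.exp (-x * J) - 1) / (Real.exp (-x) - 1)) =
      (Real.exp (-x) / (1 - Real.exp (-x))) * (1 - Real.exp (-x * J)) := by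
    have a1 : Real.exp (-x) - 1 ≠ 0 := by linarith
    have a2 : 1 - Real.exp (-x) ≠ 0 := by linarith
    field_simp
    ring
  rw [h3]
  refine mul_le_mul_of_nonneg_right ?_ (by linarith)
  rw [div_le_div_iff₀ h0 (by linarith)]
  have h4 : 1 - x ≤ Real.exp (-x) := by
    have := Real.add_one_le_exp (-x)
    linarith
  nlinarith

open Classical in
theorem rough_main_pr {δ : ℝ} (hδ : 0 < δ) : ∃ K : ℝ, 1 ≤ K ∧ ∀ (z : ℕ) (κ C : ℝ) (a : ℕ), 0 < κ →
    0 < C → 1 ≤ a → K * C ≤ a * κ → ∃ N₀ : ℕ, ∀ N : ℕ, N₀ ≤ N →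
      (1 - δ) * VV z * (C * N / (4 * Real.pi * a)) ≤
        ∑ b ∈ (Finset.Icc 1 ⌊κ * N⌋₊).filter (fun b => rough z b),
          Real.exp (-4 * Real.pi * (a * b : ℕ) / (C * N)) := by
  refine ⟨1 + 2 / δ, by have : 0 < 2 / δ := by positivity
                        linarith, ?_⟩
  intro z κ C a hκ hC ha hK
  have hpi := Real.pi_pos
  have hpi3 := Real.pi_gt_three
  have ha' : (1 : ℝ) ≤ a := by exact_mod_cast ha
  set P := RGM_P z with hP
  have hP0 : 0 < P := RGM_P_pos z
  have hP1 : (1 : ℝ) ≤ P := by exact_mod_cast hP0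
  -- a large N
  obtain ⟨N₀, hN₀⟩ := exists_nat_gt ((4 * Real.pi * a * (P + 1)) / (C * min 1 (δ / 2)))
  refine ⟨N₀ + 1, fun N hN => ?_⟩
  have hN1 : (1 : ℝ) ≤ N := by exact_mod_cast (by omega : 1 ≤ N)
  have hNN : (N₀ : ℝ) ≤ N := by exact_mod_cast (by omega : N₀ ≤ N)
  set α : ℝ := 4 * Real.pi * a / (C * N) with hα
  have hα0 : 0 < α := by positivity
  have hm : 0 < min 1 (δ / 2) := lt_min one_pos (by positivity)
  have hsm : α * (P + 1) < min 1 (δ / 2) := by
    have h1 : (4 * Real.pi * a * (P + 1)) / (C * min 1 (δ / 2)) < N := lt_of_lt_of_le hN₀ hNN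
    rw [div_lt_iff₀ (by positivity)] at h1
    rw [hα, div_mul_eq_mul_div, div_lt_iff₀ (by positivity)]
    linarith
  have hsm1 : α * (P + 1) < 1 := lt_of_lt_of_le hsm (min_le_left _ _)
  have hsm2 : α * (P + 1) < δ / 2 := lt_of_lt_of_le hsm (min_le_right _ _)
  set J : ℕ := ⌊κ * N⌋₊ / P with hJ
  -- the sum over the blocks
  have hb := RGM_blocks z α hα0.le J
  have hsub : (Finset.Ico 1 (J * RGM_P z + 1)).filter (fun b => rough z b) ⊆
      (Finset.Icc 1 ⌊κ * N⌋₊).filter (fun b => rough z b) := by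
    intro b hb
    rw [Finset.mem_filter, Finset.mem_Ico] at hb
    rw [Finset.mem_filter, Finset.mem_Icc]
    refine ⟨⟨hb.1.1, ?_⟩, hb.2⟩
    have : J * RGM_P z ≤ ⌊κ * N⌋₊ := Nat.div_mul_le_self _ _
    omega
  have hfin : ∑ b ∈ (Finset.Ico 1 (J * RGM_P z + 1)).filter (fun b => rough z b), Real.exp (-α * b) ≤
      ∑ b ∈ (Finset.Icc 1 ⌊κ * N⌋₊).filter (fun b => rough z b),
          Real.exp (-4 * Real.pi * (a * b : ℕ) / (C * N)) := by
    refine le_trans (Finset.sum_le_sum_of_subset_of_nonneg hsub fun b _ _ => (Real.exp_pos _).le) ?_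
    refine Finset.sum_le_sum fun b _ => ?_
    apply le_of_eq
    congr 1
    rw [hα]
    push_cast
    ring
  refine le_trans ?_ (le_trans hb hfin)
  have hx0 : 0 < α * P := by positivity
  have hx1 : α * P < 1 := by nlinarith
  have hg := RGM_geo hx0 hx1 J
  have hbl : ∑ j ∈ Finset.range J, (Nat.totient (RGM_P z) : ℝ) * Real.exp (-α * ((j + 1 : ℕ) * RGM_P z)) =
      P * VV z * ∑ j ∈ Finset.range J, Real.exp (-(α * P) * ((j + 1 : ℕ) : ℝ)) := by
    rw [← Finset.mul_sum, RGM_tot, ← hP]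
    congr 1
    refine Finset.sum_congr rfl fun j _ => ?_
    congr 1
    ring
  rw [hbl]
  have hV := RGM_V0 z
  refine le_trans ?_ (mul_le_mul_of_nonneg_left hg (by positivity))
  -- the size of the last exponential
  have hJP : κ * N - 1 - P ≤ J * P := by
    have h1 : P * J + ⌊κ * N⌋₊ % P = ⌊κ * N⌋₊ := Nat.div_add_mod _ _
    have h2 : ⌊κ * N⌋₊ % P < P := Nat.mod_lt _ hP0
    have h3 : κ * N < ⌊κ * N⌋₊ + 1 := Nat.lt_floor_add_one _
    have h1' : (P : ℝ) * J + (⌊κ * N⌋₊ % P : ℕ) = (⌊κ * N⌋₊ : ℝ) := by exact_mod_cast h1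
    have h2' : ((⌊κ * N⌋₊ % P : ℕ) : ℝ) < P := by exact_mod_cast h2
    nlinarith
  have hακ : 4 * Real.pi * (1 + 2 / δ) ≤ α * (κ * N) := by
    have h1 : α * (κ * N) = 4 * Real.pi * (a * κ / C) := by
      rw [hα]; field_simp
    rw [h1]
    refine mul_le_mul_of_nonneg_left ?_ (by positivity)
    rw [le_div_iff₀ hC]
    exact hK
  have hd : 0 < 2 / δ := by positivity
  have hy : 12 * (2 / δ) ≤ 1 + α * P * J := by
    have h1 : α * (κ * N - 1 - P) ≤ α * (J * P) := mul_le_mul_of_nonneg_left hJP hα0.le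
    have h2 : 12 * (2 / δ) ≤ 4 * Real.pi * (1 + 2 / δ) := by nlinarith
    nlinarith
  have he : Real.exp (-(α * P) * J) ≤ δ / 2 := by
    have h0 : 0 < α * P * J + 1 := by positivity
    have h1 : α * P * J + 1 ≤ Real.exp (α * P * J) := Real.add_one_le_exp _
    have h2 : Real.exp (-(α * P) * J) = (Real.exp (α * P * J))⁻¹ := by
      rw [← Real.exp_neg]; congr 1; ring
    rw [h2]
    have h3 : (Real.exp (α * P * J))⁻¹ ≤ (α * P * J + 1)⁻¹ := inv_anti₀ h0 h1
    have h4 : (α * P * J + 1)⁻¹ ≤ (12 * (2 / δ))⁻¹ := inv_anti₀ (by positivity) (by linarith)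
    have h5 : (12 * (2 / δ))⁻¹ = δ / 24 := by field_simp; norm_num
    linarith
  have hu : α * P < δ / 2 := by nlinarith
  have hNe : (1 - δ) ≤ (1 - α * P) * (1 - Real.exp (-(α * P) * J)) := by
    have := mul_nonneg hx0.le (Real.exp_pos (-(α * P) * J)).le
    nlinarith
  have hα1 : C * N / (4 * Real.pi * a) = 1 / α := by
    rw [hα]; field_simp
  rw [hα1]
  have h9 : P * VV z * ((1 - α * P) / (α * P) * (1 - Real.exp (-(α * P) * J))) =
      ((1 - α * P) * (1 - Real.exp (-(α * P) * J))) * (VV z * (1 / α)) := by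
    field_simp
  rw [h9, mul_assoc]
  exact mul_le_mul_of_nonneg_right hNe (by positivity)

theorem rough_main : type_of% @rough_main_pr := @rough_main_pr

end Pool.Agent.KSL
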