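import Pool.Agent.Lib_helper41.KSL.DefsN
import Pool.Agent.Lib_helper68.LEV.EIA
import Pool.Agent.Lib_helper68.LEV.HPO
import Pool.Agent.Lib_helper41.LVBF.HPM
import Pool.Agent.Lib_helper41.LVBF.STE
import Pool.Agent.Lib_helper41.LVBF.TRA
import Pool.Agent.Lib_helper41.KSNF.CONP
import Pool.Agent.Lib_helper41.KSNF.HAF
import Pool.Agent.Lib_helper41.KSNF.NRS
import Pool.Agent.Lib_helper41.KSNF.RGE
import Pool.Agent.Lib_helper41.KSNF.RGM
import Pool.Agent.Lib_helper41.KSNF.SRF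

/-!
# Block NFI: the sharp natural passage
-/

namespace Pool.Agent.KSL

open Pool.Agent.LVB Pool.Agent.LEV Complex MeasureTheory Filter Topology UpperHalfPlane ModularGroup
  ProbabilityTheory
open scoped MatrixGroups Modular ENNReal ModularForm ComplexConjugate ContDiff

theorem NFI_nr_nonneg {N : ℕ} [Fact N.Prime] {f : S2 N} (hf : IsNew f) : 0 ≤ nr f :=
  (nr_pos (new_ne_zero hf)).le

theorem NFI_om_nonneg {N : ℕ} [Fact N.Prime] {f : S2 N} (hf : IsNew f) : 0 ≤ om f := by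
  rw [om]
  have := NFI_nr_nonneg hf
  positivity

theorem NFI_coprime {N : ℕ} [Fact N.Prime] {z a : ℕ} (hz : z < N) (ha : smooth z a) :
    a.Coprime N := by
  have hN : N.Prime := Fact.out
  rw [Nat.coprime_comm, Nat.Prime.coprime_iff_not_dvd hN]
  intro h
  have := ha.2 N hN h
  omega

theorem NFI_um {N : ℕ} [Fact N.Prime] {f : S2 N} (hf : IsNew f) {z a : ℕ} (hz : z < N)
    (ha : smooth z a) : Um a (la f) = la f a :=
  um_new hf (new_real hf) (Nat.pos_of_ne_zero ha.1) (NFI_coprime hz ha)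

theorem NFI_pf {z a : ℕ} (ha : smooth z a) {I : Finset ℕ}
    (hI : ∀ p : ℕ, p.Prime → p ≤ z → p ∈ I) : a.primeFactors ⊆ I := by
  intro p hp
  have hp1 := Nat.prime_of_mem_primeFactors hp
  exact hI p hp1 (ha.2 p hp1 (Nat.dvd_of_mem_primeFactors hp))

theorem NFI_four {N : ℕ} [Fact N.Prime] {ι : Type} [Fintype ι] (f : ι → S2 N)
    (hi : Function.Injective f) (hn : ∀ i, IsNew (f i)) {z a : ℕ} (hz : z < N) (ha : smooth z a)
    (haN : 4 * (a * a) ≤ N) :
    ∑ i, om (f i) * la (f i) a ^ 4 ≤ Real.exp (8 * Real.pi * (1 / 2)) * a.divisors.card := by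
  set I : Finset ℕ := (Finset.Icc 1 z).filter Nat.Prime with hI
  have hI1 : ∀ p ∈ I, p.Prime := fun p hp => (Finset.mem_filter.1 hp).2
  have hI2 : ∀ p : ℕ, p.Prime → p ≤ z → p ∈ I := fun p hp hpz =>
    Finset.mem_filter.2 ⟨Finset.mem_Icc.2 ⟨hp.one_lt.le, hpz⟩, hp⟩
  have hI3 : ∀ p ∈ I, p.Prime ∧ p < N := fun p hp =>
    ⟨hI1 p hp, lt_of_le_of_lt (Finset.mem_Icc.1 (Finset.mem_filter.1 hp).1).2 hz⟩
  obtain ⟨P, hP⟩ := st_exists I hI1
  have ha1 : 1 ≤ a := Nat.pos_of_ne_zero ha.1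
  have hU : HPoly I a (Um a) := HPO_single ha1 le_rfl (NFI_pf ha hI2)
  have hG := hpoly_mul hI1 hI1 hU hU
  rw [Finset.union_self] at hG
  have hX : ((a * a : ℕ) : ℝ) ≤ (1 / 2 : ℝ) ^ 2 * N := by
    have : ((4 * (a * a) : ℕ) : ℝ) ≤ N := by exact_mod_cast haN
    push_cast at this ⊢
    linarith
  have h := transfer f hi hn (ν := 1 / 2) (by norm_num) (by norm_num) (X := a * a)
    (Nat.mul_pos ha1 ha1) hX hI3 hP hG 0
  have h4 := (um_four hI1 hP ha.1 (NFI_pf ha hI2)).2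
  have e1 : ∀ x : ℕ → ℝ, (Um a x * Um a x) ^ 2 = Um a x ^ 4 := fun x => by ring
  simp only [zero_mul, add_zero, e1, ne_eq, OfNat.ofNat_ne_zero, not_false_eq_true, zero_pow] at h
  rw [h4] at h
  refine le_trans (le_of_eq ?_) h
  refine Finset.sum_congr rfl fun i _ => ?_
  rw [NFI_um (hn i) hz ha]

theorem NFI_cs {ι : Type} [Fintype ι] {w x y : ι → ℝ} (hw : ∀ i, 0 ≤ w i) :
    ∑ i, w i * (x i ^ 2 * |y i|) ≤ Real.sqrt (∑ i, w i * x i ^ 4) *
      Real.sqrt (∑ i, w i * y i ^ 2) := by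
  have h := Real.sum_mul_le_sqrt_mul_sqrt Finset.univ (fun i => Real.sqrt (w i) * x i ^ 2)
    (fun i => Real.sqrt (w i) * |y i|)
  have e1 : ∀ i, (Real.sqrt (w i) * x i ^ 2) * (Real.sqrt (w i) * |y i|) =
      w i * (x i ^ 2 * |y i|) := by
    intro i
    have := Real.mul_self_sqrt (hw i)
    calc (Real.sqrt (w i) * x i ^ 2) * (Real.sqrt (w i) * |y i|)
        = (Real.sqrt (w i) * Real.sqrt (w i)) * (x i ^ 2 * |y i|) := by ring
      _ = _ := by rw [this]
  have e2 : ∀ i, (Real.sqrt (w i) * x i ^ 2) ^ 2 = w i * x i ^ 4 := by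
    intro i
    rw [mul_pow, Real.sq_sqrt (hw i)]
    ring
  have e3 : ∀ i, (Real.sqrt (w i) * |y i|) ^ 2 = w i * y i ^ 2 := by
    intro i
    rw [mul_pow, Real.sq_sqrt (hw i), sq_abs]
  simp only [e1, e2, e3] at h
  exact h

open Classical in
/-- the sum over rough numbers -/
noncomputable def NFI_rs (z B : ℕ) (R : ℝ) (a : ℕ) : ℝ :=
  ∑ b ∈ (Finset.Icc 1 B).filter (fun b => rough z b), Real.exp (-4 * Real.pi * (a * b : ℕ) / R)

open Classical in
/-- the weighted sum over rough numbers -/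
noncomputable def NFI_ws {N : ℕ} (f : S2 N) (z B : ℕ) (R : ℝ) (a : ℕ) : ℝ :=
  ∑ b ∈ (Finset.Icc 1 B).filter (fun b => rough z b),
    la f b ^ 2 * Real.exp (-4 * Real.pi * (a * b : ℕ) / R)

/-- the mean of the error -/
theorem NFI_err {N : ℕ} [Fact N.Prime] {ι : Type} [Fintype ι] (f : ι → S2 N)
    (hi : Function.Injective f) (hn : ∀ i, IsNew (f i)) {z : ℕ} (hz : z < N)
    {A : Finset ℕ} (hA : ∀ a ∈ A, smooth z a) (haN : ∀ a ∈ A, 4 * (a * a) ≤ N) {C₂ κ : ℝ}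
    (hC₂ : 0 ≤ C₂) {B : ℕ} {R : ℝ} (hR : 0 < R) (hB : (B : ℝ) ≤ κ * N)
    (hvar : ∀ a ∈ A, ∑ i, om (f i) * (NFI_ws (f i) z B R a - NFI_rs z B R a) ^ 2 ≤
      C₂ * (R / a) ^ 2 * (1 / z + B / N)) :
    ∑ i, om (f i) * (∑ a ∈ A, la (f i) a ^ 2 * |NFI_ws (f i) z B R a - NFI_rs z B R a|) ≤
      Real.sqrt (Real.exp (8 * Real.pi * (1 / 2))) * R *
        ((∑ a ∈ A, Real.sqrt (a.divisors.card) / a) * Real.sqrt (C₂ * (1 / z + κ))) := by
  have hN : (0 : ℝ) < N := by exact_mod_cast (Fact.out : N.Prime).pos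
  have h1 : ∀ i, om (f i) * (∑ a ∈ A, la (f i) a ^ 2 *
      |NFI_ws (f i) z B R a - NFI_rs z B R a|) = ∑ a ∈ A, om (f i) * (la (f i) a ^ 2 *
      |NFI_ws (f i) z B R a - NFI_rs z B R a|) := fun i => Finset.mul_sum _ _ _
  rw [Finset.sum_congr rfl fun i _ => h1 i, Finset.sum_comm, Finset.sum_mul, Finset.mul_sum]
  refine Finset.sum_le_sum fun a ha => ?_
  refine (NFI_cs (fun i => NFI_om_nonneg (hn i))).trans ?_
  have ha0 : (0 : ℝ) < a := by exact_mod_cast Nat.pos_of_ne_zero (hA a ha).1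
  have h2 : Real.sqrt (∑ i, om (f i) * la (f i) a ^ 4) ≤
      Real.sqrt (Real.exp (8 * Real.pi * (1 / 2))) * Real.sqrt (a.divisors.card) := by
    rw [← Real.sqrt_mul (Real.exp_pos _).le]
    exact Real.sqrt_le_sqrt (NFI_four f hi hn hz (hA a ha) (haN a ha))
  have h3 : Real.sqrt (∑ i, om (f i) * (NFI_ws (f i) z B R a - NFI_rs z B R a) ^ 2) ≤
      R / a * Real.sqrt (C₂ * (1 / z + κ)) := by
    have h4 : ∑ i, om (f i) * (NFI_ws (f i) z B R a - NFI_rs z B R a) ^ 2 ≤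
        (R / a) ^ 2 * (C₂ * (1 / z + κ)) := by
      refine (hvar a ha).trans ?_
      have h5 : (B : ℝ) / N ≤ κ := (div_le_iff₀ hN).2 hB
      have h6 : C₂ * (1 / z + B / N) ≤ C₂ * (1 / z + κ) :=
        mul_le_mul_of_nonneg_left (by linarith) hC₂
      calc C₂ * (R / a) ^ 2 * (1 / z + B / N) = (R / a) ^ 2 * (C₂ * (1 / z + B / N)) := by ring
        _ ≤ _ := mul_le_mul_of_nonneg_left h6 (sq_nonneg _)
    refine (Real.sqrt_le_sqrt h4).trans (le_of_eq ?_)
    rw [Real.sqrt_mul (sq_nonneg _), Real.sqrt_sq (by positivity)]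
  calc _ ≤ (Real.sqrt (Real.exp (8 * Real.pi * (1 / 2))) * Real.sqrt (a.divisors.card)) *
        (R / a * Real.sqrt (C₂ * (1 / z + κ))) :=
      mul_le_mul h2 h3 (Real.sqrt_nonneg _) (by positivity)
    _ = _ := by ring

theorem NFI_lower {N : ℕ} [Fact N.Prime] {f : S2 N} (hf : IsNew f) {z : ℕ} (hz : z < N)
    {A : Finset ℕ} (hA : ∀ a ∈ A, smooth z a) {B : ℕ} {C δ : ℝ} (hR : 0 < C * N)
    (hM : ∀ a ∈ A, (1 - δ) * VV z * (C * N / (4 * Real.pi * a)) ≤ NFI_rs z B (C * N) a) :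
    (1 - δ) * (C * N / (4 * Real.pi)) * HA z A (la f) -
      (∑ a ∈ A, la f a ^ 2 * |NFI_ws f z B (C * N) a - NFI_rs z B (C * N) a|) ≤ sm f (C * N) := by
  have h1 := sm_split hf hA B hR
  have h2 : ∑ a ∈ A, la f a ^ 2 * NFI_ws f z B (C * N) a ≤ sm f (C * N) := h1
  refine le_trans ?_ h2
  rw [HA, Finset.mul_sum, ← Finset.sum_sub_distrib]
  refine Finset.sum_le_sum fun a ha => ?_
  rw [NFI_um hf hz (hA a ha)]
  have ha0 : (0 : ℝ) < a := by exact_mod_cast Nat.pos_of_ne_zero (hA a ha).1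
  have h3 := hM a ha
  have h4 : NFI_rs z B (C * N) a - |NFI_ws f z B (C * N) a - NFI_rs z B (C * N) a| ≤
      NFI_ws f z B (C * N) a := by
    have := neg_abs_le (NFI_ws f z B (C * N) a - NFI_rs z B (C * N) a)
    linarith
  have h5 : (1 - δ) * VV z * (C * N / (4 * Real.pi * a)) -
      |NFI_ws f z B (C * N) a - NFI_rs z B (C * N) a| ≤ NFI_ws f z B (C * N) a := by linarith
  have h6 := mul_le_mul_of_nonneg_left h5 (sq_nonneg (la f a))
  refine le_trans (le_of_eq ?_) h6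
  have hpi := Real.pi_pos
  field_simp

theorem NFI_markov {ι : Type} [Fintype ι] {w y : ι → ℝ} (hw : ∀ i, 0 ≤ w i) (hy : ∀ i, 0 ≤ y i)
    {t M : ℝ} (ht : 0 < t) (hM : ∑ i, w i * y i ≤ M * t) (s : Finset ι) (hs : ∀ i ∈ s, t ≤ y i) :
    ∑ i ∈ s, w i ≤ M := by
  have h1 : (∑ i ∈ s, w i) * t ≤ M * t := by
    rw [Finset.sum_mul]
    calc ∑ i ∈ s, w i * t ≤ ∑ i ∈ s, w i * y i :=
          Finset.sum_le_sum fun i hi => mul_le_mul_of_nonneg_left (hs i hi) (hw i)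
      _ ≤ ∑ i, w i * y i :=
          Finset.sum_le_sum_of_subset_of_nonneg (Finset.subset_univ _)
            fun i _ _ => mul_nonneg (hw i) (hy i)
      _ ≤ M * t := hM
  exact le_of_mul_le_mul_right h1 ht

theorem NFI_ha_nonneg {z : ℕ} (A : Finset ℕ) (x : ℕ → ℝ) : 0 ≤ HA z A x := by
  rw [HA]
  refine Finset.sum_nonneg fun a _ => mul_nonneg (div_nonneg ?_ (Nat.cast_nonneg a)) (sq_nonneg _)
  rw [VV]
  refine Finset.prod_nonneg fun p hp => ?_
  have hp1 : (1 : ℝ) ≤ p := by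
    exact_mod_cast (Finset.mem_filter.1 hp).2.one_lt.le
  rw [sub_nonneg, div_le_one (by linarith)]
  exact hp1

theorem NFI_int {z : ℕ} {A : Finset ℕ} (hA : ∀ a ∈ A, smooth z a) {I : Finset ℕ}
    (hI : ∀ p ∈ I, p.Prime) (hI2 : ∀ p : ℕ, p.Prime → p ≤ z → p ∈ I) {P : Measure (ℕ → ℝ)}
    (hP : IsST I P) : ∫ x, HA z A x ∂P = VV z * ∑ a ∈ A, 1 / (a : ℝ) := by
  have h1 : ∀ a ∈ A, ∫ x, Um a x ^ 2 ∂P = 1 := fun a ha =>
    (um_four hI hP (hA a ha).1 (NFI_pf (hA a ha) hI2)).1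
  have h2 : ∀ a ∈ A, Integrable (fun x => Um a x ^ 2) P := by
    intro a ha
    by_contra h
    have := integral_undef h
    rw [h1 a ha] at this
    exact one_ne_zero this
  have h3 : ∫ x, HA z A x ∂P = ∑ a ∈ A, ∫ x, VV z / a * Um a x ^ 2 ∂P := by
    simp only [HA]
    exact integral_finsetSum _ fun a ha => (h2 a ha).const_mul _
  rw [h3, Finset.mul_sum]
  refine Finset.sum_congr rfl fun a ha => ?_
  rw [integral_const_mul, h1 a ha]
  ring

/-- the sharp natural passage -/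
theorem nat_sharp_pr : ∃ C₄ : ℝ, ∀ ε : ℝ, 0 < ε → ∃ (z : ℕ) (A : Finset ℕ), (∀ a ∈ A, smooth z a) ∧
    1 - ε ≤ VV z * ∑ a ∈ A, 1 / (a : ℝ) ∧
    (∀ (I : Finset ℕ), (∀ p ∈ I, p.Prime) → (∀ p : ℕ, p.Prime → p ≤ z → p ∈ I) →
      ∀ P : Measure (ℕ → ℝ), IsST I P → 1 - ε ≤ ∫ x, HA z A x ∂P ∧ ∫ x, HA z A x ^ 4 ∂P ≤ C₄) ∧
    ∃ N₀ : ℕ, ∀ (N : ℕ) [Fact N.Prime], N₀ ≤ N → ∀ {ι : Type} [Fintype ι] (f : ι → S2 N),
      Function.Injective f → (∀ i, IsNew (f i)) → ∀ s : Finset ι,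
      (∀ i ∈ s, 4 * Real.pi * nr (f i) < N / 12 * ((1 - ε) * HA z A (la (f i)) - ε)) →
        ∑ i ∈ s, om (f i) ≤ ε := by
  classical
  obtain ⟨C₄, hC₄⟩ := ha_four
  refine ⟨C₄, fun ε₀ hε₀ => ?_⟩
  set ε : ℝ := min ε₀ 1 with hεdef
  have hε : 0 < ε := lt_min hε₀ one_pos
  have hε1 : ε ≤ 1 := min_le_right _ _
  have hεε : ε ≤ ε₀ := min_le_left _ _
  set u : ℝ := ε / 60 with hudef
  have hu : 0 < u := by positivity
  have hu1 : u ≤ 1 := by rw [hudef]; linarith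
  obtain ⟨C, hC1, hC⟩ := nr_strip (ε := u) hu
  obtain ⟨N₁, hN₁⟩ := hC C le_rfl
  obtain ⟨K, hK1, hK⟩ := rough_main (δ := u) hu
  obtain ⟨C₂, hC₂⟩ := rough_var
  set E : ℝ := Real.exp (8 * Real.pi * (1 / 2)) with hE
  have hE1 : 1 ≤ E := Real.one_le_exp (by have := Real.pi_pos; positivity)
  have hsE : 1 ≤ Real.sqrt E := Real.one_le_sqrt.2 hE1
  set u₂ : ℝ := u * ε / (2 * Real.sqrt E) with hu₂
  have hu₂0 : 0 < u₂ := by positivity
  have hu₂1 : u₂ ≤ ε := by
    rw [hu₂, div_le_iff₀ (by positivity)]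
    nlinarith
  have hC0 : 0 < C := by linarith
  obtain ⟨z, κ, A, hz2, hκ0, hκ1, hA, hA1, hA2⟩ := smooth_param K (ε := u₂) (C₂ := max C₂ 1)
    (C := C) hu₂0 (lt_of_lt_of_le one_pos (le_max_right _ _)) hC1
  have hA' : ∀ a ∈ A, smooth z a := fun a ha => (hA a ha).1
  have hA1' : 1 - ε ≤ VV z * ∑ a ∈ A, 1 / (a : ℝ) := by linarith
  have hex : ∀ a : ℕ, ∃ N₂ : ℕ, a ∈ A → ∀ N : ℕ, N₂ ≤ N →
      (1 - u) * VV z * (C * N / (4 * Real.pi * a)) ≤ NFI_rs z ⌊κ * N⌋₊ (C * N) a := by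
    intro a
    by_cases ha : a ∈ A
    · obtain ⟨N₂, hN₂⟩ := hK z κ C a hκ0 hC0 (Nat.pos_of_ne_zero (hA a ha).1.1) (hA a ha).2
      exact ⟨N₂, fun _ N hN => hN₂ N hN⟩
    · exact ⟨0, fun h => absurd h ha⟩
  choose N₂ hN₂ using hex
  refine ⟨z, A, hA', by linarith, ?_, N₁ + (z + 1) + ∑ a ∈ A, (N₂ a + 4 * (a * a)), ?_⟩
  · intro I hI hI2 P hP
    refine ⟨?_, hC₄ z A hA' I hI hI2 P hP⟩
    rw [NFI_int hA' hI hI2 hP]
    linarith
  · intro N _ hN ι _ f hi hn s hs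
    have hNpos : (0 : ℝ) < N := by exact_mod_cast (Fact.out : N.Prime).pos
    have hNa : ∀ a ∈ A, N₂ a + 4 * (a * a) ≤ N := by
      intro a ha
      have := Finset.single_le_sum (f := fun a => N₂ a + 4 * (a * a)) (fun _ _ => Nat.zero_le _) ha
      omega
    have hzN : z < N := by omega
    have hR : 0 < C * (N : ℝ) := by positivity
    set B : ℕ := ⌊κ * N⌋₊ with hB
    have hBle : (B : ℝ) ≤ κ * N := Nat.floor_le (by positivity)
    have hBN : B < N := by
      have : (B : ℝ) < N := by nlinarith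
      exact_mod_cast this
    have hvar : ∀ a ∈ A, ∑ i, om (f i) * (NFI_ws (f i) z B (C * N) a - NFI_rs z B (C * N) a) ^ 2 ≤
        (max C₂ 1) * (C * N / a) ^ 2 * (1 / z + B / N) := by
      intro a ha
      have h1 := hC₂ N f hi hn z a B (by omega) (Nat.pos_of_ne_zero (hA a ha).1.1) hBN (C * N) hR
      refine le_trans h1 ?_
      have h2 : (0 : ℝ) ≤ (C * N / a) ^ 2 * (1 / z + B / N) := by positivity
      calc C₂ * (C * N / a) ^ 2 * (1 / z + B / N) = C₂ * ((C * N / a) ^ 2 * (1 / z + B / N)) := by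
            ring
        _ ≤ (max C₂ 1) * ((C * N / a) ^ 2 * (1 / z + B / N)) :=
            mul_le_mul_of_nonneg_right (le_max_left _ _) h2
        _ = _ := by ring
    have herr := NFI_err f hi hn hzN hA' (fun a ha => by have := hNa a ha; omega)
      (C₂ := max C₂ 1) (κ := κ) (le_trans zero_le_one (le_max_right _ _)) hR hBle hvar
    have hlow : ∀ i, (1 - u) * (C * N / (4 * Real.pi)) * HA z A (la (f i)) -
        (∑ a ∈ A, la (f i) a ^ 2 * |NFI_ws (f i) z B (C * N) a - NFI_rs z B (C * N) a|) ≤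
        sm (f i) (C * N) := by
      intro i
      refine NFI_lower (hn i) hzN hA' hR fun a ha => ?_
      exact hN₂ a ha N (by have := hNa a ha; omega)
    set er : ι → ℝ := fun i => ∑ a ∈ A, la (f i) a ^ 2 *
      |NFI_ws (f i) z B (C * N) a - NFI_rs z B (C * N) a| with her
    have her0 : ∀ i, 0 ≤ er i := fun i => Finset.sum_nonneg fun a _ => by positivity
    have herr2 : ∑ i, om (f i) * er i ≤ (ε / 2) * (u * (C * N)) := by
      refine herr.trans ?_
      calc Real.sqrt E * (C * N) * ((∑ a ∈ A, Real.sqrt (a.divisors.card) / a) *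
            Real.sqrt ((max C₂ 1) * (1 / z + κ)))
          ≤ Real.sqrt E * (C * N) * u₂ := mul_le_mul_of_nonneg_left hA2 (by positivity)
        _ = (ε / 2) * (u * (C * N)) := by
            rw [hu₂]
            field_simp
    set s₁ := s.filter (fun i => 12 * C * (1 + u) * nr (f i) + u * C * N < sm (f i) (C * N)) with hs₁
    set s₂ := s.filter (fun i => u * (C * N) ≤ er i) with hs₂
    have hm1 : ∑ i ∈ s₁, om (f i) ≤ u :=
      hN₁ N (by omega) f hi hn s₁ fun i hi => (Finset.mem_filter.1 hi).2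
    have hm2 : ∑ i ∈ s₂, om (f i) ≤ ε / 2 :=
      NFI_markov (fun i => NFI_om_nonneg (hn i)) her0 (by positivity) herr2 s₂
        fun i hi => (Finset.mem_filter.1 hi).2
    have hcov : s ⊆ s₁ ∪ s₂ := by
      intro i his
      rw [Finset.mem_union]
      by_contra hcon
      rw [not_or, hs₁, hs₂, Finset.mem_filter, Finset.mem_filter, not_and, not_and] at hcon
      have c1 := not_lt.1 (hcon.1 his)
      have c2 := not_le.1 (hcon.2 his)
      have c3 := hlow i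
      have c4 := hs i his
      set H : ℝ := HA z A (la (f i)) with hH
      have hH0 : 0 ≤ H := NFI_ha_nonneg A _
      have hnr := NFI_nr_nonneg (hn i)
      -- the inequality for the smaller parameter
      have c5 : 4 * Real.pi * nr (f i) < N / 12 * ((1 - ε) * H - ε) := by
        refine lt_of_lt_of_le c4 (mul_le_mul_of_nonneg_left ?_ (by positivity))
        nlinarith
      have c6 : (1 - u) * (C * N / (4 * Real.pi)) * H ≤
          12 * C * (1 + u) * nr (f i) + 2 * (u * (C * N)) := by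
        have : er i < u * (C * N) := c2
        have h7 : (1 - u) * (C * N / (4 * Real.pi)) * H - er i ≤ sm (f i) (C * N) := c3
        linarith
      have hpi := Real.pi_pos
      have c7 : (1 - u) * H * N ≤ 12 * (1 + u) * (4 * Real.pi * nr (f i)) + 8 * Real.pi * u * N := by
        have h8 := mul_le_mul_of_nonneg_left c6 (show (0 : ℝ) ≤ 4 * Real.pi / C by positivity)
        have e1 : 4 * Real.pi / C * ((1 - u) * (C * N / (4 * Real.pi)) * H) = (1 - u) * H * N := by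
          field_simp
        have e2 : 4 * Real.pi / C * (12 * C * (1 + u) * nr (f i) + 2 * (u * (C * N))) =
            12 * (1 + u) * (4 * Real.pi * nr (f i)) + 8 * Real.pi * u * N := by
          field_simp
          ring
        rw [e1, e2] at h8
        exact h8
      have c8 : 12 * (1 + u) * (4 * Real.pi * nr (f i)) <
          (1 + u) * N * ((1 - ε) * H - ε) := by
        have := mul_lt_mul_of_pos_left c5 (show (0 : ℝ) < 12 * (1 + u) by positivity)
        calc _ < 12 * (1 + u) * (N / 12 * ((1 - ε) * H - ε)) := this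
          _ = _ := by ring
      have c9 : (1 - u) * H * N < ((1 + u) * ((1 - ε) * H - ε) + 8 * Real.pi * u) * N := by
        linarith
      have c10 : (1 - u) * H < (1 + u) * ((1 - ε) * H - ε) + 8 * Real.pi * u :=
        lt_of_mul_lt_mul_right c9 hNpos.le
      have c11 : 8 * Real.pi * u ≤ ε := by
        have := Real.pi_lt_four
        rw [hudef]
        nlinarith
      have c12 : (1 + u) * (1 - ε) ≤ 1 - u := by
        have : 2 * u ≤ ε := by rw [hudef]; linarith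
        nlinarith
      have c13 : (1 + u) * ((1 - ε) * H) ≤ (1 - u) * H := by
        calc (1 + u) * ((1 - ε) * H) = ((1 + u) * (1 - ε)) * H := by ring
          _ ≤ _ := mul_le_mul_of_nonneg_right c12 hH0
      have c14 : 0 ≤ u * ε := by positivity
      linarith
    calc ∑ i ∈ s, om (f i) ≤ ∑ i ∈ s₁ ∪ s₂, om (f i) :=
          Finset.sum_le_sum_of_subset_of_nonneg hcov fun i _ _ => NFI_om_nonneg (hn i)
      _ ≤ ∑ i ∈ s₁, om (f i) + ∑ i ∈ s₂, om (f i) := by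
          rw [← Finset.sum_union_inter]
          have : 0 ≤ ∑ i ∈ s₁ ∩ s₂, om (f i) :=
            Finset.sum_nonneg fun i _ => NFI_om_nonneg (hn i)
          linarith
      _ ≤ u + ε / 2 := add_le_add hm1 hm2
      _ ≤ ε := by rw [hudef]; linarith
      _ ≤ ε₀ := hεε

theorem nat_sharp : type_of% @nat_sharp_pr := @nat_sharp_pr

end Pool.Agent.KSL
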