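import Pool.Agent.Lib_helper41.KSL.DefsN
import Pool.Agent.Lib_helper68.LEV.LSC
import Pool.Agent.Lib_helper41.LVBF.TWS

/-! Block CPR: coefficients at the two cusps, two lengths. Cites `two_strips` (LVB TWS). -/

set_option autoImplicit false

namespace Pool.Agent.KSL

open Pool.Agent.LVB Pool.Agent.LEV Complex MeasureTheory Filter Topology UpperHalfPlane ModularGroup
  ProbabilityTheory
open scoped MatrixGroups Modular ENNReal ModularForm ComplexConjugate ContDiff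

section
variable {N : ℕ} [Fact N.Prime]

theorem CPR_term {x E : ℝ} {n : ℝ} (hn : 0 < n) {t : ℝ} (ht : t ≤ E) :
    x ^ 2 / n ≤ 4 * Real.pi * Real.exp E * (x ^ 2 / (4 * Real.pi * n) * Real.exp (-t)) := by
  have h3 : 1 ≤ Real.exp E * Real.exp (-t) := by
    rw [← Real.exp_add]
    exact Real.one_le_exp (by linarith)
  have h6 : 0 ≤ x ^ 2 / n := by positivity
  calc x ^ 2 / n = x ^ 2 / n * 1 := (mul_one _).symm
    _ ≤ x ^ 2 / n * (Real.exp E * Real.exp (-t)) := mul_le_mul_of_nonneg_left h3 h6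
    _ = 4 * Real.pi * Real.exp E * (x ^ 2 / (4 * Real.pi * n) * Real.exp (-t)) := by
        have := Real.pi_pos.ne'
        field_simp

theorem CPR_sum (g : S2 N) {ν : ℝ} (h0 : 0 < ν) {X : ℕ} (hX : 1 ≤ X) :
    ∑ n ∈ Finset.Icc 1 X, ‖co g n‖ ^ 2 / n ≤ 4 * Real.pi * Real.exp (8 * Real.pi * ν) *
      ∑' n : ℕ, ‖co g n‖ ^ 2 / (4 * Real.pi * n) * Real.exp (-4 * Real.pi * n * (2 * ν / X)) := by
  have hpi := Real.pi_pos
  have hX1' : (1 : ℝ) ≤ X := by exact_mod_cast hX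
  have hY : 0 < 2 * ν / X := by positivity
  obtain ⟨s1, _⟩ := strip_sum g hY
  have f1 := s1.sum_le_tsum (Finset.Icc 1 X) (fun n _ => by positivity)
  have hc : 0 ≤ 4 * Real.pi * Real.exp (8 * Real.pi * ν) := by positivity
  refine le_trans ?_ (mul_le_mul_of_nonneg_left f1 hc)
  rw [Finset.mul_sum]
  refine Finset.sum_le_sum fun n hn => ?_
  obtain ⟨b1, b2⟩ := Finset.mem_Icc.mp hn
  have hn0 : (0 : ℝ) < n := by exact_mod_cast b1
  have hnX : (n : ℝ) ≤ X := by exact_mod_cast b2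
  have e : -4 * Real.pi * n * (2 * ν / X) = -(8 * Real.pi * ν * (n / X)) := by ring
  rw [e]
  refine CPR_term hn0 ?_
  have b3 : (n : ℝ) / X ≤ 1 := by
    rw [div_le_iff₀ (by positivity)]
    linarith
  have : 0 < 8 * Real.pi * ν := by positivity
  nlinarith

theorem coef_pair_pr {W : S2 N →ₗ[ℂ] S2 N} (hW : IsFricke W) (g : S2 N) {ν : ℝ} (h0 : 0 < ν)
    (h1 : ν < 1) {X₁ X₂ : ℕ} (hX₁ : 1 ≤ X₁) (hX₂ : 1 ≤ X₂) (hX : (X₁ : ℝ) * X₂ ≤ ν ^ 2 * N) :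
    (∑ n ∈ Finset.Icc 1 X₁, ‖co g n‖ ^ 2 / n) + (∑ n ∈ Finset.Icc 1 X₂, ‖co (W g) n‖ ^ 2 / n) ≤
      4 * Real.pi * Real.exp (8 * Real.pi * ν) * nr g := by
  have hN : (0 : ℝ) < N := by exact_mod_cast (Fact.out : N.Prime).pos
  have hpi := Real.pi_pos
  have hX1' : (1 : ℝ) ≤ X₁ := by exact_mod_cast hX₁
  have hX2' : (1 : ℝ) ≤ X₂ := by exact_mod_cast hX₂
  have hY1 : 0 < 2 * ν / X₁ := by positivity
  have hY2 : 0 < 2 * ν / X₂ := by positivity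
  have hb1 : (X₁ : ℝ) ≤ ν ^ 2 * N := by nlinarith
  have hb2 : (X₂ : ℝ) ≤ ν ^ 2 * N := by nlinarith
  have hsm : ν ^ 2 * N < 2 * ν * N := by nlinarith [mul_pos h0 hN]
  have a1 : 1 / (N : ℝ) < 2 * ν / X₁ := by
    rw [div_lt_div_iff₀ hN (by positivity)]
    linarith
  have a2 : 1 / (N : ℝ) < 2 * ν / X₂ := by
    rw [div_lt_div_iff₀ hN (by positivity)]
    linarith
  have a3 : 1 / (N : ℝ) < 2 * ν / X₁ * (2 * ν / X₂) := by
    rw [div_mul_div_comm, div_lt_div_iff₀ hN (by positivity)]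
    have : 0 < ν ^ 2 * N := by positivity
    nlinarith
  have hm := two_strips hW g a1 a2 a3
  obtain ⟨s1, e1⟩ := strip_sum g hY1
  obtain ⟨s2, e2⟩ := strip_sum (W g) hY2
  have n1 : 0 ≤ ∑' n : ℕ, ‖co g n‖ ^ 2 / (4 * Real.pi * n) *
      Real.exp (-4 * Real.pi * n * (2 * ν / X₁)) := tsum_nonneg fun n => by positivity
  have n2 : 0 ≤ ∑' n : ℕ, ‖co (W g) n‖ ^ 2 / (4 * Real.pi * n) *
      Real.exp (-4 * Real.pi * n * (2 * ν / X₂)) := tsum_nonneg fun n => by positivity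
  rw [e1, e2, ← ENNReal.ofReal_add n1 n2, ENNReal.ofReal_le_ofReal_iff (LSC_nr_nonneg g)] at hm
  have t1 := CPR_sum g h0 hX₁
  have t2 := CPR_sum (W g) h0 hX₂
  have hc : 0 ≤ 4 * Real.pi * Real.exp (8 * Real.pi * ν) := by positivity
  calc (∑ n ∈ Finset.Icc 1 X₁, ‖co g n‖ ^ 2 / n) + (∑ n ∈ Finset.Icc 1 X₂, ‖co (W g) n‖ ^ 2 / n)
      ≤ 4 * Real.pi * Real.exp (8 * Real.pi * ν) *
      ((∑' n : ℕ, ‖co g n‖ ^ 2 / (4 * Real.pi * n) * Real.exp (-4 * Real.pi * n * (2 * ν / X₁))) +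
        ∑' n : ℕ, ‖co (W g) n‖ ^ 2 / (4 * Real.pi * n) *
          Real.exp (-4 * Real.pi * n * (2 * ν / X₂))) := by
        rw [mul_add]
        exact add_le_add t1 t2
    _ ≤ 4 * Real.pi * Real.exp (8 * Real.pi * ν) * nr g := mul_le_mul_of_nonneg_left hm hc

end

theorem coef_pair : type_of% @coef_pair_pr := @coef_pair_pr

end Pool.Agent.KSL
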