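import Pool.Agent.Lib_helper41.KSL.DefsN
import Pool.Agent.Lib_helper68.LEV.LSD
import Pool.Agent.Lib_helper68.LEV.EIA
import Pool.Agent.Lib_helper41.KSNF.CPR

/-! Block LS2: the large sieve with two cusps. Cites `coef_pair` (block CPR). -/

set_option autoImplicit false

namespace Pool.Agent.KSL

open Pool.Agent.LVB Pool.Agent.LEV Complex MeasureTheory Filter Topology UpperHalfPlane ModularGroup
  ProbabilityTheory
open scoped MatrixGroups Modular ENNReal ModularForm ComplexConjugate ContDiff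

section
variable {N : ℕ} [Fact N.Prime]

theorem LS2_co {f : S2 N} (hf : IsNew f) (n : ℕ) :
    co f n / (Real.sqrt n : ℂ) = (la f n : ℂ) := by
  have h1 : co f n = ((co f n).re : ℂ) := by
    apply Complex.ext
    · simp
    · simp [new_real hf n]
  unfold la
  rw [h1]
  push_cast
  simp

theorem LS2_se {f : S2 N} (hf : IsNew f) : co f N = (se f : ℂ) := by
  apply Complex.ext
  · simp [se]
  · simp [new_real hf N]

theorem LS2_sq {x : ℂ} {n : ℕ} {t : ℝ} (h : x / (Real.sqrt n : ℂ) = (t : ℂ)) :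
    ‖x‖ ^ 2 / n = t ^ 2 := by
  have h2 := congrArg (fun z : ℂ => ‖z‖ ^ 2) h
  simp only [norm_div, Complex.norm_real, Real.norm_eq_abs, div_pow, sq_abs] at h2
  rw [Real.sq_sqrt (Nat.cast_nonneg n)] at h2
  exact h2

theorem ls_two_pr {ι : Type} [Fintype ι] (f : ι → S2 N) (hi : Function.Injective f)
    (hn : ∀ i, IsNew (f i)) {ν : ℝ} (h0 : 0 < ν) (h1 : ν < 1) {X₁ X₂ : ℕ} (hX₁ : 1 ≤ X₁)
    (hX₂ : 1 ≤ X₂) (hX : (X₁ : ℝ) * X₂ ≤ ν ^ 2 * N) (b c : ℕ → ℝ) :
    ∑ i, om (f i) * ((∑ n ∈ Finset.Icc 1 X₁, b n * la (f i) n) +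
      se (f i) * (∑ n ∈ Finset.Icc 1 X₂, c n * la (f i) n)) ^ 2 ≤
      Real.exp (8 * Real.pi * ν) * ((∑ n ∈ Finset.Icc 1 X₁, b n ^ 2) +
        (∑ n ∈ Finset.Icc 1 X₂, c n ^ 2)) := by
  have hpi := Real.pi_pos
  have hnr : ∀ i, 0 < nr (f i) := fun i => nr_pos (new_ne_zero (hn i))
  have ho : ∀ i j, i ≠ j → pet (f i) (f j) = 0 := fun i j hij =>
    new_orth (hn i) (hn j) (fun h => hij (hi h))
  obtain ⟨W, hW⟩ := fricke_exists (N := N)
  set v : ι → ℝ := fun i => (∑ n ∈ Finset.Icc 1 X₁, b n * la (f i) n) +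
      se (f i) * (∑ n ∈ Finset.Icc 1 X₂, c n * la (f i) n) with hv
  set S : ℝ := ∑ i, om (f i) * v i ^ 2 with hS
  have hom : ∀ i, 0 < om (f i) := fun i => by
    have := hnr i
    unfold om
    positivity
  have hS0 : 0 ≤ S := Finset.sum_nonneg (fun i _ => mul_nonneg (hom i).le (sq_nonneg _))
  set d : ι → ℂ := fun i => ((om (f i) * v i : ℝ) : ℂ) with hd
  set F : S2 N := ∑ i, d i • f i with hF
  have hnF : nr F = S / (4 * Real.pi) := by
    rw [hF, LSD_nr_sum f ho d, hS, Finset.sum_div]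
    apply Finset.sum_congr rfl
    intro i _
    simp only [hd]
    rw [Complex.norm_real, Real.norm_eq_abs, sq_abs]
    unfold om
    have := (hnr i).ne'
    field_simp
  set p : ℕ → ℝ := fun n => ∑ i, om (f i) * v i * la (f i) n with hp
  set q : ℕ → ℝ := fun n => ∑ i, om (f i) * v i * (se (f i) * la (f i) n) with hq
  have hcoF : ∀ n, co F n / (Real.sqrt n : ℂ) = ((p n : ℝ) : ℂ) := by
    intro n
    have e1 : co F n = ∑ i, d i * co (f i) n := by
      rw [hF, LSD_co_sum]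
      exact Finset.sum_congr rfl (fun i _ => co_smul _ _ _)
    rw [e1, Finset.sum_div]
    simp only [hp]
    push_cast
    apply Finset.sum_congr rfl
    intro i _
    rw [mul_div_assoc, LS2_co (hn i) n]
    simp only [hd]
    push_cast
    ring
  have hWF : ∀ n, co (W F) n / (Real.sqrt n : ℂ) = ((-q n : ℝ) : ℂ) := by
    intro n
    have e1 : W F = ∑ i, d i • W (f i) := by
      rw [hF, map_sum]
      exact Finset.sum_congr rfl (fun i _ => map_smul _ _ _)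
    rw [e1, LSD_co_sum, Finset.sum_div]
    simp only [hq]
    push_cast
    rw [← Finset.sum_neg_distrib]
    apply Finset.sum_congr rfl
    intro i _
    rw [co_smul, (new_fricke (hn i) hW).1, co_smul, LS2_se (hn i), mul_div_assoc, mul_div_assoc,
      LS2_co (hn i) n]
    simp only [hd]
    push_cast
    ring
  -- `S` as a bilinear form
  have hSF : S = (∑ n ∈ Finset.Icc 1 X₁, b n * p n) + ∑ n ∈ Finset.Icc 1 X₂, c n * q n := by
    have e1 : S = ∑ i, ((∑ n ∈ Finset.Icc 1 X₁, b n * (om (f i) * v i * la (f i) n)) +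
        (∑ n ∈ Finset.Icc 1 X₂, c n * (om (f i) * v i * (se (f i) * la (f i) n)))) := by
      rw [hS]
      apply Finset.sum_congr rfl
      intro i _
      have e2 : om (f i) * v i ^ 2 = om (f i) * v i * ((∑ n ∈ Finset.Icc 1 X₁, b n * la (f i) n) +
          se (f i) * (∑ n ∈ Finset.Icc 1 X₂, c n * la (f i) n)) := by
        have e3 : (∑ n ∈ Finset.Icc 1 X₁, b n * la (f i) n) +
          se (f i) * (∑ n ∈ Finset.Icc 1 X₂, c n * la (f i) n) = v i := rfl
        rw [e3]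
        ring
      rw [e2, mul_add, Finset.mul_sum, Finset.mul_sum, Finset.mul_sum]
      congr 1
      · apply Finset.sum_congr rfl
        intro n _
        ring
      · apply Finset.sum_congr rfl
        intro n _
        ring
    rw [e1, Finset.sum_add_distrib, Finset.sum_comm]
    congr 1
    · apply Finset.sum_congr rfl
      intro n _
      rw [hp]
      simp only
      rw [Finset.mul_sum]
    · rw [Finset.sum_comm]
      apply Finset.sum_congr rfl
      intro n _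
      rw [hq]
      simp only
      rw [Finset.mul_sum]
  have hco2 := coef_pair hW F h0 h1 hX₁ hX₂ hX
  rw [hnF] at hco2
  have e3 : ∑ n ∈ Finset.Icc 1 X₁, ‖co F n‖ ^ 2 / n = ∑ n ∈ Finset.Icc 1 X₁, p n ^ 2 :=
    Finset.sum_congr rfl fun n _ => LS2_sq (hcoF n)
  have e4 : ∑ n ∈ Finset.Icc 1 X₂, ‖co (W F) n‖ ^ 2 / n = ∑ n ∈ Finset.Icc 1 X₂, q n ^ 2 :=
    Finset.sum_congr rfl fun n _ => by rw [LS2_sq (hWF n), neg_sq]
  rw [e3, e4] at hco2
  have e5 : 4 * Real.pi * Real.exp (8 * Real.pi * ν) * (S / (4 * Real.pi)) =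
      Real.exp (8 * Real.pi * ν) * S := by field_simp
  rw [e5] at hco2
  -- Cauchy-Schwarz
  have hCS1 : (∑ n ∈ Finset.Icc 1 X₁, b n * p n) ^ 2 ≤
      (∑ n ∈ Finset.Icc 1 X₁, b n ^ 2) * ∑ n ∈ Finset.Icc 1 X₁, p n ^ 2 :=
    Finset.sum_mul_sq_le_sq_mul_sq _ _ _
  have hCS2 : (∑ n ∈ Finset.Icc 1 X₂, c n * q n) ^ 2 ≤
      (∑ n ∈ Finset.Icc 1 X₂, c n ^ 2) * ∑ n ∈ Finset.Icc 1 X₂, q n ^ 2 :=
    Finset.sum_mul_sq_le_sq_mul_sq _ _ _
  have hB0 : 0 ≤ ∑ n ∈ Finset.Icc 1 X₁, b n ^ 2 := Finset.sum_nonneg fun _ _ => sq_nonneg _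
  have hP0 : 0 ≤ ∑ n ∈ Finset.Icc 1 X₁, p n ^ 2 := Finset.sum_nonneg fun _ _ => sq_nonneg _
  have hC0 : 0 ≤ ∑ n ∈ Finset.Icc 1 X₂, c n ^ 2 := Finset.sum_nonneg fun _ _ => sq_nonneg _
  have hQ0 : 0 ≤ ∑ n ∈ Finset.Icc 1 X₂, q n ^ 2 := Finset.sum_nonneg fun _ _ => sq_nonneg _
  have hCS : S ^ 2 ≤ ((∑ n ∈ Finset.Icc 1 X₁, b n ^ 2) + (∑ n ∈ Finset.Icc 1 X₂, c n ^ 2)) *
      (Real.exp (8 * Real.pi * ν) * S) := by
    refine le_trans ?_ (mul_le_mul_of_nonneg_left hco2 (by positivity))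
    rw [hSF]
    generalize (∑ n ∈ Finset.Icc 1 X₁, b n * p n) = u at hCS1
    generalize (∑ n ∈ Finset.Icc 1 X₁, b n ^ 2) = B at hCS1 hB0
    generalize (∑ n ∈ Finset.Icc 1 X₁, p n ^ 2) = Q at hCS1 hP0
    generalize (∑ n ∈ Finset.Icc 1 X₂, c n * q n) = u' at hCS2
    generalize (∑ n ∈ Finset.Icc 1 X₂, c n ^ 2) = B' at hCS2 hC0
    generalize (∑ n ∈ Finset.Icc 1 X₂, q n ^ 2) = Q' at hCS2 hQ0
    have h3 : 2 * u * u' ≤ B * Q' + B' * Q := by
      have h5 : 0 ≤ B * Q' := by positivity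
      have h6 : 0 ≤ B' * Q := by positivity
      have h4 : (u * u') ^ 2 ≤ (B * Q') * (B' * Q) := by
        calc (u * u') ^ 2 = u ^ 2 * u' ^ 2 := by ring
          _ ≤ (B * Q) * (B' * Q') := mul_le_mul hCS1 hCS2 (sq_nonneg _) (by positivity)
          _ = _ := by ring
      have h7 : (2 * u * u') ^ 2 ≤ (B * Q' + B' * Q) ^ 2 := by
        nlinarith [sq_nonneg (B * Q' - B' * Q)]
      exact (le_abs_self _).trans (abs_le_of_sq_le_sq h7 (by positivity))
    nlinarith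
  exact LSD_dual hS0 (Real.exp_pos _).le (by positivity) hCS

end

theorem ls_two : type_of% @ls_two_pr := @ls_two_pr

end Pool.Agent.KSL
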