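import Pool.Agent.Lib_helper41.KSL.DefsN
import Pool.Agent.Lib_helper68.LEV.HPO
import Pool.Agent.Lib_helper68.LEV.EIA
import Pool.Agent.Lib_helper41.LVBF.STO
import Pool.Agent.Lib_helper41.KSNF.LS2

/-! KSN block TR2: transfer of the second moment of `G + se H` to the random model.
Cites ls_two (LS2) from WantedN and st_sq (STO) from WantedA. -/

set_option autoImplicit false

namespace Pool.Agent.KSL

open Pool.Agent.LVB Pool.Agent.LEV Complex MeasureTheory Filter Topology UpperHalfPlane ModularGroup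
  ProbabilityTheory
open scoped MatrixGroups Modular ENNReal ModularForm ComplexConjugate ContDiff

section
variable {N : ℕ} [Fact N.Prime]

theorem TR2_poly {I : Finset ℕ} (hI : ∀ p ∈ I, p.Prime ∧ p < N) {X : ℕ} {b : ℕ → ℝ}
    {G : (ℕ → ℝ) → ℝ} (hb : ∀ m, b m ≠ 0 → 1 ≤ m ∧ m ≤ X ∧ m.primeFactors ⊆ I)
    (hG : ∀ x, G x = ∑ m ∈ Finset.Icc 1 X, b m * Um m x) {g : S2 N} (hg : IsNew g) :
    G (la g) = ∑ m ∈ Finset.Icc 1 X, b m * la g m := by
  rw [hG (la g)]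
  refine Finset.sum_congr rfl fun m _ => ?_
  by_cases hcz : b m = 0
  · rw [hcz, zero_mul, zero_mul]
  · obtain ⟨g1, g2, g3⟩ := hb m hcz
    have hco : m.Coprime N := by
      rw [Nat.coprime_comm, (Fact.out : N.Prime).coprime_iff_not_dvd]
      intro hd
      have : N ∈ m.primeFactors := Nat.mem_primeFactors.mpr ⟨Fact.out, hd, by omega⟩
      exact absurd (hI N (g3 this)).2 (lt_irrefl _)
    rw [um_new hg (new_real hg) (by omega) hco]

/-! block TR2 -/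

theorem transfer_two_pr {ι : Type} [Fintype ι] (f : ι → S2 N) (hi : Function.Injective f)
    (hn : ∀ i, IsNew (f i)) {ν : ℝ} (h0 : 0 < ν) (h1 : ν < 1) {X₁ X₂ : ℕ} (hX₁ : 1 ≤ X₁)
    (hX₂ : 1 ≤ X₂) (hX : (X₁ : ℝ) * X₂ ≤ ν ^ 2 * N) {I : Finset ℕ}
    (hI : ∀ p ∈ I, p.Prime ∧ p < N) {P : Measure (ℕ → ℝ)} (hP : IsST I P) {G H : (ℕ → ℝ) → ℝ}
    (hG : HPoly I X₁ G) (hH : HPoly I X₂ H) :
    ∑ i, om (f i) * (G (la (f i)) + se (f i) * H (la (f i))) ^ 2 ≤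
      Real.exp (8 * Real.pi * ν) * ((∫ x, G x ^ 2 ∂P) + (∫ x, H x ^ 2 ∂P)) := by
  obtain ⟨b, hb, hG'⟩ := hG
  obtain ⟨c, hc, hH'⟩ := hH
  have e1 : ∀ i, G (la (f i)) = ∑ m ∈ Finset.Icc 1 X₁, b m * la (f i) m := fun i =>
    TR2_poly hI hb hG' (hn i)
  have e2 : ∀ i, H (la (f i)) = ∑ m ∈ Finset.Icc 1 X₂, c m * la (f i) m := fun i =>
    TR2_poly hI hc hH' (hn i)
  have e3 : ∫ x, G x ^ 2 ∂P = ∑ m ∈ Finset.Icc 1 X₁, b m ^ 2 := by
    rw [← st_sq (fun p hp => (hI p hp).1) hP hb]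
    exact integral_congr_ae (Filter.Eventually.of_forall fun x => by simp only [hG' x])
  have e4 : ∫ x, H x ^ 2 ∂P = ∑ m ∈ Finset.Icc 1 X₂, c m ^ 2 := by
    rw [← st_sq (fun p hp => (hI p hp).1) hP hc]
    exact integral_congr_ae (Filter.Eventually.of_forall fun x => by simp only [hH' x])
  rw [e3, e4]
  simp_rw [e1, e2]
  exact ls_two f hi hn h0 h1 hX₁ hX₂ hX b c

end

theorem transfer_two : type_of% @transfer_two_pr := @transfer_two_pr

end Pool.Agent.KSL
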