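import Pool.Agent.Lib_helper41.KSL.DefsN
import Pool.Agent.Lib_helper68.LEV.EIA
import Pool.Agent.Lib_helper68.LEV.EQS
import Pool.Agent.Lib_helper68.LEV.FRK
import Pool.Agent.Lib_helper68.LEV.PET
import Pool.Agent.Lib_helper41.LVBF.HPM
import Pool.Agent.Lib_helper41.LVBF.TRA
import Pool.Agent.Lib_helper41.LVBF.TRM
import Pool.Agent.Lib_helper41.KSNF.TR2

/-! Block BIL (cites transfer, transfer_mean, hpoly_mul (LVB), transfer_two (KSL)). -/

namespace Pool.Agent.KSL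

open Pool.Agent.LVB Pool.Agent.LEV Complex MeasureTheory Filter Topology UpperHalfPlane ModularGroup
  ProbabilityTheory
open scoped MatrixGroups Modular ENNReal ModularForm ComplexConjugate ContDiff

theorem BIL_disc {a b c : ℝ} (h : ∀ t : ℝ, 0 ≤ a * t ^ 2 + 2 * b * t + c) : b ^ 2 ≤ a * c := by
  have h2 := discrim_le_zero (K := ℝ) (a := a) (b := 2 * b) (c := c) (fun t => by
    have := h t
    nlinarith)
  unfold discrim at h2
  nlinarith

theorem BIL_se {N : ℕ} [Fact N.Prime] {f : S2 N} (hf : IsNew f) : se f ^ 2 = 1 := by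
  obtain ⟨W, hW⟩ := fricke_exists (N := N)
  rcases (new_fricke hf hW).2 with h | h <;> simp [se, h]

theorem BIL_hp {I : Finset ℕ} {P : Measure (ℕ → ℝ)} (hP : IsST I P) {X : ℕ} {G : (ℕ → ℝ) → ℝ}
    (hG : HPoly I X G) : Measurable G ∧ ∃ C : ℝ, ∀ᵐ x ∂P, |G x| ≤ C := by
  obtain ⟨c, hc, hGc⟩ := hG
  have hGe : G = fun x => ∑ m ∈ Finset.Icc 1 X, c m * Um m x := funext hGc
  have hb : ∀ e : ℕ, ∃ C : ℝ, ∀ y : ℝ, |y| ≤ 2 → ‖Uu y e‖ ≤ C := by
    intro e
    obtain ⟨C, hC⟩ := (isCompact_Icc (a := (-2 : ℝ)) (b := 2)).exists_bound_of_continuousOn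
      (EQS_ucont e).continuousOn
    exact ⟨C, fun y hy => hC y (abs_le.mp hy)⟩
  choose C hC using hb
  have hm : ∀ n : ℕ, Measurable (fun x : ℕ → ℝ => Um n x) := by
    intro n
    unfold Um
    exact Finset.measurable_fun_prod _ fun p _ =>
      (EQS_ucont _).measurable.comp (measurable_pi_apply p)
  refine ⟨?_, ∑ m ∈ Finset.Icc 1 X, |c m| * ∏ p ∈ m.primeFactors, C (m.factorization p), ?_⟩
  · rw [hGe]
    exact Finset.measurable_fun_sum _ fun m _ => (hm m).const_mul _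
  · filter_upwards [hP.bdd] with x hx
    rw [hGc x]
    refine (Finset.abs_sum_le_sum_abs _ _).trans (Finset.sum_le_sum fun m _ => ?_)
    rw [abs_mul]
    by_cases h0 : c m = 0
    · rw [h0]
      simp
    · refine mul_le_mul_of_nonneg_left ?_ (abs_nonneg _)
      unfold Um
      rw [Finset.abs_prod]
      exact Finset.prod_le_prod (fun p _ => abs_nonneg _) fun p hp => hC _ _ (hx p ((hc m h0).2.2 hp))

theorem BIL_int {I : Finset ℕ} {P : Measure (ℕ → ℝ)} (hP : IsST I P) {X Y : ℕ}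
    {G H : (ℕ → ℝ) → ℝ} (hG : HPoly I X G) (hH : HPoly I Y H) :
    Integrable (fun x => G x * H x) P := by
  have := hP.prob
  obtain ⟨h1, C, hC⟩ := BIL_hp hP hG
  obtain ⟨h2, D, hD⟩ := BIL_hp hP hH
  refine Integrable.of_bound (h1.mul h2).aestronglyMeasurable (C * D) ?_
  filter_upwards [hC, hD] with x hx hy
  rw [Real.norm_eq_abs, abs_mul]
  exact mul_le_mul hx hy (abs_nonneg _) ((abs_nonneg _).trans hx)

theorem BIL_int4 {I : Finset ℕ} {P : Measure (ℕ → ℝ)} (hP : IsST I P) {X : ℕ}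
    {G : (ℕ → ℝ) → ℝ} (hG : HPoly I X G) : Integrable (fun x => G x ^ 4) P := by
  have := hP.prob
  obtain ⟨h1, C, hC⟩ := BIL_hp hP hG
  refine Integrable.of_bound (h1.pow_const 4).aestronglyMeasurable (C ^ 4) ?_
  filter_upwards [hC] with x hx
  rw [Real.norm_eq_abs, abs_pow]
  exact pow_le_pow_left₀ (abs_nonneg _) hx 4

theorem BIL_mono {I : Finset ℕ} {X Y : ℕ} (h : X ≤ Y) {G : (ℕ → ℝ) → ℝ} (hG : HPoly I X G) :
    HPoly I Y G := by
  obtain ⟨c, hc, hGc⟩ := hG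
  refine ⟨c, fun m hm => ⟨(hc m hm).1, (hc m hm).2.1.trans h, (hc m hm).2.2⟩, fun x => ?_⟩
  rw [hGc x]
  refine Finset.sum_subset (Finset.Icc_subset_Icc le_rfl h) fun m _ hm => ?_
  by_contra h0
  have h1 : c m ≠ 0 := fun h => h0 (by rw [h, zero_mul])
  exact hm (Finset.mem_Icc.mpr ⟨(hc m h1).1, (hc m h1).2.1⟩)

theorem BIL_lin {I : Finset ℕ} {X : ℕ} {G H : (ℕ → ℝ) → ℝ} (hG : HPoly I X G)
    (hH : HPoly I X H) (t : ℝ) : HPoly I X (fun x => G x + t * H x) := by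
  obtain ⟨c, hc, hGc⟩ := hG
  obtain ⟨d, hd, hHd⟩ := hH
  refine ⟨fun m => c m + t * d m, fun m hm => ?_, fun x => ?_⟩
  · by_cases h0 : c m = 0
    · by_cases h1 : d m = 0
      · exact absurd (by simp [h0, h1]) hm
      · exact hd m h1
    · exact hc m h0
  · simp only []
    rw [hGc x, hHd x, Finset.mul_sum, ← Finset.sum_add_distrib]
    exact Finset.sum_congr rfl fun m _ => by ring

theorem BIL_smul {I : Finset ℕ} {X : ℕ} {H : (ℕ → ℝ) → ℝ} (hH : HPoly I X H) (t : ℝ) :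
    HPoly I X (fun x => t * H x) := by
  obtain ⟨d, hd, hHd⟩ := hH
  refine ⟨fun m => t * d m, fun m hm => hd m fun h => hm (by simp [h]), fun x => ?_⟩
  simp only []
  rw [hHd x, Finset.mul_sum]
  exact Finset.sum_congr rfl fun m _ => by ring

theorem BIL_final {δ K M a b q e A E ε : ℝ} (hδ : 0 < δ) (hδ1 : δ ≤ 1) (hK : 1 ≤ K)
    (hM1 : 1 ≤ M) (hM : M ≤ 1 + δ) (h1 : 16 * δ * K ≤ ε ^ 2) (h2 : 2 * δ * K ≤ ε) (hε : 0 < ε)
    (ha : 0 ≤ a) (hA : 0 ≤ A) (hAa : A ≤ M * a) (hE : q - δ * K ≤ E) (hq : q ≤ K) (hq0 : 0 ≤ q) (hb : b ^ 2 ≤ a * q)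
    (hd : (M * b - e) ^ 2 ≤ (M * a - A) * (M * q - E)) : |e - b| ≤ ε * Real.sqrt a := by
  have hs : Real.sqrt a ^ 2 = a := Real.sq_sqrt ha
  have h3 : (M - 1) * q ≤ δ * K := by
    apply mul_le_mul <;> linarith
  have h4 : (M * b - e) ^ 2 ≤ (ε / 2 * Real.sqrt a) ^ 2 := by
    by_cases h5 : 0 ≤ M * q - E
    · calc (M * b - e) ^ 2 ≤ (M * a - A) * (M * q - E) := hd
        _ ≤ (M * a) * (2 * δ * K) := by
          apply mul_le_mul
          · linarith
          · linarith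
          · exact h5
          · positivity
        _ ≤ (2 * a) * (2 * (δ * K)) := by
          have : 0 ≤ a * (δ * K) := by positivity
          nlinarith
        _ ≤ (ε / 2 * Real.sqrt a) ^ 2 := by
          rw [mul_pow, hs]
          nlinarith
    · push Not at h5
      have : (M * b - e) ^ 2 ≤ 0 := hd.trans (mul_nonpos_of_nonneg_of_nonpos (by linarith) h5.le)
      exact this.trans (sq_nonneg _)
  have h5 : |M * b - e| ≤ ε / 2 * Real.sqrt a := abs_le_of_sq_le_sq h4 (by positivity)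
  have h6 : |b| ≤ K * Real.sqrt a := by
    refine abs_le_of_sq_le_sq ?_ (by positivity)
    rw [mul_pow, hs]
    refine hb.trans ?_
    nlinarith [mul_nonneg ha hq0, mul_le_mul_of_nonneg_left hq ha, mul_nonneg ha (by linarith : (0:ℝ) ≤ K)]
  have h7 : |e - b| ≤ |M * b - e| + |(M - 1) * b| := by
    have : e - b = -(M * b - e) + (M - 1) * b := by ring
    rw [this]
    exact (abs_add_le _ _).trans (by rw [abs_neg])
  have h8 : |(M - 1) * b| ≤ ε / 2 * Real.sqrt a := by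
    rw [abs_mul, abs_of_nonneg (by linarith)]
    calc (M - 1) * |b| ≤ δ * (K * Real.sqrt a) :=
        mul_le_mul (by linarith) h6 (abs_nonneg _) hδ.le
      _ = (δ * K) * Real.sqrt a := by ring
      _ ≤ ε / 2 * Real.sqrt a := by
        have := Real.sqrt_nonneg a
        nlinarith
  linarith

theorem BIL_pow {N : ℕ} {a b : ℝ} {X Y : ℕ} (hN : 1 ≤ N) (hX : X = ⌊(N : ℝ) ^ a⌋₊)
    (hY : Y = ⌊(N : ℝ) ^ b⌋₊) : (X : ℝ) * Y ≤ (N : ℝ) ^ (a + b) := by
  have h0 : (0 : ℝ) < N := by exact_mod_cast hN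
  rw [Real.rpow_add h0]
  subst hX hY
  exact mul_le_mul (Nat.floor_le (by positivity)) (Nat.floor_le (by positivity)) (by positivity)
    (by positivity)

theorem BIL_three {P : Measure (ℕ → ℝ)} {u v w : (ℕ → ℝ) → ℝ} (hu : Integrable u P)
    (hv : Integrable v P) (hw : Integrable w P) (s t : ℝ) :
    ∫ x, (u x + s * v x + t * w x) ∂P = ∫ x, u x ∂P + s * ∫ x, v x ∂P + t * ∫ x, w x ∂P := by
  have h1 : ∫ x, (u x + s * v x + t * w x) ∂P =
      ∫ x, (u x + s * v x) ∂P + ∫ x, t * w x ∂P := integral_add (hu.add (hv.const_mul s)) (hw.const_mul t)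
  have h2 : ∫ x, (u x + s * v x) ∂P = ∫ x, u x ∂P + ∫ x, s * v x ∂P :=
    integral_add hu (hv.const_mul s)
  rw [h1, h2, integral_const_mul, integral_const_mul]

/-- the bilinear principle -/
theorem bilinear_pr {ε C₀ d : ℝ} (hε : 0 < ε) (hd : 0 < d) (hd1 : d < 1) : ∃ N₀ : ℕ,
    ∀ (N : ℕ) [Fact N.Prime], N₀ ≤ N → ∀ {ι : Type} [Fintype ι] (f : ι → S2 N), AllNew f →
    ∀ {I : Finset ℕ}, (∀ p ∈ I, p.Prime ∧ p < N) → ∀ {P : Measure (ℕ → ℝ)}, IsST I P →
    ∀ {F S : (ℕ → ℝ) → ℝ}, HPoly I ⌊(N : ℝ) ^ (1 - d)⌋₊ F → HPoly I ⌊(N : ℝ) ^ (d / 8)⌋₊ S →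
      ∫ x, S x ^ 4 ∂P ≤ C₀ →
      |(∑ i, om (f i) * (F (la (f i)) * S (la (f i)))) - ∫ x, F x * S x ∂P| ≤
        ε * Real.sqrt (∫ x, F x ^ 2 ∂P) ∧
      |∑ i, om (f i) * (se (f i) * (F (la (f i)) * S (la (f i))))| ≤
        ε * Real.sqrt (∫ x, F x ^ 2 ∂P) := by
  -- parameters
  obtain ⟨K, hK1, hKC⟩ : ∃ K : ℝ, 1 ≤ K ∧ C₀ ≤ K := ⟨max 1 C₀, le_max_left _ _, le_max_right _ _⟩
  have hK0 : 0 < K := by linarith
  obtain ⟨δ, hδ0, hδ1, hδ2, hδ3⟩ : ∃ δ : ℝ, 0 < δ ∧ δ ≤ 1 ∧ 16 * δ * K ≤ ε ^ 2 ∧ 2 * δ * K ≤ ε := by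
    refine ⟨min 1 (min (ε ^ 2 / (16 * K)) (ε / (2 * K))), by positivity, min_le_left _ _, ?_, ?_⟩
    · have h := (min_le_right 1 (min (ε ^ 2 / (16 * K)) (ε / (2 * K)))).trans (min_le_left _ _)
      rw [le_div_iff₀ (by positivity)] at h
      linarith
    · have h := (min_le_right 1 (min (ε ^ 2 / (16 * K)) (ε / (2 * K)))).trans (min_le_right _ _)
      rw [le_div_iff₀ (by positivity)] at h
      linarith
  obtain ⟨ν, hν0, hν1, hνM⟩ : ∃ ν : ℝ, 0 < ν ∧ ν < 1 ∧ Real.exp (8 * Real.pi * ν) ≤ 1 + δ := by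
    refine ⟨min (1 / 2) (Real.log (1 + δ) / (8 * Real.pi)), ?_, ?_, ?_⟩
    · have := Real.log_pos (show (1 : ℝ) < 1 + δ by linarith)
      have := Real.pi_pos
      positivity
    · exact (min_le_left _ _).trans_lt (by norm_num)
    · rw [← Real.le_log_iff_exp_le (by linarith)]
      have h := min_le_right (1 / 2) (Real.log (1 + δ) / (8 * Real.pi))
      rw [le_div_iff₀ (by positivity)] at h
      linarith
  obtain ⟨ν₁, N₁, hν₁, htm⟩ := transfer_mean hδ0
  -- growth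
  have hgrow : ∀ {a c : ℝ}, 0 < a → 0 < c → ∃ M₀ : ℕ, ∀ N : ℕ, M₀ ≤ N →
      (N : ℝ) ^ (1 - a) ≤ c * N := by
    intro a c ha hc
    have h1 : Tendsto (fun n : ℕ => (n : ℝ) ^ (-a)) atTop (𝓝 0) :=
      (tendsto_rpow_neg_atTop ha).comp tendsto_natCast_atTop_atTop
    obtain ⟨M₀, hM₀⟩ := Filter.eventually_atTop.mp (h1.eventually (gt_mem_nhds hc))
    refine ⟨max M₀ 1, fun N hN => ?_⟩
    have hN0 : (0 : ℝ) < N := by
      have : 1 ≤ N := (le_max_right _ _).trans hN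
      exact_mod_cast this
    have h2 := hM₀ N ((le_max_left _ _).trans hN)
    rw [show (1 : ℝ) - a = -a + 1 by ring, Real.rpow_add hN0, Real.rpow_one]
    exact mul_le_mul_of_nonneg_right h2.le hN0.le
  obtain ⟨N₂, hN₂⟩ := hgrow (a := d / 8) (c := ν ^ 2) (by positivity) (by positivity)
  obtain ⟨N₃, hN₃⟩ := hgrow (a := 1 - d / 4) (c := ν₁ ^ 2) (by linarith) (by positivity)
  refine ⟨max (max N₁ N₂) (max N₃ 1), fun N _ hN ι _ f hf I hI P hP F S hF hS h4 => ?_⟩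
  have hNN1 : N₁ ≤ N := ((le_max_left _ _).trans (le_max_left _ _)).trans hN
  have hNN2 : N₂ ≤ N := ((le_max_right _ _).trans (le_max_left _ _)).trans hN
  have hNN3 : N₃ ≤ N := ((le_max_left _ _).trans (le_max_right _ _)).trans hN
  have hNN : 1 ≤ N := ((le_max_right _ _).trans (le_max_right _ _)).trans hN
  have hNR : (1 : ℝ) ≤ N := by exact_mod_cast hNN
  have hn : ∀ i, IsNew (f i) := fun i => (hf.2 (f i)).mpr ⟨i, rfl⟩
  have hIp : ∀ p ∈ I, p.Prime := fun p hp => (hI p hp).1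
  have := hP.prob
  set X₁ : ℕ := ⌊(N : ℝ) ^ (1 - d)⌋₊ with hX₁
  set X₂ : ℕ := ⌊(N : ℝ) ^ (d / 8)⌋₊ with hX₂
  have hX₁1 : 1 ≤ X₁ := Nat.le_floor (by
    rw [Nat.cast_one]
    exact Real.one_le_rpow hNR (by linarith))
  have hX₂1 : 1 ≤ X₂ := Nat.le_floor (by
    rw [Nat.cast_one]
    exact Real.one_le_rpow hNR (by linarith))
  have hprod : (X₁ : ℝ) * X₂ ≤ ν ^ 2 * N := by
    refine (BIL_pow hNN hX₁ hX₂).trans ?_
    refine le_trans (Real.rpow_le_rpow_of_exponent_le hNR ?_) (hN₂ N hNN2)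
    linarith
  have hmax : ((max X₁ X₂ : ℕ) : ℝ) ≤ ν ^ 2 * N := by
    refine le_trans ?_ hprod
    have h1 : (1 : ℝ) ≤ X₁ := by exact_mod_cast hX₁1
    have h2 : (1 : ℝ) ≤ X₂ := by exact_mod_cast hX₂1
    rw [Nat.cast_max]
    exact max_le (by nlinarith) (by nlinarith)
  have hsq : ((X₂ * X₂ : ℕ) : ℝ) ≤ ν₁ ^ 2 * N := by
    rw [Nat.cast_mul]
    refine (BIL_pow hNN hX₂ hX₂).trans ?_
    refine le_trans (Real.rpow_le_rpow_of_exponent_le hNR ?_) (hN₃ N hNN3)
    linarith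
  set M : ℝ := Real.exp (8 * Real.pi * ν) with hMdef
  have hM1 : 1 ≤ M := Real.one_le_exp (by have := Real.pi_pos; positivity)
  -- integrals
  have iFF := BIL_int hP hF hF
  have iFS := BIL_int hP hF hS
  have iSS := BIL_int hP hS hS
  set a : ℝ := ∫ x, F x ^ 2 ∂P with ha
  set q : ℝ := ∫ x, S x ^ 2 ∂P with hq
  set b : ℝ := ∫ x, F x * S x ∂P with hb
  have ha0 : 0 ≤ a := integral_nonneg fun x => sq_nonneg _
  have hq0 : 0 ≤ q := integral_nonneg fun x => sq_nonneg _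
  have hquad : ∀ t : ℝ, ∫ x, (F x + t * S x) ^ 2 ∂P = a + 2 * t * b + t ^ 2 * q := by
    intro t
    have e1 : ∀ x, (F x + t * S x) ^ 2 = F x ^ 2 + 2 * t * (F x * S x) + t ^ 2 * S x ^ 2 := by
      intro x
      ring
    simp only [e1]
    have iFF' : Integrable (fun x => F x ^ 2) P := by simpa only [sq] using iFF
    have iSS' : Integrable (fun x => S x ^ 2) P := by simpa only [sq] using iSS
    exact BIL_three iFF' iFS iSS' (2 * t) (t ^ 2)
  have hbaq : b ^ 2 ≤ a * q := by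
    have h := BIL_disc (a := q) (b := b) (c := a) (fun t => by
      have h1 : 0 ≤ ∫ x, (F x + t * S x) ^ 2 ∂P := integral_nonneg fun x => sq_nonneg _
      rw [hquad t] at h1
      linarith)
    linarith
  -- the fourth moment
  have hq4 : q ^ 2 ≤ ∫ x, S x ^ 4 ∂P := by
    have iSS' : Integrable (fun x => S x ^ 2) P := by simpa only [sq] using iSS
    have i4 := BIL_int4 hP hS
    have h := BIL_disc (a := 1) (b := q) (c := ∫ x, S x ^ 4 ∂P) (fun t => by
      have h1 : 0 ≤ ∫ x, (S x ^ 2 + t) ^ 2 ∂P := integral_nonneg fun x => sq_nonneg _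
      have e1 : ∀ x, (S x ^ 2 + t) ^ 2 = S x ^ 4 + 2 * t * S x ^ 2 + t ^ 2 * 1 := by
        intro x
        ring
      simp only [e1] at h1
      rw [BIL_three i4 iSS' (integrable_const 1) (2 * t) (t ^ 2), integral_const, smul_eq_mul,
        probReal_univ] at h1
      linarith)
    linarith
  have hqK : q ≤ K := by
    by_contra h
    push Not at h
    nlinarith
  have h4s : Real.sqrt (∫ x, (S x * S x) ^ 2 ∂P) ≤ K := by
    have e1 : ∀ x, (S x * S x) ^ 2 = S x ^ 4 := fun x => by ring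
    simp only [e1]
    refine Real.sqrt_le_iff.mpr ⟨hK0.le, ?_⟩
    nlinarith
  -- moments over the family
  have hom : ∀ i, 0 ≤ om (f i) := by
    intro i
    unfold om
    have : 0 < nr (f i) := nr_pos (new_ne_zero (hn i))
    have := Real.pi_pos
    positivity
  set A : ℝ := ∑ i, om (f i) * F (la (f i)) ^ 2 with hA
  set E : ℝ := ∑ i, om (f i) * S (la (f i)) ^ 2 with hE
  set e : ℝ := ∑ i, om (f i) * (F (la (f i)) * S (la (f i))) with he
  set e' : ℝ := ∑ i, om (f i) * (se (f i) * (F (la (f i)) * S (la (f i)))) with he'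
  have hA0 : 0 ≤ A := Finset.sum_nonneg fun i _ => mul_nonneg (hom i) (sq_nonneg _)
  have hEq : q - δ * K ≤ E := by
    have hSS : HPoly I (X₂ * X₂) (fun x => S x * S x) := by
      have := hpoly_mul hIp hIp hS hS
      rwa [Finset.union_self] at this
    have h := (htm N hNN1 f hf hsq hI hP hSS).1
    have e1 : ∑ i, om (f i) * (S (la (f i)) * S (la (f i))) = E := by
      rw [hE]
      exact Finset.sum_congr rfl fun i _ => by ring
    have e2 : ∫ x, S x * S x ∂P = q := by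
      rw [hq]
      exact integral_congr_ae (ae_of_all _ fun x => by ring)
    simp only [e1, e2] at h
    have h2 := abs_le.mp h
    have h3 : δ * Real.sqrt (∫ x, (S x * S x) ^ 2 ∂P) ≤ δ * K := mul_le_mul_of_nonneg_left h4s hδ0.le
    linarith [h2.1]
  have key1 : ∀ t : ℝ, A + 2 * t * e + t ^ 2 * E ≤ M * (a + 2 * t * b + t ^ 2 * q) := by
    intro t
    have h := transfer f hf.1 hn hν0 hν1 (X := max X₁ X₂) (hX₁1.trans (le_max_left _ _)) hmax hI hP
      (BIL_lin (BIL_mono (le_max_left _ _) hF) (BIL_mono (le_max_right _ _) hS) t) 0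
    rw [hquad t] at h
    have h5 : ∑ i, om (f i) * (F (la (f i)) + t * S (la (f i)) + 0 * se (f i)) ^ 2 =
        A + 2 * t * e + t ^ 2 * E := by
      rw [hA, hE, he, Finset.mul_sum, Finset.mul_sum, ← Finset.sum_add_distrib,
        ← Finset.sum_add_distrib]
      exact Finset.sum_congr rfl fun i _ => by ring
    rw [h5] at h
    linarith
  have key2 : ∀ t : ℝ, A + 2 * t * e' + t ^ 2 * E ≤ M * (a + t ^ 2 * q) := by
    intro t
    have h := transfer_two f hf.1 hn hν0 hν1 hX₁1 hX₂1 hprod hI hP hF (BIL_smul hS t)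
    have h5 : ∑ i, om (f i) * (F (la (f i)) + se (f i) * (t * S (la (f i)))) ^ 2 =
        A + 2 * t * e' + t ^ 2 * E := by
      rw [hA, hE, he', Finset.mul_sum, Finset.mul_sum, ← Finset.sum_add_distrib,
        ← Finset.sum_add_distrib]
      refine Finset.sum_congr rfl fun i _ => ?_
      have := BIL_se (hn i)
      linear_combination om (f i) * t ^ 2 * S (la (f i)) ^ 2 * this
    have h6 : ∫ x, (t * S x) ^ 2 ∂P = t ^ 2 * q := by
      simp only [mul_pow]
      rw [integral_const_mul]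
    rw [h5, h6] at h
    exact h
  have hAa : A ≤ M * a := by
    have h := key1 0
    simpa using h
  have d1 := BIL_disc (a := M * q - E) (b := M * b - e) (c := M * a - A) (fun t => by
    have := key1 t
    nlinarith)
  have d2 := BIL_disc (a := M * q - E) (b := -e') (c := M * a - A) (fun t => by
    have := key2 t
    nlinarith)
  constructor
  · exact BIL_final hδ0 hδ1 hK1 hM1 hνM hδ2 hδ3 hε ha0 hA0 hAa hEq hqK hq0 hbaq (by linarith)
  · have h := BIL_final (b := 0) (e := e') hδ0 hδ1 hK1 hM1 hνM hδ2 hδ3 hε ha0 hA0 hAa hEq hqK hq0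
      (by simpa using mul_nonneg ha0 hq0) (by
        have : (M * 0 - e') ^ 2 = (-e') ^ 2 := by ring
        rw [this]
        linarith)
    simpa using h

theorem bilinear : type_of% @bilinear_pr := @bilinear_pr

end Pool.Agent.KSL
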