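import Pool.Agent.Lib_helper41.KSL.DefsN
import Pool.Agent.Lib_helper68.LEV.HPO
import Pool.Agent.Lib_helper68.LEV.EIA
import Pool.Agent.Lib_helper41.KSNF.SMI

/-! Block SRF: separation of the smooth and the rough part. Cites `sm_strip` (block SMI). -/

set_option autoImplicit false

namespace Pool.Agent.KSL

open Pool.Agent.LVB Pool.Agent.LEV Complex MeasureTheory Filter Topology UpperHalfPlane ModularGroup
  ProbabilityTheory
open scoped MatrixGroups Modular ENNReal ModularForm ComplexConjugate ContDiff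

theorem SRF_coprime {z a b : ℕ} (ha : smooth z a) (hb : rough z b) : a.Coprime b := by
  refine Nat.coprime_of_dvd fun p hp h1 h2 => ?_
  exact absurd (ha.2 p hp h1) (not_le.mpr (hb p hp h2))

theorem SRF_inj {z a b a' b' : ℕ} (ha : smooth z a) (hb : rough z b) (ha' : smooth z a')
    (hb' : rough z b') (h : a * b = a' * b') : a = a' ∧ b = b' := by
  have h1 : a ∣ a' := by
    have : a ∣ a' * b' := ⟨b, h.symm⟩
    exact (SRF_coprime ha hb').dvd_of_dvd_mul_right this
  have h2 : a' ∣ a := by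
    have : a' ∣ a * b := ⟨b', h⟩
    exact (SRF_coprime ha' hb).dvd_of_dvd_mul_right this
  have h3 : a = a' := Nat.dvd_antisymm h1 h2
  refine ⟨h3, ?_⟩
  subst h3
  exact Nat.eq_of_mul_eq_mul_left (Nat.pos_of_ne_zero ha.1) h

open Classical in
/-- separation of the smooth and the rough part -/
theorem sm_split_pr {N : ℕ} [Fact N.Prime] {f : S2 N} (hf : IsNew f) {z : ℕ} {A : Finset ℕ}
    (hA : ∀ a ∈ A, smooth z a) (B : ℕ) {R : ℝ} (hR : 0 < R) :
    ∑ a ∈ A, la f a ^ 2 * ∑ b ∈ (Finset.Icc 1 B).filter (fun b => rough z b),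
      la f b ^ 2 * Real.exp (-4 * Real.pi * (a * b : ℕ) / R) ≤ sm f R := by
  have hs := (sm_strip hf hR).1
  set T : Finset (ℕ × ℕ) := A ×ˢ (Finset.Icc 1 B).filter (fun b => rough z b) with hT
  have hTm : ∀ p ∈ T, smooth z p.1 ∧ rough z p.2 := by
    intro p hp
    rw [hT, Finset.mem_product, Finset.mem_filter] at hp
    exact ⟨hA p.1 hp.1, hp.2.2⟩
  have hinj : Set.InjOn (fun p : ℕ × ℕ => p.1 * p.2) T := by
    intro p hp q hq h
    obtain ⟨h1, h2⟩ := hTm p hp
    obtain ⟨h3, h4⟩ := hTm q hq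
    obtain ⟨h5, h6⟩ := SRF_inj h1 h2 h3 h4 h
    exact Prod.ext h5 h6
  have e1 : ∑ a ∈ A, la f a ^ 2 * ∑ b ∈ (Finset.Icc 1 B).filter (fun b => rough z b),
      la f b ^ 2 * Real.exp (-4 * Real.pi * (a * b : ℕ) / R) =
      ∑ n ∈ T.image (fun p : ℕ × ℕ => p.1 * p.2),
        la f n ^ 2 * Real.exp (-4 * Real.pi * n / R) := by
    rw [Finset.sum_image hinj, hT, Finset.sum_product]
    refine Finset.sum_congr rfl fun a ha => ?_
    rw [Finset.mul_sum]
    refine Finset.sum_congr rfl fun b hb => ?_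
    have hab : a.Coprime b := SRF_coprime (hA a ha) (Finset.mem_filter.mp hb).2
    rw [HPO_la_mul hf (new_real hf) hab]
    ring
  rw [e1]
  exact hs.sum_le_tsum _ fun n _ => by positivity

theorem sm_split : type_of% @sm_split_pr := @sm_split_pr

end Pool.Agent.KSL
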